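import Mathlib
set_option autoImplicit false
namespace Pool.Agent.Ads772

/-- nearest neighbours in the square lattice -/
def Nb (u v : ℤ × ℤ) : Prop := |v.1 - u.1| + |v.2 - u.2| = 1

/-- number of vertices on the wall `y = 0` -/
def vis (l : List (ℤ × ℤ)) : ℕ := l.countP (fun v => decide (v.2 = 0))

open Classical in
/-- self-avoiding walks with `n` steps from the origin, as lists of `n + 1` vertices -/
noncomputable def walks (n : ℕ) : Finset (List (ℤ × ℤ)) :=
  ((Fintype.piFinset (fun _ : Fin (n + 1) =>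
    (Finset.Icc (-(n : ℤ)) n) ×ˢ (Finset.Icc (-(n : ℤ)) n))).image List.ofFn).filter
    (fun l => l.head? = some (0, 0) ∧ l.Nodup ∧ l.IsChain Nb)

open Classical in
/-- self-avoiding polygons with `n` vertices rooted at the origin, as lists of `n` vertices -/
noncomputable def polys (n : ℕ) : Finset (List (ℤ × ℤ)) :=
  ((Fintype.piFinset (fun _ : Fin n =>
    (Finset.Icc (-(n : ℤ)) n) ×ˢ (Finset.Icc (-(n : ℤ)) n))).image List.ofFn).filter
    (fun l => l.head? = some (0, 0) ∧ l.Nodup ∧ l.IsChain Nb ∧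
      ∃ v, l.getLast? = some v ∧ Nb v (0, 0))

/-- number of `n`-step self-avoiding walks -/
noncomputable def cnt (n : ℕ) : ℝ := (walks n).card

open Classical in
/-- adsorbing walks in the half plane -/
noncomputable def Wa (a : ℝ) (n : ℕ) : ℝ :=
  ∑ l ∈ (walks n).filter (fun l => ∀ v ∈ l, 0 ≤ v.2), Real.exp (a * vis l)

open Classical in
/-- adsorbing walks in the half plane that end on the wall -/
noncomputable def La (a : ℝ) (n : ℕ) : ℝ :=
  ∑ l ∈ (walks n).filter (fun l => (∀ v ∈ l, 0 ≤ v.2) ∧ ∃ x, l.getLast? = some (x, 0)),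
    Real.exp (a * vis l)

open Classical in
/-- unfolded adsorbing walks of width `W` and height at most `H` that end on the wall -/
noncomputable def Ua (a : ℝ) (n W H : ℕ) : ℝ :=
  ∑ l ∈ (walks n).filter (fun l => (∀ v ∈ l, 0 ≤ v.1 ∧ v.1 ≤ (W : ℤ) ∧ 0 ≤ v.2 ∧ v.2 ≤ (H : ℤ)) ∧
    l.getLast? = some ((W : ℤ), 0)), Real.exp (a * vis l)

open Classical in
/-- all unfolded adsorbing walks with `n` steps -/
noncomputable def Un (a : ℝ) (n : ℕ) : ℝ :=
  ∑ l ∈ (walks n).filter (fun l => ∃ W : ℤ, (∀ v ∈ l, 0 ≤ v.1 ∧ v.1 ≤ W ∧ 0 ≤ v.2) ∧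
    l.getLast? = some (W, 0)), Real.exp (a * vis l)

open Classical in
/-- adsorbing polygons in the half plane, rooted at a vertex on the wall -/
noncomputable def Pa (a : ℝ) (n : ℕ) : ℝ :=
  ∑ l ∈ (polys n).filter (fun l => ∀ v ∈ l, 0 ≤ v.2), Real.exp (a * vis l)

/-- a bridge of span `L`: all vertices after the first lie in `1 ≤ x ≤ L`, the last one in `x = L` -/
def IsBr (L : ℕ) (l : List (ℤ × ℤ)) : Prop :=
  l.Nodup ∧ l.IsChain Nb ∧ l.head? = some (0, 0) ∧ (∀ v ∈ l.tail, 1 ≤ v.1) ∧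
    (∀ v ∈ l, v.1 ≤ L) ∧ ∃ y, l.getLast? = some ((L : ℤ), y)

open Classical in
/-- bridges of span `L` with at most `M` steps -/
noncomputable def brs (L M : ℕ) : Finset (List (ℤ × ℤ)) :=
  (Finset.range (M + 1)).biUnion (fun n => (walks n).filter (IsBr L))

/-- an anchored polygon: a list `p` of `n` vertices in the half plane running once around a polygon,
starting at the top vertex `(0, h)` of the leftmost column and ending at `(0, h - 1)`; the rightmost
column is `X` and its top vertex is `(X, s)`. -/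
structure Anch (n : ℕ) (h X s : ℤ) (p : List (ℤ × ℤ)) : Prop where
  len : p.length = n
  nodup : p.Nodup
  chain : p.IsChain Nb
  first : p.head? = some (0, h)
  last : p.getLast? = some (0, h - 1)
  xlo : ∀ v ∈ p, 0 ≤ v.1
  xhi : ∀ v ∈ p, v.1 ≤ X
  ylo : ∀ v ∈ p, 0 ≤ v.2
  ltop : ∀ v ∈ p, v.1 = 0 → v.2 ≤ h
  rmem : (X, s) ∈ p
  rtop : ∀ v ∈ p, v.1 = X → v.2 ≤ s

open Classical in
/-- anchored polygons with `n` vertices and top heights `h` (left) and `s` (right) -/
noncomputable def anch (n : ℕ) (h s : ℤ) : Finset (List (ℤ × ℤ)) :=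
  ((Fintype.piFinset (fun _ : Fin n =>
    (Finset.Icc (0 : ℤ) n) ×ˢ (Finset.Icc (0 : ℤ) (h + n)))).image List.ofFn).filter
    (fun p => ∃ X, Anch n h X s p)

open Classical in
/-- weighted anchored polygons that touch the wall -/
noncomputable def At (a : ℝ) (n : ℕ) (h s : ℤ) : ℝ :=
  ∑ p ∈ (anch n h s).filter (fun p => ∃ v ∈ p, v.2 = 0), Real.exp (a * vis p)

/-- half-space walks of span at most `k`: all vertices after the first lie in `1 ≤ x ≤ k` -/
def IsHs (k : ℕ) (l : List (ℤ × ℤ)) : Prop :=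
  l.Nodup ∧ l.IsChain Nb ∧ l.head? = some (0, 0) ∧ (∀ v ∈ l.tail, 1 ≤ v.1) ∧ (∀ v ∈ l, v.1 ≤ k)

/-- generating function in the number of steps -/
noncomputable def G (z : ENNReal) (P : List (ℤ × ℤ) → Prop) : ENNReal :=
  ∑' l : {l : List (ℤ × ℤ) // P l}, z ^ (l.1.length - 1)

/-- reflect the part of the walk after time `i` in the column of `w i` -/
def flipR (i : ℕ) (w : ℕ → ℤ × ℤ) : ℕ → ℤ × ℤ :=
  fun j => if j ≤ i then w j else (2 * (w i).1 - (w j).1, (w j).2)

/-- reflect the part of the walk before time `i` in the column of `w i` -/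
def flipL (i : ℕ) (w : ℕ → ℤ × ℤ) : ℕ → ℤ × ℤ :=
  fun j => if i ≤ j then w j else (2 * (w i).1 - (w j).1, (w j).2)

/-- `w` is self-avoiding on `[0, n]` -/
def SawF (n : ℕ) (w : ℕ → ℤ × ℤ) : Prop :=
  (∀ i ≤ n, ∀ j ≤ n, w i = w j → i = j) ∧ ∀ i < n, Nb (w i) (w (i + 1))

end Pool.Agent.Ads772
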