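import Mathlib
import Pool.Agent.Ads772.Defs
set_option autoImplicit false
namespace Pool.Agent.Ads772.J1


open Filter Topology

/-! Targets. -/

/-- two points of a chain at list distance `k` have `ℓ¹` distance at most `k` -/
theorem chain_dist (l : List (ℤ × ℤ)) (hl : l.IsChain Nb) (i j : ℕ) (hij : i ≤ j)
    (hj : j < l.length) :
    |(l[j]).1 - (l[i]).1| + |(l[j]).2 - (l[i]).2| ≤ (j : ℤ) - i := by
  obtain ⟨k, rfl⟩ := Nat.exists_eq_add_of_le hij
  induction k with
  | zero => simp
  | succ k ih =>
    have h1 := ih (by omega) (by omega)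
    have h2 := (List.isChain_iff_getElem.mp hl) (i + k) (by omega)
    unfold Nb at h2
    have e : i + (k + 1) = i + k + 1 := by ring
    simp only [e]
    have t1 : |(l[i + k + 1]).1 - (l[i]).1| ≤
        |(l[i + k + 1]).1 - (l[i + k]).1| + |(l[i + k]).1 - (l[i]).1| := abs_sub_le _ _ _
    have t2 : |(l[i + k + 1]).2 - (l[i]).2| ≤
        |(l[i + k + 1]).2 - (l[i + k]).2| + |(l[i + k]).2 - (l[i]).2| := abs_sub_le _ _ _
    push_cast at h1 ⊢
    linarith

lemma head_get {l : List (ℤ × ℤ)} {v : ℤ × ℤ} (h : l.head? = some v) :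
    ∃ hl : 0 < l.length, l[0] = v := by
  cases l with
  | nil => simp at h
  | cons a l => exact ⟨by simp, by simpa using h⟩

/-- the points of a chain are near its head -/
lemma chain_head {l : List (ℤ × ℤ)} (hl : l.IsChain Nb) {v : ℤ × ℤ} (h : l.head? = some v)
    (w : ℤ × ℤ) (hw : w ∈ l) : |w.1 - v.1| + |w.2 - v.2| ≤ (l.length : ℤ) - 1 := by
  obtain ⟨h0, hv⟩ := head_get h
  obtain ⟨j, hj, rfl⟩ := List.mem_iff_getElem.mp hw
  have := chain_dist l hl 0 j (Nat.zero_le j) hj
  rw [hv] at this
  push_cast at this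
  have : (j : ℤ) ≤ (l.length : ℤ) - 1 := by omega
  linarith

lemma mem_image_ofFn {m : ℕ} {A : Finset (ℤ × ℤ)} {l : List (ℤ × ℤ)} (hl : l.length = m)
    (h : ∀ v ∈ l, v ∈ A) :
    l ∈ (Fintype.piFinset (fun _ : Fin m => A)).image List.ofFn := by
  subst hl
  rw [Finset.mem_image]
  refine ⟨l.get, ?_, List.ofFn_get l⟩
  rw [Fintype.mem_piFinset]
  intro i
  exact h _ (List.get_mem l i)

/-- membership in `walks` (the box constraint is automatic) -/
theorem mem_walks (n : ℕ) (l : List (ℤ × ℤ)) :
    l ∈ walks n ↔ l.length = n + 1 ∧ l.head? = some (0, 0) ∧ l.Nodup ∧ l.IsChain Nb := by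
  classical
  unfold walks
  rw [Finset.mem_filter]
  constructor
  · rintro ⟨h1, h2⟩
    rw [Finset.mem_image] at h1
    obtain ⟨f, -, rfl⟩ := h1
    exact ⟨List.length_ofFn, h2⟩
  · rintro ⟨h1, h2⟩
    refine ⟨mem_image_ofFn h1 ?_, h2⟩
    intro v hv
    have h3 := chain_head h2.2.2 h2.1 v hv
    rw [h1] at h3
    push_cast at h3
    rw [sub_zero, sub_zero] at h3
    have a1 := abs_nonneg v.1
    have a2 := abs_nonneg v.2
    have b1 := abs_le.mp (show |v.1| ≤ n by linarith)
    have b2 := abs_le.mp (show |v.2| ≤ n by linarith)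
    rw [Finset.mem_product, Finset.mem_Icc, Finset.mem_Icc]
    exact ⟨b1, b2⟩

/-- membership in `polys` (the box constraint is automatic) -/
theorem mem_polys (n : ℕ) (l : List (ℤ × ℤ)) :
    l ∈ polys n ↔ l.length = n ∧ l.head? = some (0, 0) ∧ l.Nodup ∧ l.IsChain Nb ∧
      ∃ v, l.getLast? = some v ∧ Nb v (0, 0) := by
  classical
  unfold polys
  rw [Finset.mem_filter]
  constructor
  · rintro ⟨h1, h2⟩
    rw [Finset.mem_image] at h1
    obtain ⟨f, -, rfl⟩ := h1
    exact ⟨List.length_ofFn, h2⟩
  · rintro ⟨h1, h2⟩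
    refine ⟨mem_image_ofFn h1 ?_, h2⟩
    intro v hv
    have h3 := chain_head h2.2.2.1 h2.1 v hv
    rw [h1] at h3
    push_cast at h3
    rw [sub_zero, sub_zero] at h3
    have a1 := abs_nonneg v.1
    have a2 := abs_nonneg v.2
    have b1 := abs_le.mp (show |v.1| ≤ n by linarith)
    have b2 := abs_le.mp (show |v.2| ≤ n by linarith)
    rw [Finset.mem_product, Finset.mem_Icc, Finset.mem_Icc]
    exact ⟨b1, b2⟩

/-- membership in `anch` (the box constraint is automatic) -/
theorem mem_anch (n : ℕ) (h s : ℤ) (l : List (ℤ × ℤ)) :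
    l ∈ anch n h s ↔ ∃ X, Anch n h X s l := by
  classical
  unfold anch
  rw [Finset.mem_filter]
  constructor
  · rintro ⟨h1, h2⟩
    exact h2
  · rintro ⟨X, hX⟩
    refine ⟨mem_image_ofFn hX.len ?_, X, hX⟩
    intro v hv
    have h3 := chain_head hX.chain hX.first v hv
    rw [hX.len] at h3
    have a1 := abs_nonneg (v.1 - 0)
    have a2 := abs_nonneg (v.2 - h)
    have c1 := hX.xlo v hv
    have c2 := hX.ylo v hv
    simp only at h3
    have b1 := abs_le.mp (show |v.1 - 0| ≤ n by linarith)
    have b2 := abs_le.mp (show |v.2 - h| ≤ n by linarith)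
    rw [Finset.mem_product, Finset.mem_Icc, Finset.mem_Icc]
    exact ⟨⟨c1, by linarith [b1.2]⟩, ⟨c2, by linarith [b2.2]⟩⟩

/-- membership in `brs` -/
theorem mem_brs (L M : ℕ) (l : List (ℤ × ℤ)) :
    l ∈ brs L M ↔ IsBr L l ∧ l.length ≤ M + 1 := by
  classical
  unfold brs
  rw [Finset.mem_biUnion]
  constructor
  · rintro ⟨n, hn, h⟩
    rw [Finset.mem_filter, mem_walks] at h
    rw [Finset.mem_range] at hn
    exact ⟨h.2, by omega⟩
  · rintro ⟨h1, h2⟩
    obtain ⟨h0, -⟩ := head_get h1.2.2.1
    refine ⟨l.length - 1, by rw [Finset.mem_range]; omega, ?_⟩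
    rw [Finset.mem_filter, mem_walks]
    exact ⟨⟨by omega, h1.2.2.1, h1.1, h1.2.1⟩, h1⟩

theorem one_le_cnt (n : ℕ) : 1 ≤ cnt n := by
  unfold cnt
  have : (List.ofFn (fun i : Fin (n + 1) => (((i : ℕ) : ℤ), (0 : ℤ)))) ∈ walks n := by
    rw [mem_walks]
    refine ⟨List.length_ofFn, ?_, ?_, ?_⟩
    · simp [List.ofFn_succ]
    · rw [List.nodup_ofFn]
      intro i j hij
      simp only [Prod.mk.injEq, Nat.cast_inj, and_true] at hij
      exact Fin.ext hij
    · rw [List.isChain_iff_getElem]
      intro i hi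
      unfold Nb
      rw [List.getElem_ofFn, List.getElem_ofFn]
      simp
  have h : 0 < (walks n).card := Finset.card_pos.mpr ⟨_, this⟩
  exact_mod_cast h

/-- the four unit steps -/
def steps : Finset (ℤ × ℤ) := {(1, 0), (-1, 0), (0, 1), (0, -1)}

lemma nb_step {u v : ℤ × ℤ} (h : Nb u v) : (v.1 - u.1, v.2 - u.2) ∈ steps := by
  unfold Nb at h
  have h1 := abs_nonneg (v.1 - u.1)
  have h2 := abs_nonneg (v.2 - u.2)
  have h3 : (|v.1 - u.1| = 0 ∧ |v.2 - u.2| = 1) ∨ (|v.1 - u.1| = 1 ∧ |v.2 - u.2| = 0) := by omega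
  rcases h3 with ⟨a, b⟩ | ⟨a, b⟩
  · have a' := abs_eq_zero.mp a
    rw [a']
    rcases (abs_eq (by norm_num)).mp b with b' | b' <;> rw [b'] <;> decide
  · have b' := abs_eq_zero.mp b
    rw [b']
    rcases (abs_eq (by norm_num)).mp a with a' | a' <;> rw [a'] <;> decide

theorem card_walks_succ (n : ℕ) : (walks (n + 1)).card ≤ 4 * (walks n).card := by
  classical
  have hsub : walks (n + 1) ⊆ ((walks n) ×ˢ steps).image
      (fun p => p.1 ++ [((p.1.getLast?.getD (0, 0)).1 + p.2.1, (p.1.getLast?.getD (0, 0)).2 + p.2.2)]) := by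
    intro l hl
    rw [mem_walks] at hl
    obtain ⟨hlen, hhead, hnd, hch⟩ := hl
    rw [Finset.mem_image]
    have hne : l ≠ [] := by
      rintro rfl; simp at hlen
    have hsplit := List.dropLast_append_getLast hne
    have hdl : l.dropLast.length = n + 1 := by rw [List.length_dropLast, hlen]; rfl
    have hdne : l.dropLast ≠ [] := by
      intro h0
      rw [h0] at hdl; simp at hdl
    have hstep := hch.rel_getLast_dropLast hdne
    refine ⟨(l.dropLast, ((l.getLast hne).1 - (l.dropLast.getLast hdne).1,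
      (l.getLast hne).2 - (l.dropLast.getLast hdne).2)), ?_, ?_⟩
    · rw [Finset.mem_product]
      refine ⟨?_, nb_step hstep⟩
      rw [mem_walks]
      refine ⟨hdl, ?_, ?_, hch.dropLast⟩
      · rw [← hhead]
        conv_rhs => rw [← hsplit]
        rw [List.head?_append_of_ne_nil _ hdne]
      · exact hnd.sublist (List.dropLast_sublist l)
    · simp only
      rw [List.getLast?_eq_getLast_of_ne_nil hdne]
      simp only [Option.getD_some, add_sub_cancel]
      exact hsplit
  refine (Finset.card_le_card hsub).trans (Finset.card_image_le.trans ?_)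
  rw [Finset.card_product, mul_comm]
  exact Nat.mul_le_mul_right _ (by decide)

theorem cnt_le (n : ℕ) : cnt n ≤ 4 ^ n := by
  unfold cnt
  have : (walks n).card ≤ 4 ^ n := by
    induction n with
    | zero =>
      rw [pow_zero, Finset.card_le_one]
      intro a ha b hb
      rw [mem_walks] at ha hb
      have key : ∀ l : List (ℤ × ℤ), l.length = 0 + 1 → l.head? = some (0, 0) → l = [(0, 0)] := by
        intro l h1 h2
        rw [zero_add] at h1
        obtain ⟨v, rfl⟩ := List.length_eq_one_iff.mp h1
        simpa using h2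
      rw [key a ha.1 ha.2.1, key b hb.1 hb.2.1]
    | succ n ih =>
      calc (walks (n + 1)).card ≤ 4 * (walks n).card := card_walks_succ n
        _ ≤ 4 * 4 ^ n := Nat.mul_le_mul_left 4 ih
        _ = 4 ^ (n + 1) := by ring
  exact_mod_cast this

/-- submultiplicativity -/
theorem cnt_add_le (n m : ℕ) : cnt (n + m) ≤ cnt n * cnt m := by
  classical
  unfold cnt
  have hcard : (walks (n + m)).card ≤ (walks n ×ˢ walks m).card := by
    apply Finset.card_le_card_of_injOn
      (fun l => (l.take (n + 1), (l.drop n).map (fun v => (v.1 - (l.getD n (0, 0)).1, v.2 - (l.getD n (0, 0)).2))))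
    · intro l hl
      rw [Finset.mem_coe, mem_walks] at hl
      obtain ⟨hlen, hhead, hnd, hch⟩ := hl
      rw [Finset.mem_coe, Finset.mem_product]
      have hn : n < l.length := by omega
      have hgd : l.getD n (0, 0) = l[n] := by
        rw [List.getD_eq_getElem _ _ hn]
      constructor
      · rw [mem_walks]
        refine ⟨by rw [List.length_take]; omega, ?_, hnd.sublist (List.take_sublist _ _), hch.take _⟩
        cases l with
        | nil => simp at hhead
        | cons a l => simpa using hhead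
      · rw [mem_walks]
        simp only [hgd]
        refine ⟨by rw [List.length_map, List.length_drop]; omega, ?_, ?_, ?_⟩
        · rw [List.head?_map, List.head?_drop, List.getElem?_eq_getElem hn]
          simp
        · apply List.Nodup.map
          · intro a b hab
            simp only [Prod.mk.injEq, sub_left_inj] at hab
            exact Prod.ext hab.1 hab.2
          · exact hnd.sublist (List.drop_sublist _ _)
        · rw [List.isChain_map]
          apply (hch.drop n).imp
          intro a b hab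
          unfold Nb at hab ⊢
          simpa using hab
    · intro l hl l' hl' h
      rw [Finset.mem_coe, mem_walks] at hl hl'
      simp only [Prod.mk.injEq] at h
      obtain ⟨h1, h2⟩ := h
      have hn : n < l.length := by omega
      have hn' : n < l'.length := by omega
      have hgd : l.getD n (0, 0) = l'.getD n (0, 0) := by
        rw [List.getD_eq_getElem _ _ hn, List.getD_eq_getElem _ _ hn']
        have e1 : (l.take (n + 1))[n]? = (l'.take (n + 1))[n]? := by rw [h1]
        rw [List.getElem?_take_of_lt (Nat.lt_succ_self n), List.getElem?_take_of_lt (Nat.lt_succ_self n),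
          List.getElem?_eq_getElem hn, List.getElem?_eq_getElem hn'] at e1
        exact Option.some.inj e1
      rw [hgd] at h2
      have hinj : Function.Injective (fun v : ℤ × ℤ => (v.1 - (l'.getD n (0, 0)).1, v.2 - (l'.getD n (0, 0)).2)) := by
        intro a b hab
        simp only [Prod.mk.injEq, sub_left_inj] at hab
        exact Prod.ext hab.1 hab.2
      have h3 := List.map_injective_iff.mpr hinj h2
      have h4 : l.take n = l'.take n := by
        have := congrArg (List.take n) h1
        rwa [List.take_take, List.take_take, min_eq_left (Nat.le_succ n)] at this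
      rw [← List.take_append_drop n l, ← List.take_append_drop n l', h3, h4]
  rw [Finset.card_product] at hcard
  exact_mod_cast hcard

/-- the logarithm of the connective constant -/
theorem exists_k2 : ∃ k2 : ℝ, 0 ≤ k2 ∧ Tendsto (fun n : ℕ => Real.log (cnt n) / n) atTop (𝓝 k2) ∧
    ∀ n : ℕ, Real.exp (k2 * n) ≤ cnt n := by
  have hpos : ∀ n, 0 < cnt n := fun n => lt_of_lt_of_le one_pos (one_le_cnt n)
  have hsub : Subadditive (fun n => Real.log (cnt n)) := by
    intro m n
    show Real.log (cnt (m + n)) ≤ Real.log (cnt m) + Real.log (cnt n)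
    rw [← Real.log_mul (hpos m).ne' (hpos n).ne']
    exact Real.log_le_log (hpos _) (cnt_add_le m n)
  have hnn : ∀ n : ℕ, 0 ≤ Real.log (cnt n) / n := fun n =>
    div_nonneg (Real.log_nonneg (one_le_cnt n)) (Nat.cast_nonneg n)
  have hbdd : BddBelow (Set.range fun n : ℕ => Real.log (cnt n) / n) := by
    refine ⟨0, ?_⟩
    rintro _ ⟨n, rfl⟩
    exact hnn n
  have hlim := hsub.tendsto_lim hbdd
  refine ⟨hsub.lim, ge_of_tendsto' hlim hnn, hlim, ?_⟩
  intro n
  rcases Nat.eq_zero_or_pos n with rfl | hn
  · simpa using one_le_cnt 0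
  · have h1 := hsub.lim_le_div hbdd hn.ne'
    have hn' : (0 : ℝ) < n := by exact_mod_cast hn
    rw [le_div_iff₀ hn'] at h1
    calc Real.exp (hsub.lim * n) ≤ Real.exp (Real.log (cnt n)) := Real.exp_le_exp.mpr h1
      _ = cnt n := Real.exp_log (hpos n)

end Pool.Agent.Ads772.J1
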