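import Mathlib
import Pool.Agent.Ads772.Defs
import Pool.Agent.Ads772.J1
set_option autoImplicit false
namespace Pool.Agent.Ads772.J2a

open Pool.Agent.Ads772.J1 (chain_dist mem_walks)

open Filter Topology

/-! Given result (proved elsewhere, use as a black box). -/

/-! Targets. -/

theorem exists_last {α : Type} (p : α → Prop) : ∀ l : List α, (∃ x ∈ l, p x) →
    ∃ a v b, l = a ++ v :: b ∧ p v ∧ ∀ w ∈ b, ¬ p w := by
  intro l
  induction l with
  | nil => rintro ⟨x, hx, _⟩; simp at hx
  | cons h t ih =>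
    intro hx
    by_cases ht : ∃ x ∈ t, p x
    · obtain ⟨a, v, b, e, hv, hb⟩ := ih ht
      exact ⟨h :: a, v, b, by rw [e]; rfl, hv, hb⟩
    · obtain ⟨x, hx1, hx2⟩ := hx
      rcases List.mem_cons.mp hx1 with rfl | h1
      · refine ⟨[], x, t, rfl, hx2, fun w hw hpw => ht ⟨w, hw, hpw⟩⟩
      · exact absurd ⟨x, h1, hx2⟩ ht

/-- reflection -/
def rf (K y : ℤ) (w : ℤ × ℤ) : ℤ × ℤ := (K - w.1, w.2 - y)

/-- translation -/
def sh (c w : ℤ × ℤ) : ℤ × ℤ := (w.1 + c.1, w.2 + c.2)

theorem nb_rf (K y : ℤ) (u v : ℤ × ℤ) (h : Nb u v) : Nb (rf K y u) (rf K y v) := by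
  unfold Nb rf at *
  simp only
  have h1 : K - v.1 - (K - u.1) = -(v.1 - u.1) := by ring
  have h2 : v.2 - y - (u.2 - y) = v.2 - u.2 := by ring
  rw [h1, h2, abs_neg]; exact h

theorem nb_sh (c u v : ℤ × ℤ) (h : Nb u v) : Nb (sh c u) (sh c v) := by
  unfold Nb sh at *
  simp only
  have h1 : v.1 + c.1 - (u.1 + c.1) = v.1 - u.1 := by ring
  have h2 : v.2 + c.2 - (u.2 + c.2) = v.2 - u.2 := by ring
  rw [h1, h2]; exact h

theorem nb_symm (u v : ℤ × ℤ) (h : Nb u v) : Nb v u := by
  unfold Nb at *
  rw [abs_sub_comm u.1 v.1, abs_sub_comm u.2 v.2]; exact h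

theorem rf_inj (K y : ℤ) : Function.Injective (rf K y) := by
  intro u v h
  unfold rf at h
  have h1 := congrArg Prod.fst h
  have h2 := congrArg Prod.snd h
  simp only at h1 h2
  exact Prod.ext (by omega) (by omega)

theorem sh_inj (c : ℤ × ℤ) : Function.Injective (sh c) := by
  intro u v h
  unfold sh at h
  have h1 := congrArg Prod.fst h
  have h2 := congrArg Prod.snd h
  simp only at h1 h2
  exact Prod.ext (by omega) (by omega)

theorem tsum_option_le {β : Type} (f : Option β → ENNReal) :
    ∑' o, f o ≤ f none + ∑' b, f (some b) := by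
  classical
  rw [ENNReal.tsum_eq_add_tsum_ite none]
  refine add_le_add le_rfl (le_of_eq ?_)
  have h := Function.Injective.tsum_eq (g := (some : β → Option β)) (Option.some_injective β)
    (f := fun x => if x = none then 0 else f x) (by
      intro x hx
      cases x with
      | none => simp at hx
      | some b => exact ⟨b, rfl⟩)
  refine Eq.trans (tsum_congr (fun x => ?_)) (h.symm.trans ?_)
  · by_cases hx : x = none <;> simp [hx]
  · simp

/-- only the trivial walk has span zero -/
theorem hs_zero (z : ENNReal) : G z (IsHs 0) ≤ 1 := by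
  unfold G
  have key : ∀ l : {l : List (ℤ × ℤ) // IsHs 0 l}, l.1 = [(0, 0)] := by
    rintro ⟨l, h1, h2, h3, h4, h5⟩
    cases l with
    | nil => simp at h3
    | cons x t =>
      simp only [List.head?_cons, Option.some.injEq] at h3
      subst h3
      cases t with
      | nil => rfl
      | cons y s =>
        exfalso
        have a1 := h4 y (by simp)
        have a2 := h5 y (by simp)
        simp at a2
        omega
  have h := ENNReal.tsum_comp_le_tsum_of_injective
    (f := fun _ : {l : List (ℤ × ℤ) // IsHs 0 l} => ())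
    (by intro a b _; exact Subtype.ext ((key a).trans (key b).symm)) (fun _ => (1 : ENNReal))
  simp only [tsum_fintype, Finset.univ_unique, Finset.sum_singleton] at h
  refine le_trans (le_of_eq ?_) h
  refine tsum_congr (fun l => ?_)
  rw [key l]; simp

/-- decomposition of a half-space walk reaching its maximal column -/
theorem hs_decomp (k : ℕ) (l : List (ℤ × ℤ)) (h : IsHs (k + 1) l) :
    ∃ (p : List (ℤ × ℤ)) (o : Option (List (ℤ × ℤ))), IsHs k p ∧
      (∀ q, o = some q → IsBr (k + 1) q) ∧
      ((o = none ∧ l = p) ∨ ∃ (a b : List (ℤ × ℤ)) (y : ℤ),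
        o = some (a ++ [((k : ℤ) + 1, y)]) ∧
        p = (((k : ℤ) + 1, y) :: b).map (rf ((k : ℤ) + 1) y) ∧
        l = a ++ ((k : ℤ) + 1, y) :: b) := by
  obtain ⟨h1, h2, h3, h4, h5⟩ := h
  by_cases hx : ∃ v ∈ l, v.1 = (k : ℤ) + 1
  · obtain ⟨a, v, b, e, hv, hb⟩ := exists_last (fun v : ℤ × ℤ => v.1 = (k : ℤ) + 1) l hx
    obtain ⟨v1, y⟩ := v
    simp only at hv
    subst hv
    have ha : a ≠ [] := by
      rintro rfl
      rw [e] at h3
      simp only [List.nil_append, List.head?_cons, Option.some.injEq, Prod.mk.injEq] at h3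
      omega
    obtain ⟨a0, a', rfl⟩ := List.exists_cons_of_ne_nil ha
    have htail : ∀ w ∈ (((k : ℤ) + 1, y) :: b), 1 ≤ w.1 := by
      intro w hw
      apply h4
      rw [e]
      simp only [List.cons_append, List.tail_cons, List.mem_append]
      exact Or.inr hw
    have hle : ∀ w ∈ l, w.1 ≤ (k : ℤ) + 1 := by
      intro w hw
      have := h5 w hw
      push_cast at this
      exact this
    refine ⟨(((k : ℤ) + 1, y) :: b).map (rf ((k : ℤ) + 1) y), some (a0 :: a' ++ [((k : ℤ) + 1, y)]),
      ?_, ?_, Or.inr ⟨a0 :: a', b, y, rfl, rfl, e⟩⟩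
    · refine ⟨?_, ?_, ?_, ?_, ?_⟩
      · refine List.Nodup.map (rf_inj _ _) ?_
        rw [e] at h1
        exact (List.nodup_append.mp h1).2.1
      · refine List.isChain_map_of_isChain _ (nb_rf _ _) ?_
        rw [e] at h2
        exact h2.right_of_append
      · simp [rf]
      · intro w hw
        simp only [List.map_cons, List.tail_cons, List.mem_map] at hw
        obtain ⟨u, hu, rfl⟩ := hw
        have c1 : u ∈ l := by rw [e]; simp [hu]
        have c2 := hle u c1
        have c3 := hb u hu
        simp only [rf]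
        omega
      · intro w hw
        simp only [List.mem_map] at hw
        obtain ⟨u, hu, rfl⟩ := hw
        have := htail u hu
        simp only [rf]
        omega
    · intro q hq
      simp only [Option.some.injEq] at hq
      subst hq
      have hsub : ∀ w ∈ a0 :: a' ++ [((k : ℤ) + 1, y)], w ∈ l := by
        intro w hw
        rw [e]
        simp only [List.cons_append, List.mem_cons, List.mem_append, List.not_mem_nil,
          or_false] at hw ⊢
        tauto
      refine ⟨?_, ?_, ?_, ?_, ?_, ⟨y, ?_⟩⟩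
      · have : a0 :: a' ++ ((k : ℤ) + 1, y) :: b = (a0 :: a' ++ [((k : ℤ) + 1, y)]) ++ b := by simp
        rw [e, this] at h1
        exact (List.nodup_append.mp h1).1
      · rw [e] at h2
        exact (List.isChain_split.mp h2).1
      · rw [e] at h3
        simpa using h3
      · intro w hw
        apply h4
        rw [e]
        simp only [List.cons_append, List.tail_cons, List.mem_append, List.mem_cons,
          List.not_mem_nil, or_false] at hw ⊢
        tauto
      · intro w hw
        have := hle w (hsub w hw)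
        push_cast
        exact this
      · rw [List.getLast?_concat]
        push_cast
        rfl
  · refine ⟨l, none, ⟨h1, h2, h3, h4, ?_⟩, by simp, Or.inl ⟨rfl, rfl⟩⟩
    intro v hv
    have c1 := h5 v hv
    push_cast at c1
    have c2 : v.1 ≠ (k : ℤ) + 1 := fun h => hx ⟨v, hv, h⟩
    omega

/-- Hammersley-Welsh: split at the last visit to the column `k + 1` and reflect the tail. -/
theorem hs_step (z : ENNReal) (k : ℕ) :
    G z (IsHs (k + 1)) ≤ G z (IsHs k) * (1 + G z (IsBr (k + 1))) := by
  classical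
  choose p o hp ho hd using hs_decomp k
  let φ : {l : List (ℤ × ℤ) // IsHs (k + 1) l} →
      {l : List (ℤ × ℤ) // IsHs k l} × Option {l : List (ℤ × ℤ) // IsBr (k + 1) l} :=
    fun l => (⟨p l.1 l.2, hp l.1 l.2⟩,
      match h : o l.1 l.2 with
      | none => none
      | some q => some ⟨q, ho l.1 l.2 q h⟩)
  have hφ2 : ∀ l, (φ l).2.map Subtype.val = o l.1 l.2 := by
    intro l
    simp only [φ]
    split
    · rename_i h; exact h.symm
    · rename_i q h; exact h.symm
  have hφ1 : ∀ l, ((φ l).1 : List (ℤ × ℤ)) = p l.1 l.2 := fun l => rfl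
  have hinj : Function.Injective φ := by
    intro l l' h
    have e1 : p l.1 l.2 = p l'.1 l'.2 := by rw [← hφ1, ← hφ1, h]
    have e2 : o l.1 l.2 = o l'.1 l'.2 := by rw [← hφ2, ← hφ2, h]
    apply Subtype.ext
    rcases hd l.1 l.2 with ⟨n1, n2⟩ | ⟨a, b, y, n1, n2, n3⟩
    · rcases hd l'.1 l'.2 with ⟨m1, m2⟩ | ⟨a', b', y', m1, m2, m3⟩
      · rw [n2, m2, e1]
      · rw [e2, m1] at n1
        simp at n1
    · rcases hd l'.1 l'.2 with ⟨m1, m2⟩ | ⟨a', b', y', m1, m2, m3⟩
      · rw [e2, m1] at n1
        simp at n1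
      · rw [n1, m1, Option.some.injEq] at e2
        have e3 := List.append_inj' e2 rfl
        have e4 : y = y' := by
          have := e3.2
          simp only [List.cons.injEq, Prod.mk.injEq, true_and, and_true] at this
          exact this
        subst e4
        rw [n2, m2] at e1
        have e5 := (List.map_injective_iff.mpr (rf_inj _ _)) e1
        rw [n3, m3, e3.1, e5]
  let w : {l : List (ℤ × ℤ) // IsHs k l} × Option {l : List (ℤ × ℤ) // IsBr (k + 1) l} → ENNReal :=
    fun x => z ^ (x.1.1.length - 1) * (x.2.elim 1 (fun q => z ^ (q.1.length - 1)))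
  have hw : ∀ l : {l : List (ℤ × ℤ) // IsHs (k + 1) l}, z ^ (l.1.length - 1) = w (φ l) := by
    intro l
    simp only [w]
    rcases hd l.1 l.2 with ⟨n1, n2⟩ | ⟨a, b, y, n1, n2, n3⟩
    · have h2 := hφ2 l
      rw [n1] at h2
      have h3 : (φ l).2 = none := by simpa using h2
      rw [h3, hφ1, ← n2]
      simp
    · have h2 := hφ2 l
      rw [n1] at h2
      obtain ⟨q, hq, hq2⟩ := Option.map_eq_some_iff.mp h2
      rw [hq, hφ1]
      simp only [Option.elim_some]
      rw [hq2, ← pow_add, n2]
      congr 1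
      rw [n3]
      simp only [List.length_append, List.length_cons, List.length_map, List.length_nil]
      omega
  unfold G
  calc ∑' l : {l : List (ℤ × ℤ) // IsHs (k + 1) l}, z ^ (l.1.length - 1)
      = ∑' l : {l : List (ℤ × ℤ) // IsHs (k + 1) l}, w (φ l) := tsum_congr hw
    _ ≤ ∑' x, w x := ENNReal.tsum_comp_le_tsum_of_injective hinj w
    _ = ∑' x : {l : List (ℤ × ℤ) // IsHs k l}, ∑' y, w (x, y) := ENNReal.tsum_prod'
    _ ≤ ∑' x : {l : List (ℤ × ℤ) // IsHs k l}, z ^ (x.1.length - 1) *
          (1 + ∑' q : {l : List (ℤ × ℤ) // IsBr (k + 1) l}, z ^ (q.1.length - 1)) := by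
        refine ENNReal.tsum_le_tsum (fun x => ?_)
        simp only [w]
        rw [ENNReal.tsum_mul_left]
        refine mul_le_mul_right ?_ _
        exact tsum_option_le _
    _ = _ := by rw [ENNReal.tsum_mul_right]

theorem exists_min (l : List (ℤ × ℤ)) (hl : l ≠ []) : ∃ m : ℤ, (∀ w ∈ l, m ≤ w.1) ∧
    ∃ w ∈ l, w.1 = m := by
  induction l with
  | nil => exact absurd rfl hl
  | cons x t ih =>
    by_cases ht : t = []
    · subst ht
      exact ⟨x.1, by simp, x, by simp, rfl⟩
    · obtain ⟨m, hm, w, hw, hwm⟩ := ih ht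
      rcases le_total x.1 m with h | h
      · refine ⟨x.1, ?_, x, by simp, rfl⟩
        intro u hu
        rcases List.mem_cons.mp hu with rfl | hu
        · exact le_rfl
        · exact h.trans (hm u hu)
      · refine ⟨m, ?_, w, by simp [hw], hwm⟩
        intro u hu
        rcases List.mem_cons.mp hu with rfl | hu
        · exact h
        · exact hm u hu

theorem dist_le (l : List (ℤ × ℤ)) (hl : l.IsChain Nb) (u v : ℤ × ℤ) (hu : u ∈ l) (hv : v ∈ l) :
    v.1 - u.1 ≤ (l.length : ℤ) - 1 := by
  obtain ⟨i, hi, rfl⟩ := List.mem_iff_getElem.mp hu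
  obtain ⟨j, hj, rfl⟩ := List.mem_iff_getElem.mp hv
  rcases le_total i j with h | h
  · have := chain_dist l hl i j h hj
    have h1 := le_abs_self ((l[j]).1 - (l[i]).1)
    have h2 := abs_nonneg ((l[j]).2 - (l[i]).2)
    omega
  · have := chain_dist l hl j i h hi
    have h1 := neg_abs_le ((l[i]).1 - (l[j]).1)
    have h2 := abs_nonneg ((l[i]).2 - (l[j]).2)
    omega

/-- decomposition of a walk at its last leftmost vertex -/
theorem walk_decomp (N : ℕ) (l : List (ℤ × ℤ)) (hlen : l.length ≤ N + 1) (h3 : l.head? = some (0, 0))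
    (h1 : l.Nodup) (h2 : l.IsChain Nb) :
    ∃ (a b : List (ℤ × ℤ)) (v : ℤ × ℤ), l = a ++ v :: b ∧
      IsHs (N + 1) ((v :: b).map (sh (-v.1, -v.2))) ∧
      IsHs (N + 1) ((0, 0) :: ((a ++ [v]).map (sh (1 - v.1, -v.2))).reverse) := by
  have hne : l ≠ [] := by rintro rfl; simp at h3
  obtain ⟨m, hm, hw⟩ := exists_min l hne
  obtain ⟨a, v, b, e, hv, hb⟩ := exists_last (fun w : ℤ × ℤ => w.1 = m) l hw
  have hv : v.1 = m := hv
  have hb : ∀ w ∈ b, ¬ w.1 = m := hb
  have hvl : v ∈ l := by rw [e]; simp
  have hd : ∀ w ∈ l, w.1 - v.1 ≤ (N : ℤ) := by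
    intro w hw
    have := dist_le l h2 v w hvl hw
    omega
  refine ⟨a, b, v, e, ⟨?_, ?_, ?_, ?_, ?_⟩, ⟨?_, ?_, ?_, ?_, ?_⟩⟩
  · refine List.Nodup.map (sh_inj _) ?_
    rw [e] at h1
    exact (List.nodup_append.mp h1).2.1
  · refine List.isChain_map_of_isChain _ (nb_sh _) ?_
    rw [e] at h2
    exact h2.right_of_append
  · simp [sh]
  · intro w hw
    simp only [List.map_cons, List.tail_cons, List.mem_map] at hw
    obtain ⟨u, hu, rfl⟩ := hw
    have c1 : u ∈ l := by rw [e]; simp [hu]
    have c2 := hm u c1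
    have c3 := hb u hu
    simp only [sh]
    omega
  · intro w hw
    simp only [List.mem_map] at hw
    obtain ⟨u, hu, rfl⟩ := hw
    have c1 : u ∈ l := by rw [e]; exact List.mem_append_right _ hu
    have c2 := hd u c1
    simp only [sh]
    push_cast
    omega
  · have hsub : ∀ w ∈ a ++ [v], w ∈ l := by
      intro w hw
      rw [e]
      simp only [List.mem_append, List.mem_cons, List.not_mem_nil, or_false] at hw ⊢
      tauto
    refine List.nodup_cons.mpr ⟨?_, ?_⟩
    · intro h0
      rw [List.mem_reverse, List.mem_map] at h0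
      obtain ⟨u, hu, hu2⟩ := h0
      have c1 := hm u (hsub u hu)
      have c2 := congrArg Prod.fst hu2
      simp only [sh] at c2
      omega
    · rw [List.nodup_reverse]
      refine List.Nodup.map (sh_inj _) ?_
      have : a ++ v :: b = (a ++ [v]) ++ b := by simp
      rw [e, this] at h1
      exact (List.nodup_append.mp h1).1
  · refine List.isChain_cons.mpr ⟨?_, ?_⟩
    · intro y hy
      simp only [List.map_append, List.map_cons, List.map_nil, List.reverse_append,
        List.reverse_cons, List.reverse_nil, List.nil_append, List.cons_append, List.head?_cons,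
        Option.mem_some_iff] at hy
      subst hy
      simp [Nb, sh]
    · rw [List.isChain_reverse]
      have : (a ++ [v]).IsChain Nb := by
        rw [e] at h2
        exact (List.isChain_split.mp h2).1
      refine List.isChain_map_of_isChain _ ?_ this
      intro x y hxy
      exact nb_symm _ _ (nb_sh _ _ _ hxy)
  · simp
  · intro w hw
    rw [List.tail_cons, List.mem_reverse, List.mem_map] at hw
    obtain ⟨u, hu, rfl⟩ := hw
    have c0 : u ∈ l := by
      rw [e]
      simp only [List.mem_append, List.mem_cons, List.not_mem_nil, or_false] at hu ⊢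
      tauto
    have c1 := hm u c0
    simp only [sh]
    omega
  · intro w hw
    rw [List.mem_cons, List.mem_reverse, List.mem_map] at hw
    rcases hw with rfl | ⟨u, hu, rfl⟩
    · simp only
      positivity
    · have c0 : u ∈ l := by
        rw [e]
        simp only [List.mem_append, List.mem_cons, List.not_mem_nil, or_false] at hu ⊢
        tauto
      have c1 := hd u c0
      simp only [sh]
      push_cast
      omega

/-- Split an arbitrary walk at its last leftmost vertex. -/
theorem walks_le (z : ENNReal) (N : ℕ) :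
    z * ∑ n ∈ Finset.range (N + 1), ((walks n).card : ENNReal) * z ^ n ≤
      (G z (IsHs (N + 1))) ^ 2 := by
  classical
  choose a b v he h1 h2 using walk_decomp N
  let S := (Finset.range (N + 1)).sigma walks
  have hS : ∀ x : {x // x ∈ S}, x.1.2.length ≤ N + 1 ∧ x.1.2.length = x.1.1 + 1 ∧
      x.1.2.head? = some (0, 0) ∧ x.1.2.Nodup ∧ x.1.2.IsChain Nb := by
    rintro ⟨⟨n, l⟩, hx⟩
    rw [Finset.mem_sigma] at hx
    obtain ⟨hn, hl⟩ := hx
    simp only [Finset.mem_range] at hn
    obtain ⟨q1, q2, q3, q4⟩ := (mem_walks n l).mp hl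
    simp only
    exact ⟨by omega, q1, q2, q3, q4⟩
  have key : z * ∑ n ∈ Finset.range (N + 1), ((walks n).card : ENNReal) * z ^ n =
      ∑' x : {x // x ∈ S}, z ^ x.1.2.length := by
    rw [tsum_fintype, Finset.univ_eq_attach, Finset.sum_attach S (fun x => z ^ x.2.length),
      Finset.sum_sigma, Finset.mul_sum]
    refine Finset.sum_congr rfl (fun n _ => ?_)
    have : ∀ l ∈ walks n, z ^ l.length = z * z ^ n := by
      intro l hl
      rw [((mem_walks n l).mp hl).1, pow_succ, mul_comm]
    rw [Finset.sum_congr rfl this, Finset.sum_const, nsmul_eq_mul]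
    ring
  rw [key]
  let P := {l : List (ℤ × ℤ) // IsHs (N + 1) l}
  let φ : {x // x ∈ S} → P × P := fun x =>
    (⟨_, h1 x.1.2 (hS x).1 (hS x).2.2.1 (hS x).2.2.2.1 (hS x).2.2.2.2⟩,
     ⟨_, h2 x.1.2 (hS x).1 (hS x).2.2.1 (hS x).2.2.2.1 (hS x).2.2.2.2⟩)
  let w : P × P → ENNReal := fun x => z ^ (x.1.1.length - 1) * z ^ (x.2.1.length - 1)
  have hinj : Function.Injective φ := by
    intro x x' h
    have e1 := congrArg Subtype.val (congrArg Prod.fst h)
    have e2 := congrArg Subtype.val (congrArg Prod.snd h)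
    simp only [φ] at e1 e2
    have p1 := he x.1.2 (hS x).1 (hS x).2.2.1 (hS x).2.2.2.1 (hS x).2.2.2.2
    have p2 := he x'.1.2 (hS x').1 (hS x').2.2.1 (hS x').2.2.2.1 (hS x').2.2.2.2
    have q1 := (hS x).2.2.1
    have q2 := (hS x').2.2.1
    generalize a x.1.2 (hS x).1 (hS x).2.2.1 (hS x).2.2.2.1 (hS x).2.2.2.2 = A at e1 e2 p1
    generalize b x.1.2 (hS x).1 (hS x).2.2.1 (hS x).2.2.2.1 (hS x).2.2.2.2 = B at e1 e2 p1
    generalize v x.1.2 (hS x).1 (hS x).2.2.1 (hS x).2.2.2.1 (hS x).2.2.2.2 = V at e1 e2 p1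
    generalize a x'.1.2 (hS x').1 (hS x').2.2.1 (hS x').2.2.2.1 (hS x').2.2.2.2 = A' at e1 e2 p2
    generalize b x'.1.2 (hS x').1 (hS x').2.2.1 (hS x').2.2.2.1 (hS x').2.2.2.2 = B' at e1 e2 p2
    generalize v x'.1.2 (hS x').1 (hS x').2.2.1 (hS x').2.2.2.1 (hS x').2.2.2.2 = V' at e1 e2 p2
    have e3 : (A ++ [V]).map (sh (1 - V.1, -V.2)) = (A' ++ [V']).map (sh (1 - V'.1, -V'.2)) := by
      have := (List.cons.inj e2).2
      exact List.reverse_injective this
    have hV : V = V' := by
      have r1 : (A ++ [V]).head? = some (0, 0) := by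
        rw [p1] at q1
        cases A <;> simpa using q1
      have r2 : (A' ++ [V']).head? = some (0, 0) := by
        rw [p2] at q2
        cases A' <;> simpa using q2
      have r3 := congrArg List.head? e3
      rw [List.head?_map, List.head?_map, r1, r2] at r3
      simp only [Option.map_some, Option.some.injEq, sh, Prod.mk.injEq] at r3
      exact Prod.ext (by omega) (by omega)
    subst hV
    have e4 := (List.map_injective_iff.mpr (sh_inj _)) e3
    have e5 := (List.map_injective_iff.mpr (sh_inj _)) e1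
    have hl : x.1.2 = x'.1.2 := by
      rw [p1, p2, (List.append_inj' e4 rfl).1, e5]
    have hn : x.1.1 = x'.1.1 := by
      have l1 := (hS x).2.1
      have l2 := (hS x').2.1
      rw [hl] at l1
      omega
    apply Subtype.ext
    obtain ⟨⟨n, l⟩, hx⟩ := x
    obtain ⟨⟨n', l'⟩, hx'⟩ := x'
    simp only at hl hn
    subst hl hn
    rfl
  have hw : ∀ x : {x // x ∈ S}, z ^ x.1.2.length = w (φ x) := by
    intro x
    simp only [w, φ]
    have p1 := he x.1.2 (hS x).1 (hS x).2.2.1 (hS x).2.2.2.1 (hS x).2.2.2.2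
    rw [← pow_add]
    congr 1
    conv_lhs => rw [p1]
    simp only [List.length_append, List.length_cons, List.length_map, List.length_nil,
      List.length_reverse]
    omega
  calc ∑' x : {x // x ∈ S}, z ^ x.1.2.length
      = ∑' x : {x // x ∈ S}, w (φ x) := tsum_congr hw
    _ ≤ ∑' x, w x := ENNReal.tsum_comp_le_tsum_of_injective hinj w
    _ = ∑' x : P, ∑' y : P, w (x, y) := ENNReal.tsum_prod'
    _ = ∑' x : P, z ^ (x.1.length - 1) * ∑' y : P, z ^ (y.1.length - 1) := by
        refine tsum_congr (fun x => ?_)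
        simp only [w]
        rw [ENNReal.tsum_mul_left]
    _ = (G z (IsHs (N + 1))) ^ 2 := by
        rw [ENNReal.tsum_mul_right, sq]
        rfl

/-- glue two bridges -/
def glue (p q : List (ℤ × ℤ)) : List (ℤ × ℤ) :=
  p ++ (q.tail).map (sh (p.getLastD (0, 0)))

theorem glue_br (k l : ℕ) (p q : List (ℤ × ℤ)) (hp : IsBr k p) (hq : IsBr l q) :
    IsBr (k + l) (glue p q) := by
  obtain ⟨p1, p2, p3, p4, p5, y, p6⟩ := hp
  obtain ⟨q1, q2, q3, q4, q5, y', q6⟩ := hq
  have hlast : p.getLastD (0, 0) = ((k : ℤ), y) := by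
    rw [List.getLastD_eq_getLast?, p6]; rfl
  unfold glue
  rw [hlast]
  have hpne : p ≠ [] := by rintro rfl; simp at p3
  obtain ⟨x0, q', rfl⟩ : ∃ x0 q', q = x0 :: q' := by
    cases q with
    | nil => simp at q3
    | cons x t => exact ⟨x, t, rfl⟩
  simp only [List.head?_cons, Option.some.injEq] at q3
  subst q3
  simp only [List.tail_cons] at q4 ⊢
  have hx : ∀ w ∈ q'.map (sh ((k : ℤ), y)), (k : ℤ) + 1 ≤ w.1 := by
    intro w hw
    obtain ⟨u, hu, rfl⟩ := List.mem_map.mp hw
    have := q4 u hu
    simp only [sh]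
    omega
  refine ⟨?_, ?_, ?_, ?_, ?_, ⟨y + y', ?_⟩⟩
  · rw [List.nodup_append]
    refine ⟨p1, List.Nodup.map (sh_inj _) (List.nodup_cons.mp q1).2, ?_⟩
    intro u hu w hw huw
    subst huw
    have c1 := p5 u hu
    have c2 := hx u hw
    omega
  · refine List.IsChain.append p2 (List.isChain_map_of_isChain _ (nb_sh _) q2.tail) ?_
    intro x hx y1 hy
    rw [p6, Option.mem_some_iff] at hx
    subst hx
    rw [List.head?_map] at hy
    obtain ⟨u, hu, rfl⟩ := Option.map_eq_some_iff.mp hy
    have := (List.isChain_cons.mp q2).1 u hu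
    have h2 := nb_sh ((k : ℤ), y) _ _ this
    have h3 : sh ((k : ℤ), y) (0, 0) = ((k : ℤ), y) := by simp [sh]
    rw [h3] at h2
    exact h2
  · obtain ⟨p0, p', rfl⟩ := List.exists_cons_of_ne_nil hpne
    simpa using p3
  · obtain ⟨p0, p', rfl⟩ := List.exists_cons_of_ne_nil hpne
    intro w hw
    simp only [List.cons_append, List.tail_cons, List.mem_append] at hw
    rcases hw with hw | hw
    · exact p4 w hw
    · have := hx w hw
      omega
  · intro w hw
    rw [List.mem_append] at hw
    push_cast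
    rcases hw with hw | hw
    · have := p5 w hw
      omega
    · obtain ⟨u, hu, rfl⟩ := List.mem_map.mp hw
      have := q5 u (List.mem_cons_of_mem _ hu)
      simp only [sh]
      omega
  · by_cases hq' : q' = []
    · subst hq'
      simp only [List.getLast?_singleton, Option.some.injEq, Prod.mk.injEq] at q6
      simp only [List.map_nil, List.append_nil]
      rw [p6]
      simp only [Option.some.injEq, Prod.mk.injEq]
      push_cast
      omega
    · have h7 : q'.getLast? = some ((l : ℤ), y') := by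
        obtain ⟨u, t, rfl⟩ := List.exists_cons_of_ne_nil hq'
        rw [List.getLast?_cons_cons] at q6
        exact q6
      have h8 : (q'.map (sh ((k : ℤ), y))).getLast? = some ((l : ℤ) + k, y' + y) := by
        rw [List.getLast?_map, h7]; rfl
      rw [List.getLast?_append, h8]
      simp only [Option.some_or, Option.some.injEq, Prod.mk.injEq]
      push_cast
      constructor <;> ring

theorem glue_inj (k l : ℕ) (p q p' q' : List (ℤ × ℤ)) (hp : IsBr k p) (hq : IsBr l q)
    (hp' : IsBr k p') (hq' : IsBr l q') (h : glue p q = glue p' q') : p = p' ∧ q = q' := by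
  have filt : ∀ p q : List (ℤ × ℤ), IsBr k p → IsBr l q →
      (glue p q).filter (fun w => decide (w.1 ≤ (k : ℤ))) = p := by
    intro p q hp hq
    obtain ⟨p1, p2, p3, p4, p5, y, p6⟩ := hp
    obtain ⟨q1, q2, q3, q4, q5, y', q6⟩ := hq
    have hlast : p.getLastD (0, 0) = ((k : ℤ), y) := by
      rw [List.getLastD_eq_getLast?, p6]; rfl
    unfold glue
    rw [hlast, List.filter_append]
    have f1 : p.filter (fun w => decide (w.1 ≤ (k : ℤ))) = p := by
      rw [List.filter_eq_self]
      intro w hw
      simpa using p5 w hw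
    have f2 : (q.tail.map (sh ((k : ℤ), y))).filter (fun w => decide (w.1 ≤ (k : ℤ))) = [] := by
      rw [List.filter_eq_nil_iff]
      intro w hw
      obtain ⟨u, hu, rfl⟩ := List.mem_map.mp hw
      have := q4 u hu
      rw [decide_eq_true_eq]
      show ¬ (u.1 + (k : ℤ) ≤ (k : ℤ))
      omega
    rw [f1, f2, List.append_nil]
  have hpp : p = p' := by rw [← filt p q hp hq, ← filt p' q' hp' hq', h]
  subst hpp
  refine ⟨rfl, ?_⟩
  unfold glue at h
  have h2 := List.append_cancel_left h
  have h3 := (List.map_injective_iff.mpr (sh_inj _)) h2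
  have g1 := hq.2.2.1
  have g2 := hq'.2.2.1
  cases q with
  | nil => simp at g1
  | cons x t =>
    cases q' with
    | nil => simp at g2
    | cons x' t' =>
      simp only [List.head?_cons, Option.some.injEq] at g1 g2
      simp only [List.tail_cons] at h3
      rw [g1, g2, h3]

/-- concatenation of bridges -/
theorem br_mul (z : ENNReal) (k l : ℕ) :
    G z (IsBr k) * G z (IsBr l) ≤ G z (IsBr (k + l)) := by
  let φ : {p : List (ℤ × ℤ) // IsBr k p} × {q : List (ℤ × ℤ) // IsBr l q} →
      {r : List (ℤ × ℤ) // IsBr (k + l) r} :=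
    fun x => ⟨glue x.1.1 x.2.1, glue_br k l _ _ x.1.2 x.2.2⟩
  have hinj : Function.Injective φ := by
    intro x x' h
    have h1 := congrArg Subtype.val h
    obtain ⟨e1, e2⟩ := glue_inj k l _ _ _ _ x.1.2 x.2.2 x'.1.2 x'.2.2 h1
    exact Prod.ext (Subtype.ext e1) (Subtype.ext e2)
  have hlen : ∀ x : {p : List (ℤ × ℤ) // IsBr k p} × {q : List (ℤ × ℤ) // IsBr l q},
      z ^ (x.1.1.length - 1) * z ^ (x.2.1.length - 1) = z ^ ((φ x).1.length - 1) := by
    intro x
    rw [← pow_add]
    congr 1
    have h1 : x.1.1 ≠ [] := by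
      intro h
      have := x.1.2.2.2.1
      rw [h] at this
      simp at this
    have h2 : x.2.1 ≠ [] := by
      intro h
      have := x.2.2.2.2.1
      rw [h] at this
      simp at this
    have h3 := List.length_pos_iff.mpr h1
    have h4 := List.length_pos_iff.mpr h2
    simp only [φ, glue, List.length_append, List.length_map, List.length_tail]
    omega
  calc G z (IsBr k) * G z (IsBr l)
      = ∑' x : {p : List (ℤ × ℤ) // IsBr k p} × {q : List (ℤ × ℤ) // IsBr l q},
          z ^ (x.1.1.length - 1) * z ^ (x.2.1.length - 1) := by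
        rw [ENNReal.tsum_prod']
        unfold G
        rw [← ENNReal.tsum_mul_right]
        refine tsum_congr (fun x => ?_)
        simp only
        rw [ENNReal.tsum_mul_left]
    _ = ∑' x, z ^ ((φ x).1.length - 1) := tsum_congr hlen
    _ ≤ ∑' r : {r : List (ℤ × ℤ) // IsBr (k + l) r}, z ^ (r.1.length - 1) :=
        ENNReal.tsum_comp_le_tsum_of_injective hinj (fun r => z ^ (r.1.length - 1))
    _ = G z (IsBr (k + l)) := rfl

end Pool.Agent.Ads772.J2a
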