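import Mathlib
import Pool.Agent.Ads772.Defs
import Pool.Agent.Ads772.J1
import Pool.Agent.Ads772.J2a
set_option autoImplicit false
namespace Pool.Agent.Ads772.J2b

open Pool.Agent.Ads772.J1 (mem_brs mem_walks)
open Pool.Agent.Ads772.J2a (br_mul hs_step hs_zero walks_le)

open Filter Topology

/-! Given results (proved elsewhere, use as black boxes). -/

/-! Target. -/

open Classical in
lemma brs_nonempty {L M : ℕ} {l : List (ℤ × ℤ)} (h : l ∈ brs L M) : 1 ≤ l.length := by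
  rw [mem_brs] at h
  have h1 := h.1.2.2.1
  cases l with
  | nil => simp at h1
  | cons a t => simp

lemma hs_prod (z : ENNReal) (K : ℕ) :
    G z (IsHs K) ≤ ∏ k ∈ Finset.range K, (1 + G z (IsBr (k + 1))) := by
  induction K with
  | zero => simpa using hs_zero z
  | succ K ih =>
    rw [Finset.prod_range_succ]
    exact (hs_step z K).trans (mul_le_mul_left ih _)

lemma prod_le_exp (b : ℕ → ENNReal) (hS : ∑' k, b k ≠ ⊤) (K : ℕ) :
    ∏ k ∈ Finset.range K, (1 + b k) ≤ ENNReal.ofReal (Real.exp (∑' k, b k).toReal) := by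
  have hfin : ∀ k, b k ≠ ⊤ := fun k => ENNReal.ne_top_of_tsum_ne_top hS k
  have h1 : ∀ k, 1 + b k = ENNReal.ofReal (1 + (b k).toReal) := by
    intro k
    rw [ENNReal.ofReal_add zero_le_one ENNReal.toReal_nonneg, ENNReal.ofReal_one,
      ENNReal.ofReal_toReal (hfin k)]
  simp only [h1]
  rw [← ENNReal.ofReal_prod_of_nonneg (fun k _ => by positivity)]
  apply ENNReal.ofReal_le_ofReal
  calc ∏ k ∈ Finset.range K, (1 + (b k).toReal)
      ≤ ∏ k ∈ Finset.range K, Real.exp ((b k).toReal) :=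
        Finset.prod_le_prod (fun k _ => by positivity) (fun k _ => by
          rw [add_comm]; exact Real.add_one_le_exp _)
    _ = Real.exp (∑ k ∈ Finset.range K, (b k).toReal) := (Real.exp_sum _ _).symm
    _ ≤ _ := by
        apply Real.exp_le_exp.mpr
        rw [← ENNReal.toReal_sum (fun k _ => hfin k)]
        exact ENNReal.toReal_mono hS (ENNReal.sum_le_tsum _)

lemma bridges_sum_top (k2 : ℝ) (h : ∀ n : ℕ, Real.exp (k2 * n) ≤ cnt n) :
    ∑' k, G (ENNReal.ofReal (Real.exp (-k2))) (IsBr (k + 1)) = ⊤ := by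
  by_contra hS
  set z := ENNReal.ofReal (Real.exp (-k2)) with hz
  have hzpow : ∀ n : ℕ, z ^ n = ENNReal.ofReal (Real.exp (-(k2 * n))) := by
    intro n
    rw [hz, ← ENNReal.ofReal_pow (Real.exp_pos _).le, ← Real.exp_nat_mul]
    congr 2
    ring
  have h1 : ∀ n : ℕ, 1 ≤ ((walks n).card : ENNReal) * z ^ n := by
    intro n
    have e1 : ((walks n).card : ENNReal) = ENNReal.ofReal (cnt n) := by
      unfold cnt
      rw [ENNReal.ofReal_natCast]
    rw [e1, hzpow, ← ENNReal.ofReal_mul (by unfold cnt; positivity)]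
    rw [← ENNReal.ofReal_one]
    apply ENNReal.ofReal_le_ofReal
    calc (1 : ℝ) = Real.exp (k2 * n) * Real.exp (-(k2 * n)) := by
          rw [← Real.exp_add]; simp
      _ ≤ _ := by
          apply mul_le_mul_of_nonneg_right (h n) (Real.exp_pos _).le
  set S := ∑' k, G z (IsBr (k + 1)) with hSdef
  set E := ENNReal.ofReal (Real.exp S.toReal) with hE
  have h2 : ∀ N : ℕ, z * (N + 1) ≤ E ^ 2 := by
    intro N
    calc z * (N + 1) ≤ z * ∑ n ∈ Finset.range (N + 1), ((walks n).card : ENNReal) * z ^ n := by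
          gcongr
          calc ((N : ENNReal) + 1) = ∑ n ∈ Finset.range (N + 1), (1 : ENNReal) := by simp
            _ ≤ _ := Finset.sum_le_sum fun n _ => h1 n
      _ ≤ (G z (IsHs (N + 1))) ^ 2 := walks_le z N
      _ ≤ E ^ 2 := by
          gcongr
          exact (hs_prod z (N + 1)).trans (prod_le_exp _ hS _)
  have hz0 : 0 < Real.exp (-k2) := Real.exp_pos _
  obtain ⟨N, hN⟩ := exists_nat_gt ((Real.exp S.toReal) ^ 2 / Real.exp (-k2))
  have h3 := h2 N
  have e2 : z * (N + 1) = ENNReal.ofReal (Real.exp (-k2) * (N + 1)) := by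
    rw [hz, ENNReal.ofReal_mul hz0.le]
    congr 1
    rw [ENNReal.ofReal_add (Nat.cast_nonneg N) zero_le_one, ENNReal.ofReal_natCast,
      ENNReal.ofReal_one]
  rw [e2, hE, ← ENNReal.ofReal_pow (Real.exp_pos _).le,
    ENNReal.ofReal_le_ofReal_iff (by positivity)] at h3
  rw [div_lt_iff₀ hz0] at hN
  nlinarith

lemma br_pow (z : ENNReal) (k : ℕ) (j : ℕ) :
    (G z (IsBr k)) ^ (j + 1) ≤ G z (IsBr ((j + 1) * k)) := by
  induction j with
  | zero => simp
  | succ j ih =>
    rw [pow_succ, show (j + 1 + 1) * k = (j + 1) * k + k by ring]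
    exact (mul_le_mul_left ih _).trans (br_mul z _ _)

lemma exists_large (k2 : ℝ) (h : ∀ n : ℕ, Real.exp (k2 * n) ≤ cnt n)
    (a : ℝ) (ha : 0 < a) (L₁ : ℕ) (hL₁ : 1 ≤ L₁) :
    ∃ L : ℕ, L₁ ≤ L ∧ ENNReal.ofReal (Real.exp (-a * L)) ≤
      G (ENNReal.ofReal (Real.exp (-k2))) (IsBr L) := by
  by_contra hcon
  push Not at hcon
  set z := ENNReal.ofReal (Real.exp (-k2)) with hz
  have htop := bridges_sum_top k2 h
  rw [← hz] at htop
  -- all `B_k` are finite
  have hfin : ∀ k : ℕ, G z (IsBr (k + 1)) ≠ ⊤ := by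
    intro k hk
    have h1 := br_pow z (k + 1) L₁
    rw [hk, ENNReal.top_pow (Nat.succ_ne_zero _)] at h1
    have h2 := hcon ((L₁ + 1) * (k + 1)) (by nlinarith)
    have h3 : G z (IsBr ((L₁ + 1) * (k + 1))) < ⊤ := h2.trans_le le_top
    exact absurd h1 (not_le.mpr h3)
  have hle : ∀ k : ℕ, G z (IsBr (k + 1)) ≤ ENNReal.ofReal (Real.exp (-a) ^ (k + 1)) +
      (if k ∈ Finset.range L₁ then G z (IsBr (k + 1)) else 0) := by
    intro k
    by_cases hk : k ∈ Finset.range L₁
    · rw [if_pos hk]; exact le_add_self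
    · rw [if_neg hk, add_zero]
      have hk' : L₁ ≤ k + 1 := by
        have := Finset.mem_range.not.mp hk
        omega
      refine (hcon (k + 1) hk').le.trans ?_
      apply ENNReal.ofReal_le_ofReal
      rw [← Real.exp_nat_mul]
      apply le_of_eq
      congr 1
      ring
  have hgeo : Summable fun k : ℕ => Real.exp (-a) ^ (k + 1) := by
    have h1 : Real.exp (-a) < 1 := by
      rw [Real.exp_lt_one_iff]; linarith
    exact (summable_nat_add_iff 1).mpr (summable_geometric_of_lt_one (Real.exp_pos _).le h1)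
  have h1 : ∑' k : ℕ, ENNReal.ofReal (Real.exp (-a) ^ (k + 1)) ≠ ⊤ := by
    rw [← ENNReal.ofReal_tsum_of_nonneg (fun k => by positivity) hgeo]
    exact ENNReal.ofReal_ne_top
  have h2 : ∑' k : ℕ, (if k ∈ Finset.range L₁ then G z (IsBr (k + 1)) else 0) ≠ ⊤ := by
    rw [tsum_eq_sum (s := Finset.range L₁) (fun k hk => if_neg hk)]
    rw [ENNReal.sum_ne_top]
    intro k hk
    rw [if_pos hk]
    exact hfin k
  have h3 := ENNReal.tsum_le_tsum hle
  rw [htop, ENNReal.tsum_add, top_le_iff, ENNReal.add_eq_top] at h3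
  rcases h3 with h3 | h3
  · exact h1 h3
  · exact h2 h3

/-- Critical bridges have zero mass: there are bridges of arbitrarily large span `L` with total
critical weight at least `exp (-δ L)`. -/
theorem cheap_bridges (k2 : ℝ) (hk : 0 ≤ k2) (h : ∀ n : ℕ, Real.exp (k2 * n) ≤ cnt n)
    (δ : ℝ) (hδ : 0 < δ) (L₀ : ℕ) :
    ∃ L M : ℕ, L₀ ≤ L ∧ 1 ≤ L ∧
      Real.exp (-δ * L) ≤ ∑ l ∈ brs L M, Real.exp (-k2 * ((l.length : ℝ) - 1)) := by
  classical
  obtain ⟨L, hL, hB⟩ := exists_large k2 h (δ / 2) (half_pos hδ) (max L₀ 1) (le_max_right _ _)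
  have hL0 : L₀ ≤ L := (le_max_left _ _).trans hL
  have hL1 : 1 ≤ L := (le_max_right _ _).trans hL
  set z := ENNReal.ofReal (Real.exp (-k2)) with hz
  have hLR : (1 : ℝ) ≤ L := by exact_mod_cast hL1
  have hlt : ENNReal.ofReal (Real.exp (-δ * L)) < G z (IsBr L) := by
    refine lt_of_lt_of_le ?_ hB
    rw [ENNReal.ofReal_lt_ofReal_iff (Real.exp_pos _)]
    apply Real.exp_lt_exp.mpr
    nlinarith
  unfold G at hlt
  rw [ENNReal.tsum_eq_iSup_sum, lt_iSup_iff] at hlt
  obtain ⟨F, hF⟩ := hlt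
  obtain ⟨M, hM⟩ : ∃ M : ℕ, ∀ l ∈ F, l.1.length ≤ M + 1 := by
    refine ⟨F.sup fun l => l.1.length, fun l hl => ?_⟩
    exact (Finset.le_sup (f := fun l : {l : List (ℤ × ℤ) // IsBr L l} => l.1.length) hl).trans
      (Nat.le_succ _)
  refine ⟨L, M, hL0, hL1, ?_⟩
  have h1 : ∑ l ∈ F, z ^ (l.1.length - 1) ≤ ∑ l ∈ brs L M, z ^ (l.length - 1) := by
    rw [← Finset.sum_image (s := F) (g := fun l : {l : List (ℤ × ℤ) // IsBr L l} => l.1)
      (f := fun l : List (ℤ × ℤ) => z ^ (l.length - 1)) (fun a _ b _ hab => Subtype.ext hab)]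
    apply Finset.sum_le_sum_of_subset
    intro l hl
    obtain ⟨l', hl', rfl⟩ := Finset.mem_image.mp hl
    rw [mem_brs]
    exact ⟨l'.2, hM l' hl'⟩
  have h2 : ∀ l ∈ brs L M, z ^ (l.length - 1) =
      ENNReal.ofReal (Real.exp (-k2 * ((l.length : ℝ) - 1))) := by
    intro l hl
    have hlen := brs_nonempty hl
    rw [hz, ← ENNReal.ofReal_pow (Real.exp_pos _).le, ← Real.exp_nat_mul]
    congr 2
    push_cast [Nat.cast_sub hlen]
    ring
  rw [Finset.sum_congr rfl h2, ← ENNReal.ofReal_sum_of_nonneg (fun l _ => (Real.exp_pos _).le)] at h1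
  have h3 := (hF.trans_le h1).le
  rwa [ENNReal.ofReal_le_ofReal_iff (Finset.sum_nonneg fun l _ => (Real.exp_pos _).le)] at h3

end Pool.Agent.Ads772.J2b
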