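import Mathlib
import Pool.Agent.Ads772.Defs
import Pool.Agent.Ads772.J1
set_option autoImplicit false
namespace Pool.Agent.Ads772.J3

open Pool.Agent.Ads772.J1 (chain_dist mem_brs mem_walks)

open Filter Topology

/-! Given results (proved elsewhere, use as black boxes). -/

/-! Helper lemmas. -/

/-- translate -/
def shf (h v : ℤ × ℤ) : ℤ × ℤ := (v.1 + h.1, v.2 + h.2)

/-- reflect -/
def rfl2 (v : ℤ × ℤ) : ℤ × ℤ := (v.1, -v.2)

lemma shf_inj (h : ℤ × ℤ) : Function.Injective (shf h) := by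
  rintro ⟨a, b⟩ ⟨c, d⟩ hh
  simp only [shf, Prod.mk.injEq, add_left_inj] at hh
  exact Prod.ext hh.1 hh.2

lemma rfl2_inj : Function.Injective rfl2 := by
  rintro ⟨a, b⟩ ⟨c, d⟩ hh
  simp only [rfl2, Prod.mk.injEq, neg_inj] at hh
  exact Prod.ext hh.1 hh.2

lemma rfl2_rfl2 (v : ℤ × ℤ) : rfl2 (rfl2 v) = v := by
  simp [rfl2]

lemma Nb_shf (h u v : ℤ × ℤ) (huv : Nb u v) : Nb (shf h u) (shf h v) := by
  unfold Nb shf at *
  simpa using huv

lemma Nb_rfl2 (u v : ℤ × ℤ) (huv : Nb u v) : Nb (rfl2 u) (rfl2 v) := by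
  unfold Nb rfl2 at *
  simp only
  have : |(-v.2) - (-u.2)| = |v.2 - u.2| := by
    rw [show (-v.2) - (-u.2) = -(v.2 - u.2) by ring, abs_neg]
  rw [this]; exact huv

lemma isBr_rfl2 (L : ℕ) (l : List (ℤ × ℤ)) (h : IsBr L l) : IsBr L (l.map rfl2) := by
  obtain ⟨h1, h2, h3, h4, h5, y, h6⟩ := h
  refine ⟨h1.map rfl2_inj, ?_, ?_, ?_, ?_, -y, ?_⟩
  · rw [List.isChain_map]
    exact h2.imp (fun a b hab => Nb_rfl2 a b hab)
  · rw [List.head?_map, h3]; simp [rfl2]
  · intro v hv
    rw [← List.map_tail, List.mem_map] at hv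
    obtain ⟨w, hw, rfl⟩ := hv
    simpa [rfl2] using h4 w hw
  · intro v hv
    rw [List.mem_map] at hv
    obtain ⟨w, hw, rfl⟩ := hv
    simpa [rfl2] using h5 w hw
  · rw [List.getLast?_map, h6]; simp [rfl2]

/-- the last vertex -/
def lst (l : List (ℤ × ℤ)) : ℤ × ℤ := l.getLast?.getD (0, 0)

lemma lst_rfl2 (l : List (ℤ × ℤ)) : lst (l.map rfl2) = rfl2 (lst l) := by
  unfold lst
  rw [List.getLast?_map]
  cases l.getLast? <;> simp [rfl2]

lemma brs_rfl2 (L M : ℕ) (l : List (ℤ × ℤ)) (h : l ∈ brs L M) : l.map rfl2 ∈ brs L M := by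
  rw [mem_brs] at *
  exact ⟨isBr_rfl2 L l h.1, by simpa using h.2⟩

lemma map_rfl2_rfl2 (l : List (ℤ × ℤ)) : (l.map rfl2).map rfl2 = l := by
  rw [List.map_map]
  conv_rhs => rw [← List.map_id l]
  apply List.map_congr_left
  intro v _
  simp [rfl2_rfl2]

lemma half_pos (z : ℝ) (hz : 0 < z) (L M : ℕ) :
    (∑ l ∈ brs L M, z ^ (l.length - 1)) / 2 ≤
      ∑ l ∈ (brs L M).filter (fun l => 0 ≤ (lst l).2), z ^ (l.length - 1) := by
  have h1 : ∑ l ∈ brs L M, z ^ (l.length - 1) ≤
      ∑ l ∈ (brs L M).filter (fun l => 0 ≤ (lst l).2), z ^ (l.length - 1) +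
      ∑ l ∈ (brs L M).filter (fun l => (lst l).2 ≤ 0), z ^ (l.length - 1) := by
    rw [← Finset.sum_filter_add_sum_filter_not (brs L M) (fun l => 0 ≤ (lst l).2)]
    refine add_le_add le_rfl ?_
    apply Finset.sum_le_sum_of_subset_of_nonneg
    · intro l hl
      rw [Finset.mem_filter] at *
      exact ⟨hl.1, by have := hl.2; omega⟩
    · intros; positivity
  have h2 : ∑ l ∈ (brs L M).filter (fun l => (lst l).2 ≤ 0), z ^ (l.length - 1) =
      ∑ l ∈ (brs L M).filter (fun l => 0 ≤ (lst l).2), z ^ (l.length - 1) := by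
    apply Finset.sum_nbij' (fun l => l.map rfl2) (fun l => l.map rfl2)
    · intro l hl
      rw [Finset.mem_filter] at *
      refine ⟨brs_rfl2 L M l hl.1, ?_⟩
      rw [lst_rfl2]; simp only [rfl2]; have := hl.2; omega
    · intro l hl
      rw [Finset.mem_filter] at *
      refine ⟨brs_rfl2 L M l hl.1, ?_⟩
      rw [lst_rfl2]; simp only [rfl2]; have := hl.2; omega
    · intro l _; exact map_rfl2_rfl2 l
    · intro l _; exact map_rfl2_rfl2 l
    · intro l _; simp
  linarith

lemma half_neg (z : ℝ) (hz : 0 < z) (L M : ℕ) :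
    (∑ l ∈ brs L M, z ^ (l.length - 1)) / 2 ≤
      ∑ l ∈ (brs L M).filter (fun l => (lst l).2 ≤ 0), z ^ (l.length - 1) := by
  have h2 : ∑ l ∈ (brs L M).filter (fun l => (lst l).2 ≤ 0), z ^ (l.length - 1) =
      ∑ l ∈ (brs L M).filter (fun l => 0 ≤ (lst l).2), z ^ (l.length - 1) := by
    apply Finset.sum_nbij' (fun l => l.map rfl2) (fun l => l.map rfl2)
    · intro l hl
      rw [Finset.mem_filter] at *
      refine ⟨brs_rfl2 L M l hl.1, ?_⟩
      rw [lst_rfl2]; simp only [rfl2]; have := hl.2; omega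
    · intro l hl
      rw [Finset.mem_filter] at *
      refine ⟨brs_rfl2 L M l hl.1, ?_⟩
      rw [lst_rfl2]; simp only [rfl2]; have := hl.2; omega
    · intro l _; exact map_rfl2_rfl2 l
    · intro l _; exact map_rfl2_rfl2 l
    · intro l _; simp
  rw [h2]
  exact half_pos z hz L M

/-- sign condition -/
def SgOk (h : ℤ) (q : List (ℤ × ℤ)) : Prop := (0 ≤ h ∧ (lst q).2 ≤ 0) ∨ (h < 0 ∧ 0 ≤ (lst q).2)

open Classical in
lemma half_sg (z : ℝ) (hz : 0 < z) (L M : ℕ) (h : ℤ) :
    (∑ l ∈ brs L M, z ^ (l.length - 1)) / 2 ≤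
      ∑ l ∈ (brs L M).filter (fun l => SgOk h l), z ^ (l.length - 1) := by
  by_cases hh : 0 ≤ h
  · refine (half_neg z hz L M).trans ?_
    apply Finset.sum_le_sum_of_subset_of_nonneg
    · intro l hl
      rw [Finset.mem_filter] at *
      exact ⟨hl.1, Or.inl ⟨hh, hl.2⟩⟩
    · intros; positivity
  · refine (half_pos z hz L M).trans ?_
    apply Finset.sum_le_sum_of_subset_of_nonneg
    · intro l hl
      rw [Finset.mem_filter] at *
      exact ⟨hl.1, Or.inr ⟨by omega, hl.2⟩⟩
    · intros; positivity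

/-- the concatenation -/
def cat (l q : List (ℤ × ℤ)) : List (ℤ × ℤ) := l ++ q.tail.map (shf (lst l))

lemma br_cons (L : ℕ) (q : List (ℤ × ℤ)) (h : IsBr L q) : ∃ t, q = (0, 0) :: t := by
  obtain ⟨h1, h2, h3, h4, h5, y, h6⟩ := h
  cases q with
  | nil => simp at h3
  | cons a t =>
    simp only [List.head?_cons, Option.some.injEq] at h3
    exact ⟨t, by rw [h3]⟩

lemma br_lst (L : ℕ) (q : List (ℤ × ℤ)) (h : IsBr L q) :
    q.getLast? = some (lst q) ∧ (lst q).1 = L := by
  obtain ⟨h1, h2, h3, h4, h5, y, h6⟩ := h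
  unfold lst
  rw [h6]; simp

lemma br_height (L : ℕ) (q : List (ℤ × ℤ)) (h : IsBr L q) (M : ℕ) (hM : q.length ≤ M + 1)
    (v : ℤ × ℤ) (hv : v ∈ q) : |v.2| ≤ M := by
  obtain ⟨t, rfl⟩ := br_cons L q h
  obtain ⟨i, hi, rfl⟩ := List.getElem_of_mem hv
  have := chain_dist _ h.2.1 0 i (Nat.zero_le _) hi
  simp only [List.getElem_cons_zero, sub_zero, Nat.cast_zero] at this
  have h1 := abs_nonneg (((0, 0) :: t)[i].1)
  have h2 : (i : ℤ) ≤ M := by exact_mod_cast (by omega : i ≤ M)
  omega

lemma cat_mem (k L M : ℕ) (hL : 1 ≤ L) (l q : List (ℤ × ℤ)) (hl : IsBr (k * L) l)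
    (hlM : l.length ≤ k * M + 1) (hl2 : ∀ v ∈ l, |v.2| ≤ 2 * (M : ℤ)) (hl3 : |(lst l).2| ≤ M)
    (hq : IsBr L q) (hqM : q.length ≤ M + 1) (hs : SgOk (lst l).2 q) :
    IsBr ((k + 1) * L) (cat l q) ∧ (cat l q).length ≤ (k + 1) * M + 1 ∧
    (cat l q).length - 1 = (l.length - 1) + (q.length - 1) ∧
    (∀ v ∈ cat l q, |v.2| ≤ 2 * (M : ℤ)) ∧ |(lst (cat l q)).2| ≤ M := by
  have hql := br_lst L q hq
  have hll := br_lst _ l hl
  have hqh := br_height L q hq M hqM
  obtain ⟨t, rfl⟩ := br_cons L q hq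
  obtain ⟨s, rfl⟩ := br_cons _ l hl
  obtain ⟨q1, q2, q3, q4, q5, yq, q6⟩ := hq
  obtain ⟨l1, l2, l3, l4, l5, yl, l6⟩ := hl
  set e := lst ((0, 0) :: s) with he
  have ht : t ≠ [] := by
    rintro rfl
    have := hql.2
    simp [lst] at this
    omega
  have htl : t.getLast? = some (lst ((0, 0) :: t)) := by
    have := hql.1
    rw [List.getLast?_cons_of_ne_nil ht] at this
    exact this
  have hcat : cat ((0, 0) :: s) ((0, 0) :: t) = (0, 0) :: s ++ t.map (shf e) := by
    simp [cat, he]
  have hlast : (cat ((0, 0) :: s) ((0, 0) :: t)).getLast? = some (shf e (lst ((0, 0) :: t))) := by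
    rw [hcat, List.getLast?_append, List.getLast?_map, htl]
    simp
  have hlst : lst (cat ((0, 0) :: s) ((0, 0) :: t)) = shf e (lst ((0, 0) :: t)) := by
    rw [lst, hlast]; simp
  have hqm : (lst ((0, 0) :: t)) ∈ ((0, 0) :: t) := by
    exact List.mem_of_getLast? hql.1
  have hqabs := hqh _ hqm
  simp only [List.tail_cons] at q4 l4
  refine ⟨⟨?_, ?_, ?_, ?_, ?_, e.2 + (lst ((0, 0) :: t)).2, ?_⟩, ?_, ?_, ?_, ?_⟩
  · rw [hcat, List.nodup_append]
    refine ⟨l1, ?_, ?_⟩
    · exact (List.Nodup.of_cons q1).map (shf_inj e)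
    · intro a ha b hb hab
      rw [List.mem_map] at hb
      obtain ⟨w, hw, rfl⟩ := hb
      have h1 := l5 a ha
      have h2 := q4 w hw
      have h3 := hll.2
      rw [hab] at h1
      simp only [shf] at h1
      omega
  · rw [hcat, List.isChain_append]
    refine ⟨l2, ?_, ?_⟩
    · rw [List.isChain_map]
      exact (List.IsChain.tail q2).imp (fun a b hab => Nb_shf e a b hab)
    · intro x hx y hy
      rw [hll.1] at hx
      simp only [Option.mem_def, Option.some.injEq] at hx
      rw [List.head?_map] at hy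
      cases t with
      | nil => simp at ht
      | cons a t' =>
        simp only [List.head?_cons, Option.map_some, Option.mem_def, Option.some.injEq] at hy
        rw [← hx, ← hy]
        have := (List.isChain_cons_cons.mp q2).1
        have h2 := Nb_shf e _ _ this
        have h3 : shf e (0, 0) = e := by simp [shf]
        rw [h3] at h2
        exact h2
  · rw [hcat]; simp
  · intro v hv
    rw [hcat] at hv
    simp only [List.cons_append, List.tail_cons, List.mem_append, List.mem_map] at hv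
    rcases hv with hv | ⟨w, hw, rfl⟩
    · exact l4 v hv
    · have h2 := q4 w hw
      have h3 := hll.2
      simp only [shf]
      have h4 : (0 : ℤ) ≤ ((k * L : ℕ) : ℤ) := by positivity
      omega
  · intro v hv
    rw [hcat, List.mem_append, List.mem_map] at hv
    have h7 : (((k + 1) * L : ℕ) : ℤ) = ((k * L : ℕ) : ℤ) + L := by push_cast; ring
    rcases hv with hv | ⟨w, hw, rfl⟩
    · have := l5 v hv
      omega
    · have h2 := q5 w (List.mem_cons_of_mem _ hw)
      have h3 := hll.2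
      simp only [shf]
      omega
  · rw [hlast]
    have h3 := hll.2
    have h4 := hql.2
    have h7 : (((k + 1) * L : ℕ) : ℤ) = ((k * L : ℕ) : ℤ) + L := by push_cast; ring
    simp only [shf, Option.some.injEq, Prod.mk.injEq]
    refine ⟨?_, by ring⟩
    rw [h7]; omega
  · rw [hcat]
    simp only [List.length_append, List.length_map, List.length_cons] at *
    have : (k + 1) * M = k * M + M := by ring
    omega
  · rw [hcat]
    simp only [List.length_append, List.length_map, List.length_cons] at *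
    omega
  · intro v hv
    rw [hcat, List.mem_append, List.mem_map] at hv
    rcases hv with hv | ⟨w, hw, rfl⟩
    · exact hl2 v hv
    · have h2 := hqh w (List.mem_cons_of_mem _ hw)
      simp only [shf]
      rw [abs_le] at *
      constructor <;> omega
  · rw [hlst]
    simp only [shf]
    unfold SgOk at hs
    rw [abs_le] at *
    constructor <;> omega

lemma cat_inj (k L : ℕ) (l q l' q' : List (ℤ × ℤ)) (hl : IsBr (k * L) l) (hl' : IsBr (k * L) l')
    (hq : IsBr L q) (hq' : IsBr L q') (h : cat l q = cat l' q') : l = l' ∧ q = q' := by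
  have hll := br_lst _ l hl
  have hll' := br_lst _ l' hl'
  have key : ∀ a b : List (ℤ × ℤ), IsBr (k * L) a → IsBr L b →
      (cat a b).filter (fun v => decide (v.1 ≤ ((k * L : ℕ) : ℤ))) = a ∧
      (cat a b).filter (fun v => decide (¬ v.1 ≤ ((k * L : ℕ) : ℤ))) = b.tail.map (shf (lst a)) := by
    intro a b ha hb
    have hal := br_lst _ a ha
    obtain ⟨a1, a2, a3, a4, a5, ya, a6⟩ := ha
    obtain ⟨b1, b2, b3, b4, b5, yb, b6⟩ := hb
    unfold cat
    rw [List.filter_append, List.filter_append]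
    constructor
    · rw [List.filter_eq_self.mpr, List.filter_eq_nil_iff.mpr, List.append_nil]
      · intro v hv
        rw [List.mem_map] at hv
        obtain ⟨w, hw, rfl⟩ := hv
        have h8 := b4 w hw
        have h9 := hal.2
        simp [shf]
        push_cast at h9
        omega
      · intro v hv
        simpa using a5 v hv
    · rw [List.filter_eq_nil_iff.mpr, List.filter_eq_self.mpr, List.nil_append]
      · intro v hv
        rw [List.mem_map] at hv
        obtain ⟨w, hw, rfl⟩ := hv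
        have h8 := b4 w hw
        have h9 := hal.2
        simp [shf]
        push_cast at h9
        omega
      · intro v hv
        have := a5 v hv
        simp only [decide_eq_true_eq]
        omega
  have k1 := key l q hl hq
  have k2 := key l' q' hl' hq'
  have e1 : l = l' := by rw [← k1.1, ← k2.1, h]
  subst e1
  refine ⟨rfl, ?_⟩
  have e2 : q.tail.map (shf (lst l)) = q'.tail.map (shf (lst l)) := by
    rw [← k1.2, ← k2.2, h]
  have e3 : q.tail = q'.tail := List.map_injective_iff.mpr (shf_inj _) e2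
  obtain ⟨t, rfl⟩ := br_cons L q hq
  obtain ⟨t', rfl⟩ := br_cons L q' hq'
  simp only [List.tail_cons] at e3
  rw [e3]

open Classical in
lemma confined' (z : ℝ) (hz : 0 < z) (L M : ℕ) (hL : 1 ≤ L) (k : ℕ) :
    ((∑ l ∈ brs L M, z ^ (l.length - 1)) / 2) ^ k ≤
      ∑ l ∈ (brs (k * L) (k * M)).filter
        (fun l => (∀ v ∈ l, |v.2| ≤ 2 * (M : ℤ)) ∧ |(lst l).2| ≤ M),
        z ^ (l.length - 1) := by
  induction k with
  | zero =>
    rw [pow_zero]
    have hmem : [((0 : ℤ), (0 : ℤ))] ∈ (brs (0 * L) (0 * M)).filter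
        (fun l => (∀ v ∈ l, |v.2| ≤ 2 * (M : ℤ)) ∧ |(lst l).2| ≤ M) := by
      rw [Finset.mem_filter, mem_brs]
      refine ⟨⟨⟨by simp, by simp, by simp, by simp, by simp, 0, by simp⟩, by simp⟩, ?_, ?_⟩
      · intro v hv
        simp only [List.mem_singleton] at hv
        subst hv; simp
      · simp [lst]
    refine le_trans ?_ (Finset.single_le_sum (f := fun l : List (ℤ × ℤ) => z ^ (l.length - 1))
      (fun i _ => by positivity) hmem)
    simp
  | succ k ih =>
    set S := (∑ l ∈ brs L M, z ^ (l.length - 1)) / 2 with hS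
    have hS0 : 0 ≤ S := by
      rw [hS]
      apply div_nonneg _ (by norm_num)
      apply Finset.sum_nonneg
      intros; positivity
    set G := (brs (k * L) (k * M)).filter
        (fun l => (∀ v ∈ l, |v.2| ≤ 2 * (M : ℤ)) ∧ |(lst l).2| ≤ M) with hG
    calc S ^ (k + 1) = S ^ k * S := pow_succ _ _
      _ ≤ (∑ l ∈ G, z ^ (l.length - 1)) * S := by gcongr
      _ = ∑ l ∈ G, z ^ (l.length - 1) * S := by rw [Finset.sum_mul]
      _ ≤ ∑ l ∈ G, z ^ (l.length - 1) *
            ∑ q ∈ (brs L M).filter (fun q => SgOk (lst l).2 q), z ^ (q.length - 1) := by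
          apply Finset.sum_le_sum
          intro l _
          apply mul_le_mul_of_nonneg_left (half_sg z hz L M _)
          positivity
      _ = ∑ l ∈ G, ∑ q ∈ (brs L M).filter (fun q => SgOk (lst l).2 q),
            z ^ (l.length - 1) * z ^ (q.length - 1) := by
          apply Finset.sum_congr rfl
          intro l _
          rw [Finset.mul_sum]
      _ = ∑ p ∈ G.sigma (fun l => (brs L M).filter (fun q => SgOk (lst l).2 q)),
            z ^ (p.1.length - 1) * z ^ (p.2.length - 1) := by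
          rw [Finset.sum_sigma]
      _ = ∑ J ∈ (G.sigma (fun l => (brs L M).filter (fun q => SgOk (lst l).2 q))).image
            (fun p => cat p.1 p.2), z ^ (J.length - 1) := by
          rw [Finset.sum_image]
          · apply Finset.sum_congr rfl
            rintro ⟨l, q⟩ hp
            simp only [Finset.mem_sigma, hG, Finset.mem_filter, mem_brs] at hp
            obtain ⟨⟨⟨h1, h2⟩, h3, h4⟩, ⟨h5, h6⟩, h7⟩ := hp
            have := (cat_mem k L M hL l q h1 h2 h3 h4 h5 h6 h7).2.2.1
            simp only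
            rw [this, pow_add]
          · rintro ⟨l, q⟩ hp ⟨l', q'⟩ hp' hpp
            simp only [Finset.coe_sigma, Set.mem_sigma_iff, Finset.mem_coe, hG,
              Finset.mem_filter, mem_brs] at hp hp'
            have := cat_inj k L l q l' q' hp.1.1.1 hp'.1.1.1 hp.2.1.1 hp'.2.1.1 hpp
            obtain ⟨rfl, rfl⟩ := this
            rfl
      _ ≤ _ := by
          apply Finset.sum_le_sum_of_subset_of_nonneg
          · intro J hJ
            rw [Finset.mem_image] at hJ
            obtain ⟨⟨l, q⟩, hp, rfl⟩ := hJ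
            simp only [Finset.mem_sigma, hG, Finset.mem_filter, mem_brs] at hp
            obtain ⟨⟨⟨h1, h2⟩, h3, h4⟩, ⟨h5, h6⟩, h7⟩ := hp
            have := cat_mem k L M hL l q h1 h2 h3 h4 h5 h6 h7
            rw [Finset.mem_filter, mem_brs]
            exact ⟨⟨this.1, this.2.1⟩, this.2.2.2.1, this.2.2.2.2⟩
          · intros; positivity

/-! Targets. -/

/-- Concatenations of short bridges that stay close to the axis. -/
theorem confined (z : ℝ) (hz : 0 < z) (L M : ℕ) (hL : 1 ≤ L) (k : ℕ) :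
    ((∑ l ∈ brs L M, z ^ (l.length - 1)) / 2) ^ k ≤
      ∑ l ∈ (brs (k * L) (k * M)).filter (fun l => ∀ v ∈ l, |v.2| ≤ 2 * (M : ℤ)),
        z ^ (l.length - 1) := by
  classical
  refine (confined' z hz L M hL k).trans ?_
  apply Finset.sum_le_sum_of_subset_of_nonneg
  · intro l hl
    rw [Finset.mem_filter] at *
    exact ⟨hl.1, hl.2.1⟩
  · intros; positivity

end Pool.Agent.Ads772.J3
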