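import Mathlib
import Pool.Agent.Ads772.Defs
set_option autoImplicit false
namespace Pool.Agent.Ads772.J4a


open Filter Topology

/-! Helpers. -/

theorem nb_dist {w : ℕ → ℤ × ℤ} {i j : ℕ} (hij : i ≤ j)
    (h : ∀ k, i ≤ k → k < j → Nb (w k) (w (k + 1))) :
    |(w j).1 - (w i).1| ≤ (j : ℤ) - i := by
  induction j, hij using Nat.le_induction with
  | base => simp
  | succ j hij ih =>
    have h1 := ih (fun k hk hk' => h k hk (by omega))
    have h2 := h j hij (by omega)
    unfold Nb at h2
    have h3 : |(w (j + 1)).1 - (w j).1| ≤ 1 := by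
      have := abs_nonneg ((w (j + 1)).2 - (w j).2)
      linarith
    rw [abs_le] at *
    push_cast
    constructor <;> linarith [h1.1, h1.2, h3.1, h3.2]

theorem flipR_of_le {i j : ℕ} (w : ℕ → ℤ × ℤ) (h : j ≤ i) : flipR i w j = w j := if_pos h

theorem flipR_of_ge {i j : ℕ} (w : ℕ → ℤ × ℤ) (h : i ≤ j) :
    flipR i w j = (2 * (w i).1 - (w j).1, (w j).2) := by
  rcases Nat.eq_or_lt_of_le h with h | h
  · subst h
    rw [flipR_of_le w le_rfl]
    ext <;> simp
    ring
  · exact if_neg (by omega)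

theorem flipL_of_ge {i j : ℕ} (w : ℕ → ℤ × ℤ) (h : i ≤ j) : flipL i w j = w j := if_pos h

theorem flipL_of_le {i j : ℕ} (w : ℕ → ℤ × ℤ) (h : j ≤ i) :
    flipL i w j = (2 * (w i).1 - (w j).1, (w j).2) := by
  rcases Nat.eq_or_lt_of_le h with h | h
  · subst h
    rw [flipL_of_ge w le_rfl]
    ext <;> simp
    ring
  · exact if_neg (by omega)

theorem nb_refl {u v : ℤ × ℤ} (c : ℤ) (h : Nb u v) : Nb (c - u.1, u.2) (c - v.1, v.2) := by
  unfold Nb at *
  show |(c - v.1) - (c - u.1)| + |v.2 - u.2| = 1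
  have : (c - v.1) - (c - u.1) = -(v.1 - u.1) := by ring
  rw [this, abs_neg]
  exact h

theorem inj_refl {u v : ℤ × ℤ} (c : ℤ) (h : (c - u.1, u.2) = (c - v.1, v.2)) : u = v := by
  rw [Prod.mk.injEq] at h
  ext
  · linarith [h.1]
  · exact h.2

/-- the tail: unfold the part after `m` which is strictly to the right of `w m` -/
theorem tail_unfold (n : ℕ) : ∀ (d m : ℕ), n - m = d → m ≤ n → ∀ (w : ℕ → ℤ × ℤ) (A : ℕ),
    (∀ i, m ≤ i → i ≤ n → ∀ j, m ≤ j → j ≤ n → w i = w j → i = j) →
    (∀ i, m ≤ i → i < n → Nb (w i) (w (i + 1))) →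
    (∀ j, m < j → j ≤ n → (w m).1 < (w j).1) →
    (∀ j, m ≤ j → j ≤ n → (w j).1 - (w m).1 ≤ A) →
    ∃ (a : List ℕ) (w' : ℕ → ℤ × ℤ), w' = a.foldl (fun u i => flipR i u) w ∧
      (∀ i ∈ a, m ≤ i ∧ i ≤ n) ∧ a.length ≤ A ∧
      a.length * (a.length + 1) ≤ 2 * (n - m) ∧
      (∀ j ≤ m, w' j = w j) ∧
      (∀ i, m ≤ i → i ≤ n → ∀ j, m ≤ j → j ≤ n → w' i = w' j → i = j) ∧
      (∀ i, m ≤ i → i < n → Nb (w' i) (w' (i + 1))) ∧
      (∀ j, m < j → j ≤ n → (w m).1 < (w' j).1) ∧
      ∀ j, m ≤ j → j ≤ n → (w' j).1 ≤ (w' n).1 := by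
  intro d
  induction d using Nat.strong_induction_on with
  | _ d ih =>
  intro m hd hmn w A hinj hnb hlt hA
  obtain ⟨i0, hi0, hi0max⟩ := Finset.exists_max_image (Finset.Icc m n) (fun j => (w j).1)
    ⟨m, Finset.mem_Icc.2 ⟨le_rfl, hmn⟩⟩
  obtain ⟨i, hi, himax⟩ := Finset.exists_max_image
    ((Finset.Icc m n).filter fun j => (w j).1 = (w i0).1) (fun j => j)
    ⟨i0, Finset.mem_filter.2 ⟨hi0, rfl⟩⟩
  rw [Finset.mem_filter, Finset.mem_Icc] at hi
  obtain ⟨⟨hmi, hin⟩, hiM⟩ := hi
  have hle : ∀ j, m ≤ j → j ≤ n → (w j).1 ≤ (w i).1 := by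
    intro j h1 h2
    rw [hiM]; exact hi0max j (Finset.mem_Icc.2 ⟨h1, h2⟩)
  have hlast : ∀ j, i < j → j ≤ n → (w j).1 < (w i).1 := by
    intro j h1 h2
    refine lt_of_le_of_ne (hle j (by omega) h2) fun he => ?_
    have := himax j (Finset.mem_filter.2 ⟨Finset.mem_Icc.2 ⟨by omega, h2⟩, by rw [he, hiM]⟩)
    omega
  by_cases hin' : i = n
  · subst hin'
    exact ⟨[], w, rfl, by simp, by simp, by simp, fun _ _ => rfl, hinj, hnb, hlt, hle⟩
  have hin2 : i < n := by omega
  have hmi2 : m < i := by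
    rcases Nat.eq_or_lt_of_le hmi with h | h
    · subst h
      have h1 := hlast n hin2 le_rfl
      have h2 := hlt n hin2 le_rfl
      omega
    · exact h
  have hMpos : (w m).1 < (w i).1 := hlt i hmi2 hin
  obtain ⟨B, hB⟩ : ∃ B : ℕ, ((w i).1 - (w m).1 - 1 : ℤ) = B :=
    ⟨((w i).1 - (w m).1 - 1).toNat, by rw [Int.toNat_of_nonneg]; omega⟩
  obtain ⟨a, w', hw', ha1, ha2, ha3, hfix, hinj', hnb', hlt', hmax'⟩ :=
    ih (n - i) (by omega) i rfl hin (flipR i w) B (by
      intro j h1 h2 k h3 h4 he
      rw [flipR_of_ge w h1, flipR_of_ge w h3] at he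
      exact hinj j (by omega) h2 k (by omega) h4 (inj_refl _ he))
    (by
      intro j h1 h2
      rw [flipR_of_ge w h1, flipR_of_ge w (by omega : i ≤ j + 1)]
      exact nb_refl _ (hnb j (by omega) h2))
    (by
      intro j h1 h2
      rw [flipR_of_ge w h1.le, flipR_of_le w le_rfl]
      have := hlast j h1 h2
      show (w i).1 < 2 * (w i).1 - (w j).1
      omega)
    (by
      intro j h1 h2
      rw [flipR_of_ge w h1, flipR_of_le w le_rfl]
      have := hlt j (by omega) h2
      show 2 * (w i).1 - (w j).1 - (w i).1 ≤ B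
      omega)
  have hwi : flipR i w i = w i := flipR_of_le w le_rfl
  have hfix2 : ∀ j ≤ i, w' j = w j := fun j hj => by rw [hfix j hj, flipR_of_le w hj]
  have hdist : |(w i).1 - (w m).1| ≤ (i : ℤ) - m :=
    nb_dist hmi fun k h1 h2 => hnb k h1 (by omega)
  rw [abs_le] at hdist
  have hAi := hA i hmi hin
  refine ⟨i :: a, w', ?_, ?_, ?_, ?_, ?_, ?_, ?_, ?_, ?_⟩
  · rw [hw']; rfl
  · intro j hj
    rcases List.mem_cons.1 hj with h | h
    · subst h; exact ⟨hmi, hin⟩
    · have := ha1 j h
      omega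
  · rw [List.length_cons]; omega
  · rw [List.length_cons]
    have h1 : a.length + 1 ≤ i - m := by omega
    have h2 : (a.length + 1) * (a.length + 1 + 1) =
        a.length * (a.length + 1) + 2 * (a.length + 1) := by ring
    rw [h2]
    omega
  · intro j hj
    exact hfix2 j (by omega)
  · intro j h1 h2 k h3 h4 he
    by_cases hj : j ≤ i
    · by_cases hk : k ≤ i
      · rw [hfix2 j hj, hfix2 k hk] at he
        exact hinj j h1 h2 k h3 h4 he
      · exfalso
        have e1 := hlt' k (by omega) h4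
        rw [← he, hfix2 j hj, hwi] at e1
        have := hle j h1 h2
        omega
    · by_cases hk : k ≤ i
      · exfalso
        have e1 := hlt' j (by omega) h2
        rw [he, hfix2 k hk, hwi] at e1
        have := hle k h3 h4
        omega
      · exact hinj' j (by omega) h2 k (by omega) h4 he
  · intro j h1 h2
    by_cases hj : j < i
    · rw [hfix2 j hj.le, hfix2 (j + 1) (by omega)]
      exact hnb j h1 h2
    · exact hnb' j (by omega) h2
  · intro j h1 h2
    by_cases hj : j ≤ i
    · rw [hfix2 j hj]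
      exact hlt j h1 h2
    · have := hlt' j (by omega) h2
      rw [hwi] at this
      omega
  · intro j h1 h2
    by_cases hj : j ≤ i
    · rw [hfix2 j hj]
      have e1 := hle j h1 h2
      have e2 := hlt' n hin2 le_rfl
      rw [hwi] at e2
      omega
    · exact hmax' j (by omega) h2

/-- the head: unfold the part before `m` which is strictly to the left of `w m` -/
theorem head_unfold : ∀ (m : ℕ) (w : ℕ → ℤ × ℤ) (A : ℕ),
    (∀ i, i ≤ m → ∀ j, j ≤ m → w i = w j → i = j) →
    (∀ i, i < m → Nb (w i) (w (i + 1))) →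
    (∀ j, j < m → (w j).1 < (w m).1) →
    (∀ j, j ≤ m → (w m).1 - (w j).1 ≤ A) →
    ∃ (a : List ℕ) (w' : ℕ → ℤ × ℤ), w' = a.foldl (fun u i => flipL i u) w ∧
      (∀ i ∈ a, i ≤ m) ∧ a.length ≤ A ∧
      a.length * (a.length + 1) ≤ 2 * m ∧
      (∀ j, m ≤ j → w' j = w j) ∧
      (∀ i, i ≤ m → ∀ j, j ≤ m → w' i = w' j → i = j) ∧
      (∀ i, i < m → Nb (w' i) (w' (i + 1))) ∧
      (∀ j, j < m → (w' j).1 < (w m).1) ∧
      ∀ j, j ≤ m → (w' 0).1 ≤ (w' j).1 := by
  intro m
  induction m using Nat.strong_induction_on with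
  | _ m ih =>
  intro w A hinj hnb hlt hA
  obtain ⟨i0, hi0, hi0max⟩ := Finset.exists_min_image (Finset.Icc 0 m) (fun j => (w j).1)
    ⟨m, Finset.mem_Icc.2 ⟨Nat.zero_le _, le_rfl⟩⟩
  obtain ⟨i, hi, himax⟩ := Finset.exists_min_image
    ((Finset.Icc 0 m).filter fun j => (w j).1 = (w i0).1) (fun j => j)
    ⟨i0, Finset.mem_filter.2 ⟨hi0, rfl⟩⟩
  rw [Finset.mem_filter, Finset.mem_Icc] at hi
  obtain ⟨⟨-, hin⟩, hiM⟩ := hi
  have hle : ∀ j, j ≤ m → (w i).1 ≤ (w j).1 := by
    intro j h2
    rw [hiM]; exact hi0max j (Finset.mem_Icc.2 ⟨Nat.zero_le _, h2⟩)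
  have hlast : ∀ j, j < i → (w i).1 < (w j).1 := by
    intro j h1
    refine lt_of_le_of_ne (hle j (by omega)) fun he => ?_
    have := himax j (Finset.mem_filter.2 ⟨Finset.mem_Icc.2 ⟨Nat.zero_le _, by omega⟩,
      by rw [← he, hiM]⟩)
    omega
  by_cases hin' : i = 0
  · subst hin'
    exact ⟨[], w, rfl, by simp, by simp, by simp, fun _ _ => rfl, hinj, hnb, hlt, hle⟩
  have hin2 : 0 < i := by omega
  have hmi2 : i < m := by
    rcases Nat.eq_or_lt_of_le hin with h | h
    · subst h
      have h1 := hlast 0 hin2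
      have h2 := hlt 0 hin2
      omega
    · exact h
  have hMpos : (w i).1 < (w m).1 := hlt i hmi2
  obtain ⟨B, hB⟩ : ∃ B : ℕ, ((w m).1 - (w i).1 - 1 : ℤ) = B :=
    ⟨((w m).1 - (w i).1 - 1).toNat, by rw [Int.toNat_of_nonneg]; omega⟩
  obtain ⟨a, w', hw', ha1, ha2, ha3, hfix, hinj', hnb', hlt', hmax'⟩ :=
    ih i hmi2 (flipL i w) B (by
      intro j h1 k h3 he
      rw [flipL_of_le w h1, flipL_of_le w h3] at he
      exact hinj j (by omega) k (by omega) (inj_refl _ he))
    (by
      intro j h1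
      rw [flipL_of_le w h1.le, flipL_of_le w (by omega : j + 1 ≤ i)]
      exact nb_refl _ (hnb j (by omega)))
    (by
      intro j h1
      rw [flipL_of_le w h1.le, flipL_of_ge w le_rfl]
      have := hlast j h1
      show 2 * (w i).1 - (w j).1 < (w i).1
      omega)
    (by
      intro j h1
      rw [flipL_of_le w h1, flipL_of_ge w le_rfl]
      have := hlt j (by omega)
      show (w i).1 - (2 * (w i).1 - (w j).1) ≤ B
      omega)
  have hwi : flipL i w i = w i := flipL_of_ge w le_rfl
  have hfix2 : ∀ j, i ≤ j → w' j = w j := fun j hj => by rw [hfix j hj, flipL_of_ge w hj]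
  have hdist : |(w m).1 - (w i).1| ≤ (m : ℤ) - i :=
    nb_dist hin fun k h1 h2 => hnb k (by omega)
  rw [abs_le] at hdist
  have hAi := hA i hin
  refine ⟨i :: a, w', ?_, ?_, ?_, ?_, ?_, ?_, ?_, ?_, ?_⟩
  · rw [hw']; rfl
  · intro j hj
    rcases List.mem_cons.1 hj with h | h
    · subst h; exact hin
    · have := ha1 j h
      omega
  · rw [List.length_cons]; omega
  · rw [List.length_cons]
    have h1 : a.length + 1 ≤ m - i := by omega
    have h2 : (a.length + 1) * (a.length + 1 + 1) =
        a.length * (a.length + 1) + 2 * (a.length + 1) := by ring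
    rw [h2]
    omega
  · intro j hj
    exact hfix2 j (by omega)
  · intro j h1 k h3 he
    by_cases hj : i ≤ j
    · by_cases hk : i ≤ k
      · rw [hfix2 j hj, hfix2 k hk] at he
        exact hinj j h1 k h3 he
      · exfalso
        have e1 := hlt' k (by omega)
        rw [← he, hfix2 j hj, hwi] at e1
        have := hle j h1
        omega
    · by_cases hk : i ≤ k
      · exfalso
        have e1 := hlt' j (by omega)
        rw [he, hfix2 k hk, hwi] at e1
        have := hle k h3
        omega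
      · exact hinj' j (by omega) k (by omega) he
  · intro j h1
    by_cases hj : j < i
    · exact hnb' j hj
    · rw [hfix2 j (by omega), hfix2 (j + 1) (by omega)]
      exact hnb j h1
  · intro j h1
    by_cases hj : i ≤ j
    · rw [hfix2 j hj]
      exact hlt j h1
    · have := hlt' j (by omega)
      rw [hwi] at this
      omega
  · intro j h1
    by_cases hj : i ≤ j
    · rw [hfix2 j hj]
      have e1 := hle j h1
      have e2 := hlt' 0 hin2
      rw [hwi] at e2
      omega
    · exact hmax' j (by omega)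

/-! Targets. -/

/-- Unfolding: with at most `r` reflections of the tail and `r` reflections of the head every
self-avoiding walk becomes unfolded (the first vertex is leftmost and the last one is rightmost). -/
theorem unfold_exists (n r : ℕ) (hr : 2 * n < r * (r - 1)) (w : ℕ → ℤ × ℤ) (hw : SawF n w) :
    ∃ (a b : List ℕ) (w' : ℕ → ℤ × ℤ), a.length = r ∧ b.length = r ∧ (∀ i ∈ a, i ≤ n) ∧
      (∀ i ∈ b, i ≤ n) ∧
      w' = b.foldl (fun u i => flipL i u) (a.foldl (fun u i => flipR i u) w) ∧
      SawF n w' ∧ ∀ j ≤ n, (w' 0).1 ≤ (w' j).1 ∧ (w' j).1 ≤ (w' n).1 := by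
  obtain ⟨hinj, hnb⟩ := hw
  -- last leftmost index
  obtain ⟨i0, hi0, hi0min⟩ := Finset.exists_min_image (Finset.Icc 0 n) (fun j => (w j).1)
    ⟨n, Finset.mem_Icc.2 ⟨Nat.zero_le _, le_rfl⟩⟩
  obtain ⟨m, hm, hmmax⟩ := Finset.exists_max_image
    ((Finset.Icc 0 n).filter fun j => (w j).1 = (w i0).1) (fun j => j)
    ⟨i0, Finset.mem_filter.2 ⟨hi0, rfl⟩⟩
  rw [Finset.mem_filter, Finset.mem_Icc] at hm
  obtain ⟨⟨-, hmn⟩, hmM⟩ := hm
  have hle : ∀ j, j ≤ n → (w m).1 ≤ (w j).1 := by
    intro j h2
    rw [hmM]; exact hi0min j (Finset.mem_Icc.2 ⟨Nat.zero_le _, h2⟩)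
  have hlt : ∀ j, m < j → j ≤ n → (w m).1 < (w j).1 := by
    intro j h1 h2
    refine lt_of_le_of_ne (hle j h2) fun he => ?_
    have := hmmax j (Finset.mem_filter.2 ⟨Finset.mem_Icc.2 ⟨Nat.zero_le _, h2⟩,
      by rw [← he, hmM]⟩)
    omega
  obtain ⟨A, hA⟩ : ∃ A : ℕ, ∀ j, m ≤ j → j ≤ n → (w j).1 - (w m).1 ≤ A := by
    refine ⟨n, fun j h1 h2 => ?_⟩
    have := nb_dist (w := w) h1 fun k _ h4 => hnb k (by omega)
    rw [abs_le] at this
    omega
  obtain ⟨a, w1, hw1, ha1, -, ha3, hfix1, hinj1, hnb1, hlt1, hmax1⟩ :=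
    tail_unfold n (n - m) m rfl hmn w A (fun i _ h2 j _ h4 he => hinj i h2 j h4 he)
      (fun i _ h2 => hnb i h2) hlt hA
  -- reflect the head at `m`
  have hwm : w1 m = w m := hfix1 m le_rfl
  -- the first stage
  obtain ⟨b, w2, hw2, hb1, hb3, hfix2, hinj2, hnb2, hle2, hmin2⟩ :
      ∃ (b : List ℕ) (w2 : ℕ → ℤ × ℤ), w2 = b.foldl (fun u i => flipL i u) w1 ∧
      (∀ i ∈ b, i ≤ m) ∧ b.length ≤ r ∧
      (∀ j, m ≤ j → w2 j = w1 j) ∧
      (∀ i, i ≤ m → ∀ j, j ≤ m → w2 i = w2 j → i = j) ∧
      (∀ i, i < m → Nb (w2 i) (w2 (i + 1))) ∧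
      (∀ j, j ≤ m → (w2 j).1 ≤ (w m).1) ∧
      ∀ j, j ≤ m → (w2 0).1 ≤ (w2 j).1 := by
    have hr2 : 2 ≤ r := by
      rcases r with _ | _ | r
      · simp at hr
      · simp at hr
      · omega
    set u := flipL m w1 with hu
    have hu_le : ∀ j, j ≤ m → u j = (2 * (w m).1 - (w j).1, (w j).2) := by
      intro j hj
      rw [hu, flipL_of_le w1 hj, hwm, hfix1 j hj]
    have hu_ge : ∀ j, m ≤ j → u j = w1 j := fun j hj => flipL_of_ge w1 hj
    have huinj : ∀ i, i ≤ m → ∀ j, j ≤ m → u i = u j → i = j := by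
      intro i h1 j h2 he
      rw [hu_le i h1, hu_le j h2] at he
      exact hinj i (by omega) j (by omega) (inj_refl _ he)
    have hunb : ∀ i, i < m → Nb (u i) (u (i + 1)) := by
      intro i h1
      rw [hu_le i h1.le, hu_le (i + 1) (by omega)]
      exact nb_refl _ (hnb i (by omega))
    have hule : ∀ j, j ≤ m → (u j).1 ≤ (w m).1 := by
      intro j hj
      rw [hu_le j hj]
      have := hle j (by omega)
      show 2 * (w m).1 - (w j).1 ≤ (w m).1
      omega
    -- first leftmost index of the head of `u`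
    obtain ⟨k0, hk0, hk0min⟩ := Finset.exists_min_image (Finset.Icc 0 m) (fun j => (u j).1)
      ⟨m, Finset.mem_Icc.2 ⟨Nat.zero_le _, le_rfl⟩⟩
    obtain ⟨k, hk, hkmin⟩ := Finset.exists_min_image
      ((Finset.Icc 0 m).filter fun j => (u j).1 = (u k0).1) (fun j => j)
      ⟨k0, Finset.mem_filter.2 ⟨hk0, rfl⟩⟩
    rw [Finset.mem_filter, Finset.mem_Icc] at hk
    obtain ⟨⟨-, hkm⟩, hkM⟩ := hk
    have hkle : ∀ j, j ≤ m → (u k).1 ≤ (u j).1 := by
      intro j h2
      rw [hkM]; exact hk0min j (Finset.mem_Icc.2 ⟨Nat.zero_le _, h2⟩)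
    have hklt : ∀ j, j < k → (u k).1 < (u j).1 := by
      intro j h1
      refine lt_of_le_of_ne (hkle j (by omega)) fun he => ?_
      have := hkmin j (Finset.mem_filter.2 ⟨Finset.mem_Icc.2 ⟨Nat.zero_le _, by omega⟩,
        by rw [← he, hkM]⟩)
      omega
    by_cases hk0' : k = 0
    · subst hk0'
      exact ⟨[m], u, rfl, by simp, by simp; omega, hu_ge, huinj, hunb, hule, hkle⟩
    have hkpos : 0 < k := by omega
    have hum : (u m).1 = (w m).1 := by rw [hu_ge m le_rfl, hwm]
    obtain ⟨B, hB⟩ : ∃ B : ℕ, ((w m).1 - (u k).1 : ℤ) = B :=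
      ⟨((w m).1 - (u k).1).toNat, by rw [Int.toNat_of_nonneg]; have := hule k hkm; omega⟩
    obtain ⟨b, w', hw', hb1, hb2, hb3, hfix, hinj', hnb', hlt', hmax'⟩ :=
      head_unfold k (flipL k u) B (by
        intro j h1 l h3 he
        rw [flipL_of_le u h1, flipL_of_le u h3] at he
        exact huinj j (by omega) l (by omega) (inj_refl _ he))
      (by
        intro j h1
        rw [flipL_of_le u h1.le, flipL_of_le u (by omega : j + 1 ≤ k)]
        exact nb_refl _ (hunb j (by omega)))
      (by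
        intro j h1
        rw [flipL_of_le u h1.le, flipL_of_ge u le_rfl]
        have := hklt j h1
        show 2 * (u k).1 - (u j).1 < (u k).1
        omega)
      (by
        intro j h1
        rw [flipL_of_le u h1, flipL_of_ge u le_rfl]
        have := hule j (by omega)
        show (u k).1 - (2 * (u k).1 - (u j).1) ≤ B
        omega)
    have huk : flipL k u k = u k := flipL_of_ge u le_rfl
    have hfix2 : ∀ j, k ≤ j → w' j = u j := fun j hj => by rw [hfix j hj, flipL_of_ge u hj]
    have hdist : |(u m).1 - (u k).1| ≤ (m : ℤ) - k :=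
      nb_dist hkm fun l h1 h2 => hunb l (by omega)
    rw [abs_le, hum] at hdist
    refine ⟨m :: k :: b, w', ?_, ?_, ?_, ?_, ?_, ?_, ?_, ?_⟩
    · rw [hw']; rfl
    · intro j hj
      rcases List.mem_cons.1 hj with h | h
      · subst h; exact le_rfl
      · rcases List.mem_cons.1 h with h | h
        · subst h; exact hkm
        · have := hb1 j h
          omega
    · rw [List.length_cons, List.length_cons]
      set s := b.length with hs
      by_contra hcon
      have h1 : s * (s + 1) + 2 * s ≤ 2 * n := by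
        have : s ≤ m - k := by omega
        omega
      have h2 : r ≤ s + 1 := by omega
      have h3 : r * (r - 1) ≤ (s + 1) * s := Nat.mul_le_mul h2 (by omega)
      have h4 : (s + 1) * s = s * (s + 1) := Nat.mul_comm _ _
      omega
    · intro j hj
      rw [hfix2 j (by omega), hu_ge j hj]
    · intro j h1 l h3 he
      by_cases hj : k ≤ j
      · by_cases hl : k ≤ l
        · rw [hfix2 j hj, hfix2 l hl] at he
          exact huinj j h1 l h3 he
        · exfalso
          have e1 := hlt' l (by omega)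
          rw [← he, hfix2 j hj, huk] at e1
          have := hkle j h1
          omega
      · by_cases hl : k ≤ l
        · exfalso
          have e1 := hlt' j (by omega)
          rw [he, hfix2 l hl, huk] at e1
          have := hkle l h3
          omega
        · exact hinj' j (by omega) l (by omega) he
    · intro j h1
      by_cases hj : j < k
      · exact hnb' j hj
      · rw [hfix2 j (by omega), hfix2 (j + 1) (by omega)]
        exact hunb j h1
    · intro j h1
      by_cases hj : k ≤ j
      · rw [hfix2 j hj]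
        exact hule j h1
      · have := hlt' j (by omega)
        rw [huk] at this
        have := hule k hkm
        omega
    · intro j h1
      by_cases hj : k ≤ j
      · rw [hfix2 j hj]
        have e1 := hkle j h1
        have e2 := hlt' 0 hkpos
        rw [huk] at e2
        omega
      · exact hmax' j (by omega)
  -- padding
  have hpadR : ∀ (t : ℕ) (v : ℕ → ℤ × ℤ) (j : ℕ), j ≤ n →
      ((List.replicate t n).foldl (fun u i => flipR i u) v) j = v j := by
    intro t
    induction t with
    | zero => intro v j _; rfl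
    | succ t ih =>
      intro v j hj
      rw [List.replicate_succ, List.foldl_cons, ih _ j hj, flipR_of_le v hj]
  have hpadL : ∀ (t : ℕ) (v : ℕ → ℤ × ℤ),
      (List.replicate t 0).foldl (fun u i => flipL i u) v = v := by
    intro t
    induction t with
    | zero => intro v; rfl
    | succ t ih =>
      intro v
      rw [List.replicate_succ, List.foldl_cons, ih]
      funext j
      exact flipL_of_ge v (Nat.zero_le _)
  have hagree : ∀ (l : List ℕ) (v v' : ℕ → ℤ × ℤ), (∀ i ∈ l, i ≤ n) → (∀ j ≤ n, v j = v' j) →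
      ∀ j ≤ n, (l.foldl (fun u i => flipL i u) v) j = (l.foldl (fun u i => flipL i u) v') j := by
    intro l
    induction l with
    | nil => intro v v' _ h j hj; exact h j hj
    | cons i l ih =>
      intro v v' hl h j hj
      rw [List.foldl_cons, List.foldl_cons]
      refine ih _ _ (fun i' hi' => hl i' (List.mem_cons_of_mem _ hi')) ?_ j hj
      intro j hj
      unfold flipL
      rw [h j hj, h i (hl i List.mem_cons_self)]
  have hal : a.length ≤ r := by
    by_contra hcon
    have h1 : r * (r - 1) ≤ a.length * (a.length + 1) := Nat.mul_le_mul (by omega) (by omega)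
    omega
  have haR : (a ++ List.replicate (r - a.length) n).foldl (fun u i => flipR i u) w =
      (List.replicate (r - a.length) n).foldl (fun u i => flipR i u) w1 := by
    rw [List.foldl_append, ← hw1]
  refine ⟨a ++ List.replicate (r - a.length) n, b ++ List.replicate (r - b.length) 0, _,
    by simp; omega, by simp; omega, ?_, ?_, rfl, ?_⟩
  · intro i hi
    rcases List.mem_append.1 hi with h | h
    · exact (ha1 i h).2
    · exact (List.eq_of_mem_replicate h).le
  · intro i hi
    rcases List.mem_append.1 hi with h | h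
    · exact (hb1 i h).trans hmn
    · rw [List.eq_of_mem_replicate h]; exact Nat.zero_le _
  · have key : ∀ j ≤ n, ((b ++ List.replicate (r - b.length) 0).foldl (fun u i => flipL i u)
        ((a ++ List.replicate (r - a.length) n).foldl (fun u i => flipR i u) w)) j = w2 j := by
      intro j hj
      rw [List.foldl_append, hpadL, haR, hw2]
      exact hagree b _ _ (fun i hi => (hb1 i hi).trans hmn) (fun j hj => hpadR _ _ j hj) j hj
    have hfinj : ∀ i ≤ n, ∀ j ≤ n, w2 i = w2 j → i = j := by
      intro i hi j hj he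
      by_cases h1 : i ≤ m
      · by_cases h2 : j ≤ m
        · exact hinj2 i h1 j h2 he
        · exfalso
          have e1 := hlt1 j (by omega) hj
          have e2 := hle2 i h1
          rw [he, hfix2 j (by omega)] at e2
          omega
      · by_cases h2 : j ≤ m
        · exfalso
          have e1 := hlt1 i (by omega) hi
          have e2 := hle2 j h2
          rw [← he, hfix2 i (by omega)] at e2
          omega
        · rw [hfix2 i (by omega), hfix2 j (by omega)] at he
          exact hinj1 i (by omega) hi j (by omega) hj he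
    have hfnb : ∀ i < n, Nb (w2 i) (w2 (i + 1)) := by
      intro i hi
      by_cases h1 : i < m
      · exact hnb2 i h1
      · rw [hfix2 i (by omega), hfix2 (i + 1) (by omega)]
        exact hnb1 i (by omega) hi
    have hmn' : (w m).1 ≤ (w2 n).1 := by
      rw [hfix2 n hmn]
      have := hmax1 m le_rfl hmn
      rw [hwm] at this
      exact this
    have hm0 : (w2 0).1 ≤ (w m).1 := hle2 0 (Nat.zero_le _)
    refine ⟨⟨fun i hi j hj he => ?_, fun i hi => ?_⟩, fun j hj => ?_⟩
    · rw [key i hi, key j hj] at he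
      exact hfinj i hi j hj he
    · rw [key i hi.le, key (i + 1) (by omega)]
      exact hfnb i hi
    · rw [key 0 (Nat.zero_le _), key j hj, key n le_rfl]
      by_cases h1 : j ≤ m
      · exact ⟨hmin2 j h1, (hle2 j h1).trans hmn'⟩
      · constructor
        · have e1 := hlt1 j (by omega) hj
          rw [hfix2 j (by omega)]
          omega
        · rw [hfix2 j (by omega), hfix2 n hmn]
          exact hmax1 j (by omega) hj

end Pool.Agent.Ads772.J4a
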