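import Mathlib
import Pool.Agent.Ads772.Defs
import Pool.Agent.Ads772.J1
import Pool.Agent.Ads772.J4a
set_option autoImplicit false
namespace Pool.Agent.Ads772.J4b

open Pool.Agent.Ads772.J1 (mem_walks)
open Pool.Agent.Ads772.J4a (unfold_exists)

open Filter Topology

/-! Given results (proved elsewhere, use as black boxes). -/

/-- equality on `[0, n]` up to a horizontal translation -/
def TrEq (n : ℕ) (u v : ℕ → ℤ × ℤ) : Prop :=
  ∃ t : ℤ, ∀ j ≤ n, (u j).1 = (v j).1 + t ∧ (u j).2 = (v j).2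

theorem TrEq_of_flipR {n i : ℕ} (hi : i ≤ n) {u v : ℕ → ℤ × ℤ}
    (h : TrEq n (flipR i u) (flipR i v)) : TrEq n u v := by
  obtain ⟨t, ht⟩ := h
  have hI := ht i hi
  simp only [flipR, le_refl, if_true] at hI
  refine ⟨t, fun j hj => ?_⟩
  have hJ := ht j hj
  simp only [flipR] at hJ
  split_ifs at hJ with hji
  · exact hJ
  · refine ⟨?_, hJ.2⟩
    have h1 := hJ.1
    simp only at h1
    linarith [hI.1]

theorem TrEq_of_flipL {n i : ℕ} (hi : i ≤ n) {u v : ℕ → ℤ × ℤ}
    (h : TrEq n (flipL i u) (flipL i v)) : TrEq n u v := by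
  obtain ⟨t, ht⟩ := h
  have hI := ht i hi
  simp only [flipL, le_refl, if_true] at hI
  refine ⟨t, fun j hj => ?_⟩
  have hJ := ht j hj
  simp only [flipL] at hJ
  split_ifs at hJ with hji
  · exact hJ
  · refine ⟨?_, hJ.2⟩
    have h1 := hJ.1
    simp only at h1
    linarith [hI.1]

theorem TrEq_of_foldR {n : ℕ} (a : List ℕ) (ha : ∀ i ∈ a, i ≤ n) :
    ∀ u v : ℕ → ℤ × ℤ, TrEq n (a.foldl (fun u i => flipR i u) u)
      (a.foldl (fun u i => flipR i u) v) → TrEq n u v := by
  induction a with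
  | nil => intro u v h; exact h
  | cons i a ih =>
    intro u v h
    have h1 := ih (fun k hk => ha k (List.mem_cons_of_mem _ hk)) (flipR i u) (flipR i v) h
    exact TrEq_of_flipR (ha i List.mem_cons_self) h1

theorem TrEq_of_foldL {n : ℕ} (a : List ℕ) (ha : ∀ i ∈ a, i ≤ n) :
    ∀ u v : ℕ → ℤ × ℤ, TrEq n (a.foldl (fun u i => flipL i u) u)
      (a.foldl (fun u i => flipL i u) v) → TrEq n u v := by
  induction a with
  | nil => intro u v h; exact h
  | cons i a ih =>
    intro u v h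
    have h1 := ih (fun k hk => ha k (List.mem_cons_of_mem _ hk)) (flipL i u) (flipL i v) h
    exact TrEq_of_flipL (ha i List.mem_cons_self) h1

theorem flipR_snd (i : ℕ) (u : ℕ → ℤ × ℤ) (j : ℕ) : (flipR i u j).2 = (u j).2 := by
  unfold flipR; split_ifs <;> rfl

theorem flipL_snd (i : ℕ) (u : ℕ → ℤ × ℤ) (j : ℕ) : (flipL i u j).2 = (u j).2 := by
  unfold flipL; split_ifs <;> rfl

theorem foldR_snd (a : List ℕ) : ∀ (u : ℕ → ℤ × ℤ) (j : ℕ),
    (a.foldl (fun u i => flipR i u) u j).2 = (u j).2 := by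
  induction a with
  | nil => intro u j; rfl
  | cons i a ih =>
    intro u j
    simp only [List.foldl_cons]
    rw [ih, flipR_snd]

theorem foldL_snd (a : List ℕ) : ∀ (u : ℕ → ℤ × ℤ) (j : ℕ),
    (a.foldl (fun u i => flipL i u) u j).2 = (u j).2 := by
  induction a with
  | nil => intro u j; rfl
  | cons i a ih =>
    intro u j
    simp only [List.foldl_cons]
    rw [ih, flipL_snd]

/-- the translated list of a function -/
def trList (n : ℕ) (w : ℕ → ℤ × ℤ) : List (ℤ × ℤ) :=
  List.ofFn (fun j : Fin (n + 1) => ((w j).1 - (w 0).1, (w j).2))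

theorem trList_inj {n : ℕ} {u v : ℕ → ℤ × ℤ} (h : trList n u = trList n v) : TrEq n u v := by
  have h1 := List.ofFn_injective h
  refine ⟨(u 0).1 - (v 0).1, fun j hj => ?_⟩
  have h2 := congrFun h1 ⟨j, by omega⟩
  simp only [Prod.mk.injEq] at h2
  exact ⟨by linarith [h2.1], h2.2⟩

theorem nb_tr (t : ℤ) {u v : ℤ × ℤ} (h : Nb u v) : Nb (u.1 - t, u.2) (v.1 - t, v.2) := by
  unfold Nb at *
  simpa using h

theorem isChain_ofFn {α : Type*} {R : α → α → Prop} {n : ℕ} (g : ℕ → α)
    (h : ∀ i < n, R (g i) (g (i + 1))) :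
    (List.ofFn (fun j : Fin (n + 1) => g j)).IsChain R := by
  rw [List.isChain_iff_getElem]
  intro i hi
  simp only [List.length_ofFn] at hi
  simp only [List.getElem_ofFn]
  exact h i (by omega)

theorem trList_mem (n : ℕ) (w : ℕ → ℤ × ℤ) (hw : SawF n w) (h0 : (w 0).2 = 0) :
    trList n w ∈ walks n := by
  rw [mem_walks]
  refine ⟨by simp [trList], ?_, ?_, ?_⟩
  · simp [trList, List.ofFn_succ, h0]
  · unfold trList
    rw [List.nodup_ofFn]
    intro i j hij
    simp only [Prod.mk.injEq] at hij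
    have h1 : w i = w j := Prod.ext (by linarith [hij.1]) hij.2
    exact Fin.ext (hw.1 i (by omega) j (by omega) h1)
  · unfold trList
    refine isChain_ofFn (fun j => ((w j).1 - (w 0).1, (w j).2)) ?_
    intro i hi
    exact nb_tr _ (hw.2 i hi)

theorem trList_last (n : ℕ) (w : ℕ → ℤ × ℤ) :
    (trList n w).getLast? = some ((w n).1 - (w 0).1, (w n).2) := by
  unfold trList
  rw [List.getLast?_eq_getElem?, List.getElem?_eq_getElem (by simp), List.getElem_ofFn]
  simp only [List.length_ofFn, Nat.add_sub_cancel]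

theorem trList_snd (n : ℕ) (w : ℕ → ℤ × ℤ) :
    (trList n w).map Prod.snd = List.ofFn (fun j : Fin (n + 1) => (w j).2) := by
  unfold trList
  rw [List.map_ofFn]
  rfl

/-- the function of a list -/
def fn (l : List (ℤ × ℤ)) : ℕ → ℤ × ℤ := fun j => l.getD j (0, 0)

theorem fn_get {l : List (ℤ × ℤ)} {j : ℕ} (hj : j < l.length) : fn l j = l[j] := by
  unfold fn
  exact List.getD_eq_getElem _ _ hj

theorem sawF_fn {n : ℕ} {l : List (ℤ × ℤ)} (hl : l ∈ walks n) : SawF n (fn l) := by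
  rw [mem_walks] at hl
  obtain ⟨h1, h2, h3, h4⟩ := hl
  refine ⟨?_, ?_⟩
  · intro i hi j hj h
    rw [fn_get (by omega), fn_get (by omega)] at h
    exact (List.Nodup.getElem_inj_iff h3).mp h
  · intro i hi
    rw [fn_get (by omega), fn_get (by omega)]
    exact List.isChain_iff_getElem.mp h4 i (by omega)

theorem map_snd_fn {n : ℕ} {l : List (ℤ × ℤ)} (hl : l ∈ walks n) :
    l.map Prod.snd = List.ofFn (fun j : Fin (n + 1) => (fn l j).2) := by
  rw [mem_walks] at hl
  obtain ⟨h1, h2, h3, h4⟩ := hl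
  apply List.ext_getElem
  · simp [h1]
  · intro i hi hi'
    simp only [List.getElem_map, List.getElem_ofFn]
    rw [fn_get]

theorem fn_zero {n : ℕ} {l : List (ℤ × ℤ)} (hl : l ∈ walks n) : fn l 0 = (0, 0) := by
  rw [mem_walks] at hl
  obtain ⟨h1, h2, -, -⟩ := hl
  rw [fn_get (by omega)]
  rw [List.head?_eq_getElem?, List.getElem?_eq_getElem (by omega)] at h2
  exact Option.some_injective _ h2

theorem eq_of_trEq {n : ℕ} {l l' : List (ℤ × ℤ)} (hl : l ∈ walks n) (hl' : l' ∈ walks n)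
    (h : TrEq n (fn l) (fn l')) : l = l' := by
  rw [mem_walks] at hl hl'
  obtain ⟨h1, h2, -, -⟩ := hl
  obtain ⟨h1', h2', -, -⟩ := hl'
  obtain ⟨t, ht⟩ := h
  have h0 : fn l 0 = (0, 0) := by
    rw [fn_get (by omega)]
    rw [List.head?_eq_getElem?, List.getElem?_eq_getElem (by omega)] at h2
    exact Option.some_injective _ h2
  have h0' : fn l' 0 = (0, 0) := by
    rw [fn_get (by omega)]
    rw [List.head?_eq_getElem?, List.getElem?_eq_getElem (by omega)] at h2'
    exact Option.some_injective _ h2'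
  have ht0 : t = 0 := by
    have := (ht 0 (Nat.zero_le _)).1
    rw [h0, h0'] at this
    simpa using this.symm
  apply List.ext_getElem (by omega)
  intro i hi hi'
  have := ht i (by omega)
  rw [fn_get hi, fn_get hi', ht0, add_zero] at this
  exact Prod.ext this.1 this.2

/-! Targets. -/

open Classical in
/-- Unfolding does not change the heights, and costs only a subexponential factor. -/
theorem unfold_sum (n r : ℕ) (hr : 2 * n < r * (r - 1)) (f : List ℤ → ℝ) (hf : ∀ h, 0 ≤ f h) :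
    ∑ l ∈ walks n, f (l.map Prod.snd) ≤ ((n : ℝ) + 1) ^ (2 * r) *
      ∑ l ∈ (walks n).filter (fun l => ∃ W y : ℤ, (∀ v ∈ l, 0 ≤ v.1 ∧ v.1 ≤ W) ∧
        l.getLast? = some (W, y)), f (l.map Prod.snd) := by
  have key : ∀ l : List (ℤ × ℤ), l ∈ walks n → ∃ (a b : List ℕ) (w' : ℕ → ℤ × ℤ),
      a.length = r ∧ b.length = r ∧ (∀ i ∈ a, i ≤ n) ∧ (∀ i ∈ b, i ≤ n) ∧
      w' = b.foldl (fun u i => flipL i u) (a.foldl (fun u i => flipR i u) (fn l)) ∧
      SawF n w' ∧ ∀ j ≤ n, (w' 0).1 ≤ (w' j).1 ∧ (w' j).1 ≤ (w' n).1 :=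
    fun l hl => unfold_exists n r hr (fn l) (sawF_fn hl)
  choose! a b w' ha hb ha' hb' hw' hsaw hext using key
  have hcode : ∀ q : List ℕ, q.length = r → (∀ i ∈ q, i ≤ n) → ∃ g : Fin r → Fin (n + 1),
      q = List.ofFn (fun i => (g i : ℕ)) := by
    intro q hq hq'
    refine ⟨fun i => ⟨q.get ⟨i.1, by have := i.2; omega⟩,
      Nat.lt_succ_of_le (hq' _ (List.get_mem _ _))⟩, ?_⟩
    apply List.ext_getElem
    · simp [hq]
    · intro i hi hi'
      simp
  have hA : ∀ l : List (ℤ × ℤ), l ∈ walks n → ∃ g : Fin r → Fin (n + 1),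
      a l = List.ofFn (fun i => (g i : ℕ)) := fun l hl => hcode _ (ha l hl) (ha' l hl)
  have hB : ∀ l : List (ℤ × ℤ), l ∈ walks n → ∃ g : Fin r → Fin (n + 1),
      b l = List.ofFn (fun i => (g i : ℕ)) := fun l hl => hcode _ (hb l hl) (hb' l hl)
  choose! A hA using hA
  choose! B hB using hB
  set T : Finset (List (ℤ × ℤ)) := (walks n).filter (fun l => ∃ W y : ℤ,
    (∀ v ∈ l, 0 ≤ v.1 ∧ v.1 ≤ W) ∧ l.getLast? = some (W, y)) with hT
  let Φ : List (ℤ × ℤ) → ((Fin r → Fin (n + 1)) × (Fin r → Fin (n + 1))) × List (ℤ × ℤ) :=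
    fun l => ((A l, B l), trList n (w' l))
  have hinj : Set.InjOn Φ (walks n) := by
    intro l hl l' hl' h
    have hl1 : l ∈ walks n := hl
    have hl1' : l' ∈ walks n := hl'
    simp only [Φ, Prod.mk.injEq] at h
    obtain ⟨⟨hAA, hBB⟩, hL⟩ := h
    have haa : a l = a l' := by rw [hA l hl1, hA l' hl1', hAA]
    have hbb : b l = b l' := by rw [hB l hl1, hB l' hl1', hBB]
    have h1 := trList_inj hL
    rw [hw' l hl1, hw' l' hl1', haa, hbb] at h1
    have h2 := TrEq_of_foldL _ (hb' l' hl1') _ _ h1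
    have h3 := TrEq_of_foldR _ (ha' l' hl1') _ _ h2
    exact eq_of_trEq hl1 hl1' h3
  have hmem : ∀ l ∈ walks n, trList n (w' l) ∈ T := by
    intro l hl
    rw [hT, Finset.mem_filter]
    have h0 : (w' l 0).2 = 0 := by
      rw [hw' l hl, foldL_snd, foldR_snd, fn_zero hl]
    refine ⟨trList_mem n _ (hsaw l hl) h0, (w' l n).1 - (w' l 0).1, (w' l n).2, ?_, trList_last n _⟩
    intro v hv
    unfold trList at hv
    rw [List.mem_ofFn] at hv
    obtain ⟨j, rfl⟩ := hv
    have := hext l hl j (by omega)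
    simp only
    constructor <;> linarith [this.1, this.2]
  have hval : ∀ l ∈ walks n, f (l.map Prod.snd) = f ((Φ l).2.map Prod.snd) := by
    intro l hl
    have h1 : (Φ l).2.map Prod.snd = l.map Prod.snd := by
      simp only [Φ]
      rw [trList_snd, map_snd_fn hl]
      congr 1
      funext j
      rw [hw' l hl, foldL_snd, foldR_snd]
    rw [h1]
  calc ∑ l ∈ walks n, f (l.map Prod.snd) = ∑ l ∈ walks n, f ((Φ l).2.map Prod.snd) :=
        Finset.sum_congr rfl hval
    _ = ∑ x ∈ (walks n).image Φ, f (x.2.map Prod.snd) := by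
        rw [Finset.sum_image hinj]
    _ ≤ ∑ x ∈ (Finset.univ : Finset ((Fin r → Fin (n + 1)) × (Fin r → Fin (n + 1)))) ×ˢ T,
          f (x.2.map Prod.snd) := by
        apply Finset.sum_le_sum_of_subset_of_nonneg
        · intro x hx
          rw [Finset.mem_image] at hx
          obtain ⟨l, hl, rfl⟩ := hx
          rw [Finset.mem_product]
          exact ⟨Finset.mem_univ _, hmem l hl⟩
        · intro x _ _
          exact hf _
    _ = ((n : ℝ) + 1) ^ (2 * r) * ∑ l ∈ T, f (l.map Prod.snd) := by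
        rw [Finset.sum_product]
        simp only [Finset.sum_const, Finset.card_univ, Fintype.card_prod, Fintype.card_fun,
          Fintype.card_fin, nsmul_eq_mul]
        push_cast
        ring

end Pool.Agent.Ads772.J4b
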