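import Mathlib
import Pool.Agent.Ads772.Defs
import Pool.Agent.Ads772.J1
set_option autoImplicit false
namespace Pool.Agent.Ads772.J5a

open Pool.Agent.Ads772.J1 (chain_dist cnt_le mem_walks)

open Filter Topology

/-! Given results (proved elsewhere, use as black boxes). -/

/-! Helper lemmas. -/

/-- first coordinate of the last vertex -/
def lastX (p : List (ℤ × ℤ)) : ℤ := (p.getLast?.getD (0, 0)).1

/-- horizontal shift of a list of vertices -/
def hsh (k : ℤ) (q : List (ℤ × ℤ)) : List (ℤ × ℤ) := q.map (fun v => (v.1 + k, v.2))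

/-- gluing two unfolded walks by a horizontal edge -/
def glue (p q : List (ℤ × ℤ)) : List (ℤ × ℤ) := p ++ hsh (lastX p + 1) q

theorem hsh_inj (k : ℤ) : Function.Injective (hsh k) := by
  unfold hsh
  apply List.map_injective_iff.2
  intro u v h
  simp only [Prod.mk.injEq, add_left_inj] at h
  exact Prod.ext h.1 h.2

theorem vis_hsh (k : ℤ) (q : List (ℤ × ℤ)) : vis (hsh k q) = vis q := by
  unfold vis hsh
  rw [List.countP_map]
  rfl

theorem vis_glue (p q : List (ℤ × ℤ)) : vis (glue p q) = vis p + vis q := by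
  have h : vis (glue p q) = vis p + vis (hsh (lastX p + 1) q) := by
    unfold vis glue
    rw [List.countP_append]
  rw [h, vis_hsh]

theorem chain_hsh (k : ℤ) (q : List (ℤ × ℤ)) (hq : q.IsChain Nb) : (hsh k q).IsChain Nb := by
  unfold hsh
  rw [List.isChain_map]
  refine hq.imp ?_
  intro u v huv
  unfold Nb at *
  simpa using huv

theorem glue_mem (n m : ℕ) (p q : List (ℤ × ℤ)) (hp : p ∈ walks n) (hq : q ∈ walks m) (W : ℤ)
    (hpW : ∀ v ∈ p, v.1 ≤ W) (hl : p.getLast? = some (W, 0)) (hq0 : ∀ v ∈ q, 0 ≤ v.1) :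
    glue p q ∈ walks (n + m + 1) := by
  rw [mem_walks] at hp hq ⊢
  obtain ⟨hp1, hp2, hp3, hp4⟩ := hp
  obtain ⟨hq1, hq2, hq3, hq4⟩ := hq
  have hX : lastX p = W := by unfold lastX; rw [hl]; rfl
  refine ⟨?_, ?_, ?_, ?_⟩
  · unfold glue hsh
    rw [List.length_append, List.length_map, hp1, hq1]; ring
  · unfold glue
    rw [List.head?_append, hp2]; rfl
  · unfold glue
    rw [List.nodup_append']
    refine ⟨hp3, ?_, ?_⟩
    · unfold hsh
      apply hq3.map
      intro u v h
      simp only [Prod.mk.injEq, add_left_inj] at h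
      exact Prod.ext h.1 h.2
    · intro v hv1 hv2
      unfold hsh at hv2
      obtain ⟨u, hu, rfl⟩ := List.mem_map.1 hv2
      have h1 := hpW _ hv1
      have h2 := hq0 _ hu
      simp only [hX] at h1
      omega
  · unfold glue
    rw [List.isChain_append]
    refine ⟨hp4, chain_hsh _ _ hq4, ?_⟩
    intro x hx y hy
    rw [hl] at hx
    unfold hsh at hy
    rw [List.head?_map, hq2] at hy
    simp at hx hy
    rw [← hx, ← hy, hX]
    unfold Nb
    simp

theorem glue_last (p q : List (ℤ × ℤ)) (W V : ℤ) (hl : p.getLast? = some (W, 0))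
    (hq : q.getLast? = some (V, 0)) : (glue p q).getLast? = some (W + V + 1, 0) := by
  have hX : lastX p = W := by unfold lastX; rw [hl]; rfl
  unfold glue hsh
  rw [List.getLast?_append, List.getLast?_map, hq, hX]
  simp
  ring

theorem glue_mem_iff (p q : List (ℤ × ℤ)) (v : ℤ × ℤ) :
    v ∈ glue p q ↔ v ∈ p ∨ (v.1 - (lastX p + 1), v.2) ∈ q := by
  unfold glue hsh
  rw [List.mem_append, List.mem_map]
  constructor
  · rintro (h | ⟨u, hu, rfl⟩)
    · exact Or.inl h
    · right
      simpa using hu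
  · rintro (h | h)
    · exact Or.inl h
    · right
      exact ⟨_, h, by ext <;> simp⟩

theorem glue_inj (n : ℕ) (p q p' q' : List (ℤ × ℤ)) (hp : p.length = n + 1)
    (hp' : p'.length = n + 1) (h : glue p q = glue p' q') : p = p' ∧ q = q' := by
  unfold glue at h
  have h1 : p = p' ∧ hsh (lastX p + 1) q = hsh (lastX p' + 1) q' :=
    List.append_inj h (by rw [hp, hp'])
  obtain ⟨h2, h3⟩ := h1
  subst h2
  exact ⟨rfl, hsh_inj _ h3⟩

theorem sum_glue (a : ℝ) (n : ℕ) (S T U : Finset (List (ℤ × ℤ)))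
    (hS : ∀ p ∈ S, p.length = n + 1) (h : ∀ p ∈ S, ∀ q ∈ T, glue p q ∈ U) :
    (∑ p ∈ S, Real.exp (a * vis p)) * (∑ q ∈ T, Real.exp (a * vis q)) ≤
      ∑ r ∈ U, Real.exp (a * vis r) := by
  classical
  rw [Finset.sum_mul_sum, ← Finset.sum_product']
  have h1 : ∀ x ∈ S ×ˢ T, Real.exp (a * vis x.1) * Real.exp (a * vis x.2) =
      Real.exp (a * vis (glue x.1 x.2)) := by
    intro x _
    rw [vis_glue, ← Real.exp_add]
    congr 1
    push_cast
    ring
  rw [Finset.sum_congr rfl h1]
  have hinj : Set.InjOn (fun x : List (ℤ × ℤ) × List (ℤ × ℤ) => glue x.1 x.2) (S ×ˢ T : Finset _) := by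
    intro x hx y hy hxy
    have hx := Finset.mem_product.1 (Finset.mem_coe.1 hx)
    have hy := Finset.mem_product.1 (Finset.mem_coe.1 hy)
    have := glue_inj n _ _ _ _ (hS _ hx.1) (hS _ hy.1) hxy
    exact Prod.ext this.1 this.2
  rw [← Finset.sum_image (f := fun r => Real.exp (a * vis r)) hinj]
  apply Finset.sum_le_sum_of_subset_of_nonneg
  · intro r hr
    obtain ⟨x, hx, rfl⟩ := Finset.mem_image.1 hr
    have hx := Finset.mem_product.1 hx
    exact h _ hx.1 _ hx.2
  · intro r _ _
    exact (Real.exp_pos _).le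

theorem memf {S : Finset (List (ℤ × ℤ))} {P : List (ℤ × ℤ) → Prop} {inst : DecidablePred P}
    {l : List (ℤ × ℤ)} : l ∈ @Finset.filter _ P inst S ↔ l ∈ S ∧ P l := Finset.mem_filter

theorem walks_len (n : ℕ) (p : List (ℤ × ℤ)) (hp : p ∈ walks n) : p.length = n + 1 :=
  ((mem_walks n p).1 hp).1

/-! Targets. -/

/-- concatenation of unfolded walks by a horizontal edge -/
theorem Un_mul (a : ℝ) (n m : ℕ) : Un a n * Un a m ≤ Un a (n + m + 1) := by
  classical
  unfold Un
  apply sum_glue a n
  · intro p hp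
    exact walks_len _ _ (memf.1 hp).1
  · intro p hp q hq
    rw [memf] at hp hq ⊢
    obtain ⟨hp1, W, hpW, hpl⟩ := hp
    obtain ⟨hq1, V, hqV, hql⟩ := hq
    refine ⟨?_, W + V + 1, ?_, ?_⟩
    · exact glue_mem n m p q hp1 hq1 W (fun v hv => (hpW v hv).2.1) hpl (fun v hv => (hqV v hv).1)
    · have hX : lastX p = W := by unfold lastX; rw [hpl]; rfl
      have hV0 : 0 ≤ V := (hqV _ (List.mem_of_getLast? hql)).1
      have hW0 : 0 ≤ W := (hpW _ (List.mem_of_getLast? hpl)).1
      intro v hv
      rcases (glue_mem_iff p q v).1 hv with h | h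
      · obtain ⟨h1, h2, h3⟩ := hpW v h
        exact ⟨h1, by omega, h3⟩
      · obtain ⟨h1, h2, h3⟩ := hqV _ h
        rw [hX] at h1 h2
        simp only at h1 h2 h3
        exact ⟨by omega, by omega, h3⟩
    · exact glue_last p q W V hpl hql

theorem Ua_mul (a : ℝ) (n m W V H : ℕ) :
    Ua a n W H * Ua a m V H ≤ Ua a (n + m + 1) (W + V + 1) H := by
  classical
  unfold Ua
  apply sum_glue a n
  · intro p hp
    exact walks_len _ _ (memf.1 hp).1
  · intro p hp q hq
    rw [memf] at hp hq ⊢
    obtain ⟨hp1, hpW, hpl⟩ := hp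
    obtain ⟨hq1, hqV, hql⟩ := hq
    refine ⟨?_, ?_, ?_⟩
    · exact glue_mem n m p q hp1 hq1 W (fun v hv => (hpW v hv).2.1) hpl (fun v hv => (hqV v hv).1)
    · have hX : lastX p = W := by unfold lastX; rw [hpl]; rfl
      intro v hv
      rcases (glue_mem_iff p q v).1 hv with h | h
      · obtain ⟨h1, h2, h3, h4⟩ := hpW v h
        exact ⟨h1, by push_cast; omega, h3, h4⟩
      · obtain ⟨h1, h2, h3, h4⟩ := hqV _ h
        rw [hX] at h1 h2
        simp only at h1 h2 h3 h4
        exact ⟨by omega, by push_cast; omega, h3, h4⟩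
    · rw [glue_last p q W V hpl hql]
      push_cast
      rfl

/-- powers, with control of the width and the height -/
theorem Ua_pow (a : ℝ) (n W H m : ℕ) (hm : 1 ≤ m) :
    (Ua a n W H) ^ m ≤ Ua a (m * (n + 1) - 1) (m * (W + 1) - 1) H := by
  induction m, hm using Nat.le_induction with
  | base => simp
  | succ m hm ih =>
    have h0 : 0 ≤ Ua a n W H := by
      unfold Ua
      exact Finset.sum_nonneg (fun _ _ => (Real.exp_pos _).le)
    have h1 : (Ua a n W H) ^ (m + 1) ≤
        Ua a (m * (n + 1) - 1) (m * (W + 1) - 1) H * Ua a n W H := by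
      rw [pow_succ]
      exact mul_le_mul_of_nonneg_right ih h0
    have h2 := Ua_mul a (m * (n + 1) - 1) n (m * (W + 1) - 1) W H
    have e1 : m * (n + 1) - 1 + n + 1 = (m + 1) * (n + 1) - 1 := by
      have : 1 ≤ m * (n + 1) := Nat.mul_pos hm (Nat.succ_pos _)
      rw [Nat.succ_mul m (n+1)]
      omega
    have e2 : m * (W + 1) - 1 + W + 1 = (m + 1) * (W + 1) - 1 := by
      have : 1 ≤ m * (W + 1) := Nat.mul_pos hm (Nat.succ_pos _)
      rw [Nat.succ_mul m (W+1)]
      omega
    rw [e1, e2] at h2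
    exact h1.trans h2

theorem Un_eq_sum (a : ℝ) (n : ℕ) : Un a n = ∑ W ∈ Finset.range (n + 1), Ua a n W n := by
  classical
  have hd : ∀ l ∈ walks n, ∀ v ∈ l, |v.1| + |v.2| ≤ (n : ℤ) := by
    intro l hl v hv
    obtain ⟨h1, h2, h3, h4⟩ := (mem_walks n l).1 hl
    obtain ⟨j, hj, rfl⟩ := List.mem_iff_getElem.1 hv
    have h5 := chain_dist l h4 0 j (Nat.zero_le _) hj
    have h6 : l[0] = (0, 0) := by
      rw [List.head?_eq_getElem?] at h2
      exact (List.getElem?_eq_some_iff.1 h2).2
    rw [h6] at h5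
    simp only [sub_zero, Nat.cast_zero] at h5
    have : (j : ℤ) ≤ n := by omega
    omega
  unfold Un
  rw [← Finset.sum_fiberwise_of_maps_to (t := Finset.range (n + 1))
    (g := fun l => (lastX l).toNat)]
  · apply Finset.sum_congr rfl
    intro W hW
    unfold Ua
    apply Finset.sum_congr _ (fun _ _ => rfl)
    ext l
    simp only [Finset.mem_filter]
    constructor
    · rintro ⟨⟨h1, V, h2, h3⟩, h4⟩
      have hX : lastX l = V := by unfold lastX; rw [h3]; rfl
      have hV0 : 0 ≤ V := (h2 _ (List.mem_of_getLast? h3)).1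
      have hVW : V = W := by rw [hX] at h4; omega
      subst hVW
      refine ⟨h1, ?_, h3⟩
      intro v hv
      obtain ⟨h5, h6, h7⟩ := h2 v hv
      have h8 := hd l h1 v hv
      have h9 := abs_nonneg v.1
      have h10 := le_abs_self v.2
      exact ⟨h5, h6, h7, by omega⟩
    · rintro ⟨h1, h2, h3⟩
      have hX : lastX l = W := by unfold lastX; rw [h3]; rfl
      refine ⟨⟨h1, W, ?_, h3⟩, by rw [hX]; rfl⟩
      intro v hv
      obtain ⟨h5, h6, h7, h8⟩ := h2 v hv
      exact ⟨h5, h6, h7⟩
  · intro l hl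
    obtain ⟨h1, V, h2, h3⟩ := Finset.mem_filter.1 hl
    have hX : lastX l = V := by unfold lastX; rw [h3]; rfl
    have h8 := hd l h1 _ (List.mem_of_getLast? h3)
    rw [Finset.mem_range, hX]
    simp only [abs_zero, add_zero] at h8
    have := le_abs_self V
    omega

/-- the straight walk along the wall -/
def straight (n : ℕ) : List (ℤ × ℤ) := (List.range (n + 1)).map (fun i : ℕ => ((i : ℤ), (0 : ℤ)))

theorem straight_mem (n : ℕ) : straight n ∈ walks n := by
  rw [mem_walks]
  refine ⟨?_, ?_, ?_, ?_⟩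
  · simp [straight]
  · simp [straight, List.head?_range]
  · unfold straight
    apply List.nodup_range.map
    intro i j h
    simpa using h
  · unfold straight
    rw [List.isChain_map]
    rw [List.isChain_iff_getElem]
    intro i hi
    simp only [List.getElem_range]
    unfold Nb
    simp

theorem Un_lower (a : ℝ) (n : ℕ) : Real.exp (a * (n + 1)) ≤ Un a n := by
  classical
  have hv : vis (straight n) = n + 1 := by
    unfold vis straight
    rw [List.countP_map, List.countP_eq_length.2]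
    · simp
    · intro i _
      simp
  have hm : straight n ∈ (walks n).filter (fun l => ∃ W : ℤ, (∀ v ∈ l, 0 ≤ v.1 ∧ v.1 ≤ W ∧ 0 ≤ v.2) ∧
    l.getLast? = some (W, 0)) := by
    refine Finset.mem_filter.2 ⟨straight_mem n, n, ?_, ?_⟩
    · intro v hv
      obtain ⟨i, hi, rfl⟩ := List.mem_map.1 hv
      rw [List.mem_range] at hi
      refine ⟨by simp, ?_, by simp⟩
      simp only
      omega
    · unfold straight
      rw [List.getLast?_map, List.getLast?_range]
      simp
  have h := Finset.single_le_sum (f := fun l => Real.exp (a * vis l))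
    (fun l _ => (Real.exp_pos _).le) hm
  simp only [hv] at h
  push_cast at h
  exact h

theorem Un_upper (a : ℝ) (n : ℕ) : Un a n ≤ 4 ^ n * Real.exp (|a| * (n + 1)) := by
  classical
  have h1 : Un a n ≤ ∑ l ∈ walks n, Real.exp (|a| * (n + 1)) := by
    unfold Un
    refine (Finset.sum_le_sum_of_subset_of_nonneg (Finset.filter_subset _ _)
      (fun _ _ _ => (Real.exp_pos _).le)).trans ?_
    apply Finset.sum_le_sum
    intro l hl
    rw [Real.exp_le_exp]
    have h2 : (vis l : ℝ) ≤ n + 1 := by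
      have h3 : vis l ≤ n + 1 := by
        rw [← walks_len n l hl]
        exact List.countP_le_length
      exact_mod_cast h3
    calc a * vis l ≤ |a| * vis l := mul_le_mul_of_nonneg_right (le_abs_self a) (Nat.cast_nonneg _)
      _ ≤ |a| * (n + 1) := mul_le_mul_of_nonneg_left h2 (abs_nonneg a)
  rw [Finset.sum_const, nsmul_eq_mul] at h1
  exact h1.trans (mul_le_mul_of_nonneg_right (cnt_le n) (Real.exp_pos _).le)

theorem exists_b (a : ℝ) : ∃ b : ℝ, Tendsto (fun n : ℕ => Real.log (Un a n) / n) atTop (𝓝 b) ∧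
    ∀ n : ℕ, Un a n ≤ Real.exp (b * (n + 1)) := by
  have hpos : ∀ n, 0 < Un a n := fun n => (Real.exp_pos _).trans_le (Un_lower a n)
  set u : ℕ → ℝ := fun k => if k = 0 then 0 else -Real.log (Un a (k - 1)) with hu
  have hsub : Subadditive u := by
    intro k l
    rcases Nat.eq_zero_or_pos k with rfl | hk
    · simp [hu]
    rcases Nat.eq_zero_or_pos l with rfl | hl
    · simp [hu]
    have h1 := Un_mul a (k - 1) (l - 1)
    have e : k - 1 + (l - 1) + 1 = k + l - 1 := by omega
    rw [e] at h1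
    have h2 := Real.log_le_log (mul_pos (hpos _) (hpos _)) h1
    rw [Real.log_mul (hpos _).ne' (hpos _).ne'] at h2
    simp only [hu, hk.ne', hl.ne', if_false, Nat.add_eq_zero_iff, false_and]
    linarith
  have hbd : BddBelow (Set.range fun n => u n / n) := by
    refine ⟨-(Real.log 4 + |a|), ?_⟩
    rintro _ ⟨k, rfl⟩
    rcases Nat.eq_zero_or_pos k with rfl | hk
    · simp only [CharP.cast_eq_zero, div_zero, Left.neg_nonpos_iff]
      have : 0 ≤ Real.log 4 := Real.log_nonneg (by norm_num)
      positivity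
    · have hk' : (0:ℝ) < k := by exact_mod_cast hk
      simp only [hu, hk.ne', if_false]
      rw [le_div_iff₀ hk']
      have h1 := Real.log_le_log (hpos _) (Un_upper a (k - 1))
      rw [Real.log_mul (by positivity) (Real.exp_pos _).ne', Real.log_pow, Real.log_exp] at h1
      have h2 : ((k - 1 : ℕ) : ℝ) = k - 1 := by
        rw [Nat.cast_sub hk]; simp
      rw [h2] at h1
      have h3 : 0 ≤ Real.log 4 := Real.log_nonneg (by norm_num)
      nlinarith [abs_nonneg a]
  have hlim := hsub.tendsto_lim hbd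
  refine ⟨-hsub.lim, ?_, ?_⟩
  · have h1 : Tendsto (fun n : ℕ => u (n + 1) / ((n + 1 : ℕ) : ℝ)) atTop (𝓝 hsub.lim) :=
      hlim.comp (tendsto_add_atTop_nat 1)
    have h2 : Tendsto (fun n : ℕ => ((n : ℝ) + 1) / n) atTop (𝓝 1) := by
      have h3 : Tendsto (fun n : ℕ => (1 : ℝ) + 1 / n) atTop (𝓝 (1 + 0)) :=
        tendsto_const_nhds.add tendsto_one_div_atTop_nhds_zero_nat
      rw [add_zero] at h3
      refine h3.congr' ?_
      filter_upwards [eventually_gt_atTop 0] with n hn
      have : (n : ℝ) ≠ 0 := by exact_mod_cast hn.ne'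
      field_simp
    have h4 := (h1.mul h2).neg
    rw [mul_one] at h4
    refine h4.congr' ?_
    filter_upwards [eventually_gt_atTop 0] with n hn
    have hn' : (n : ℝ) ≠ 0 := by exact_mod_cast hn.ne'
    have hn1 : ((n : ℝ) + 1) ≠ 0 := by positivity
    simp only [hu, Nat.add_eq_zero_iff, one_ne_zero, and_false, if_false, Nat.add_sub_cancel]
    push_cast
    field_simp
  · intro n
    have h1 := hsub.lim_le_div hbd (Nat.succ_ne_zero n)
    have hn : (0 : ℝ) < ((n.succ : ℕ) : ℝ) := by positivity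
    rw [le_div_iff₀ hn] at h1
    simp only [hu, Nat.succ_ne_zero, if_false, Nat.succ_sub_one] at h1
    rw [← Real.log_le_iff_le_exp (hpos n)]
    push_cast at h1
    linarith

end Pool.Agent.Ads772.J5a
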