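import Mathlib
import Pool.Agent.Ads772.Defs
import Pool.Agent.Ads772.J1
import Pool.Agent.Ads772.J4b
set_option autoImplicit false
namespace Pool.Agent.Ads772.J5c

open Pool.Agent.Ads772.J1 (mem_walks one_le_cnt)
open Pool.Agent.Ads772.J4b (unfold_sum)

open Filter Topology

/-! Given results (proved elsewhere, use as black boxes). -/

/-! Targets. -/

theorem sum_le_of_inj {α β : Type} (S : Finset α) (T : Finset β) (f : α → ℝ) (g : β → ℝ)
    (φ : α → β) (hφ : ∀ x ∈ S, φ x ∈ T) (hinj : ∀ x ∈ S, ∀ y ∈ S, φ x = φ y → x = y)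
    (hfg : ∀ x ∈ S, f x ≤ g (φ x)) (hg : ∀ y ∈ T, 0 ≤ g y) : ∑ x ∈ S, f x ≤ ∑ y ∈ T, g y := by
  classical
  calc ∑ x ∈ S, f x ≤ ∑ x ∈ S, g (φ x) := Finset.sum_le_sum hfg
    _ = ∑ y ∈ S.image φ, g y := by
        rw [Finset.sum_image]
        intro x hx y hy h
        exact hinj x hx y hy h
    _ ≤ ∑ y ∈ T, g y := by
        refine Finset.sum_le_sum_of_subset_of_nonneg ?_ (fun y hy _ => hg y hy)
        intro y hy
        obtain ⟨x, hx, rfl⟩ := Finset.mem_image.mp hy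
        exact hφ x hx

theorem exists_last {α : Type} (p : α → Prop) : ∀ l : List α, (∃ x ∈ l, p x) →
    ∃ a v b, l = a ++ v :: b ∧ p v ∧ ∀ w ∈ b, ¬ p w := by
  intro l
  induction l with
  | nil => rintro ⟨x, hx, _⟩; simp at hx
  | cons h t ih =>
    intro hx
    by_cases ht : ∃ x ∈ t, p x
    · obtain ⟨a, v, b, e, hv, hb⟩ := ih ht
      exact ⟨h :: a, v, b, by rw [e]; rfl, hv, hb⟩
    · obtain ⟨x, hx1, hx2⟩ := hx
      rcases List.mem_cons.mp hx1 with rfl | h1
      · refine ⟨[], x, t, rfl, hx2, fun w hw hpw => ht ⟨w, hw, hpw⟩⟩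
      · exact absurd ⟨x, h1, hx2⟩ ht

/-- translation -/
def sh (c w : ℤ × ℤ) : ℤ × ℤ := (w.1 + c.1, w.2 + c.2)

theorem nb_sh (c u v : ℤ × ℤ) (h : Nb u v) : Nb (sh c u) (sh c v) := by
  unfold Nb sh at *
  simp only
  have h1 : v.1 + c.1 - (u.1 + c.1) = v.1 - u.1 := by ring
  have h2 : v.2 + c.2 - (u.2 + c.2) = v.2 - u.2 := by ring
  rw [h1, h2]; exact h

theorem sh_inj (c : ℤ × ℤ) : Function.Injective (sh c) := by
  intro u v h
  unfold sh at h
  have h1 := congrArg Prod.fst h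
  have h2 := congrArg Prod.snd h
  simp only at h1 h2
  exact Prod.ext (by omega) (by omega)

theorem vis_eq (l : List (ℤ × ℤ)) : vis l = (l.map Prod.snd).count 0 := by
  unfold vis
  rw [List.count, List.countP_map]
  congr 1

theorem La_cond (l : List (ℤ × ℤ)) : ((∀ v ∈ l, 0 ≤ v.2) ∧ ∃ x, l.getLast? = some (x, 0)) ↔
    ((∀ y ∈ l.map Prod.snd, 0 ≤ y) ∧ (l.map Prod.snd).getLast? = some 0) := by
  constructor
  · rintro ⟨h1, x, h2⟩
    refine ⟨?_, ?_⟩
    · intro y hy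
      obtain ⟨v, hv, rfl⟩ := List.mem_map.mp hy
      exact h1 v hv
    · rw [List.getLast?_map, h2]; rfl
  · rintro ⟨h1, h2⟩
    refine ⟨fun v hv => h1 _ (List.mem_map.mpr ⟨v, hv, rfl⟩), ?_⟩
    rw [List.getLast?_map] at h2
    obtain ⟨⟨x, y⟩, hv, hv2⟩ := Option.map_eq_some_iff.mp h2
    simp only at hv2
    subst hv2
    exact ⟨x, hv⟩

theorem La_le (a : ℝ) (n r : ℕ) (hr : 2 * n < r * (r - 1)) :
    La a n ≤ ((n : ℝ) + 1) ^ (2 * r) * Un a n := by
  classical
  have h := unfold_sum n r hr (fun h => if (∀ y ∈ h, 0 ≤ y) ∧ h.getLast? = some 0 then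
    Real.exp (a * (h.count 0 : ℕ)) else 0) (by
      intro h
      split_ifs
      · exact (Real.exp_pos _).le
      · exact le_rfl)
  have e1 : La a n = ∑ l ∈ walks n, (fun h : List ℤ => if (∀ y ∈ h, 0 ≤ y) ∧
      h.getLast? = some 0 then Real.exp (a * (h.count 0 : ℕ)) else 0) (l.map Prod.snd) := by
    unfold La
    rw [Finset.sum_filter]
    refine Finset.sum_congr rfl (fun l _ => ?_)
    by_cases hc : (∀ v ∈ l, 0 ≤ v.2) ∧ ∃ x, l.getLast? = some (x, 0)
    · rw [if_pos hc]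
      simp only
      rw [if_pos ((La_cond l).mp hc), vis_eq]
    · rw [if_neg hc]
      simp only
      rw [if_neg (fun h => hc ((La_cond l).mpr h))]
  rw [e1]
  refine h.trans ?_
  refine mul_le_mul_of_nonneg_left ?_ (by positivity)
  unfold Un
  rw [Finset.sum_filter, Finset.sum_filter]
  refine Finset.sum_le_sum (fun l _ => ?_)
  by_cases hc : ∃ W : ℤ, (∀ v ∈ l, 0 ≤ v.1 ∧ v.1 ≤ W ∧ 0 ≤ v.2) ∧ l.getLast? = some (W, 0)
  · rw [if_pos hc]
    obtain ⟨W, h1, h2⟩ := hc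
    rw [if_pos ⟨W, 0, fun v hv => ⟨(h1 v hv).1, (h1 v hv).2.1⟩, h2⟩]
    rw [if_pos ((La_cond l).mp ⟨fun v hv => (h1 v hv).2.2, W, h2⟩), vis_eq]
  · rw [if_neg hc]
    by_cases hd : ∃ W y : ℤ, (∀ v ∈ l, 0 ≤ v.1 ∧ v.1 ≤ W) ∧ l.getLast? = some (W, y)
    · rw [if_pos hd]
      obtain ⟨W, y, h1, h2⟩ := hd
      rw [if_neg]
      intro h3
      obtain ⟨h4, x, h5⟩ := (La_cond l).mpr h3
      rw [h2] at h5
      simp only [Option.some.injEq, Prod.mk.injEq] at h5
      refine hc ⟨W, fun v hv => ⟨(h1 v hv).1, (h1 v hv).2, h4 v hv⟩, ?_⟩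
      rw [h2, h5.2]
    · rw [if_neg hd]

theorem Un_le_Wa (a : ℝ) (n : ℕ) : Un a n ≤ Wa a n := by
  classical
  unfold Un Wa
  refine Finset.sum_le_sum_of_subset_of_nonneg ?_ (fun _ _ _ => (Real.exp_pos _).le)
  intro l hl
  rw [Finset.mem_filter] at hl ⊢
  obtain ⟨h1, W, h2, _⟩ := hl
  exact ⟨h1, fun v hv => (h2 v hv).2.2⟩

theorem decomp (n : ℕ) (l : List (ℤ × ℤ)) (hl : l ∈ walks n) (h0 : ∀ v ∈ l, 0 ≤ v.2) :
    ∃ (A B : List (ℤ × ℤ)) (v : ℤ × ℤ), l = A ++ v :: B ∧ v.2 = 0 ∧ A.length ≤ n ∧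
      A ++ [v] ∈ walks A.length ∧ (∀ w ∈ A ++ [v], 0 ≤ w.2) ∧
      (v :: B).map (sh (-v.1, -v.2)) ∈ walks (n - A.length) ∧ vis l = vis (A ++ [v]) := by
  obtain ⟨h1, h2, h3, h4⟩ := (mem_walks n l).mp hl
  have hne : ∃ x ∈ l, x.2 = 0 := by
    cases l with
    | nil => simp at h2
    | cons x t =>
      simp only [List.head?_cons, Option.some.injEq] at h2
      exact ⟨x, by simp, by rw [h2]⟩
  obtain ⟨A, v, B, e, hv, hB⟩ := exists_last (fun v : ℤ × ℤ => v.2 = 0) l hne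
  have hv : v.2 = 0 := hv
  have hB : ∀ w ∈ B, ¬ w.2 = 0 := hB
  have hlen : A.length + (B.length + 1) = n + 1 := by
    rw [e] at h1
    simpa using h1
  have hsub : ∀ w ∈ A ++ [v], w ∈ l := by
    intro w hw
    rw [e]
    simp only [List.mem_append, List.mem_cons, List.not_mem_nil, or_false] at hw ⊢
    tauto
  have hsplit : l = (A ++ [v]) ++ B := by rw [e]; simp
  refine ⟨A, B, v, e, hv, by omega, ?_, fun w hw => h0 w (hsub w hw), ?_, ?_⟩
  · rw [mem_walks]
    refine ⟨by simp, ?_, ?_, ?_⟩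
    · rw [e] at h2
      cases A <;> simpa using h2
    · rw [hsplit] at h3
      exact (List.nodup_append.mp h3).1
    · rw [hsplit] at h4
      exact h4.left_of_append
  · rw [mem_walks]
    refine ⟨by simp; omega, by simp [sh], ?_, ?_⟩
    · refine List.Nodup.map (sh_inj _) ?_
      rw [e] at h3
      exact (List.nodup_append.mp h3).2.1
    · refine List.isChain_map_of_isChain _ (nb_sh _) ?_
      rw [e] at h4
      exact h4.right_of_append
  · rw [hsplit]
    unfold vis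
    have hz : B.countP (fun v => decide (v.2 = 0)) = 0 := by
      rw [List.countP_eq_zero]
      intro w hw
      simpa using hB w hw
    rw [List.countP_append, hz, add_zero]

theorem Wa_le_sum (a : ℝ) (n : ℕ) :
    Wa a n ≤ ∑ m ∈ Finset.range (n + 1), La a m * cnt (n - m) := by
  classical
  have D : ∀ l : List (ℤ × ℤ), ∃ (A B : List (ℤ × ℤ)) (v : ℤ × ℤ), l ∈ walks n →
      (∀ v ∈ l, 0 ≤ v.2) → l = A ++ v :: B ∧ v.2 = 0 ∧ A.length ≤ n ∧
      A ++ [v] ∈ walks A.length ∧ (∀ w ∈ A ++ [v], 0 ≤ w.2) ∧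
      (v :: B).map (sh (-v.1, -v.2)) ∈ walks (n - A.length) ∧ vis l = vis (A ++ [v]) := by
    intro l
    by_cases h1 : l ∈ walks n
    · by_cases h2 : ∀ v ∈ l, 0 ≤ v.2
      · obtain ⟨A, B, v, h⟩ := decomp n l h1 h2
        exact ⟨A, B, v, fun _ _ => h⟩
      · exact ⟨[], [], (0, 0), fun _ h => absurd h h2⟩
    · exact ⟨[], [], (0, 0), fun h _ => absurd h h1⟩
  choose A B v hD using D
  let T : Finset (Σ _ : ℕ, List (ℤ × ℤ) × List (ℤ × ℤ)) :=
    (Finset.range (n + 1)).sigma (fun m => ((walks m).filter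
      (fun l => (∀ v ∈ l, 0 ≤ v.2) ∧ ∃ x, l.getLast? = some (x, 0))) ×ˢ (walks (n - m)))
  have e1 : ∑ m ∈ Finset.range (n + 1), La a m * cnt (n - m) =
      ∑ x ∈ T, Real.exp (a * vis x.2.1) := by
    rw [Finset.sum_sigma]
    refine Finset.sum_congr rfl (fun m _ => ?_)
    rw [Finset.sum_product]
    unfold La cnt
    rw [Finset.sum_mul]
    refine Finset.sum_congr rfl (fun p _ => ?_)
    show _ = ∑ _y ∈ walks (n - m), Real.exp (a * vis p)
    rw [Finset.sum_const, nsmul_eq_mul, mul_comm]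
  rw [e1]
  unfold Wa
  refine sum_le_of_inj _ _ _ _ (fun l => ⟨(A l).length,
    (A l ++ [v l], (v l :: B l).map (sh (-(v l).1, -(v l).2)))⟩) ?_ ?_ ?_ ?_
  · intro l hl
    obtain ⟨hl1, hl2⟩ := Finset.mem_filter.mp hl
    obtain ⟨d1, d2, d3, d4, d5, d6, d7⟩ := hD l hl1 hl2
    simp only [T, Finset.mem_sigma, Finset.mem_range, Finset.mem_product, Finset.mem_filter]
    refine ⟨by omega, ⟨d4, d5, (v l).1, ?_⟩, d6⟩
    rw [List.getLast?_concat, ← d2]
  · intro l hl l' hl' he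
    obtain ⟨hl1, hl2⟩ := Finset.mem_filter.mp hl
    obtain ⟨hl1', hl2'⟩ := Finset.mem_filter.mp hl'
    obtain ⟨d1, -⟩ := hD l hl1 hl2
    obtain ⟨d1', -⟩ := hD l' hl1' hl2'
    have he2 := (Sigma.mk.inj_iff.mp he).2
    have he3 := eq_of_heq he2
    have q1 := congrArg Prod.fst he3
    have q2 := congrArg Prod.snd he3
    simp only at q1 q2
    have q3 := List.append_inj' q1 rfl
    have q4 : v l = v l' := by simpa using q3.2
    rw [q4] at q2
    have q5 := (List.map_injective_iff.mpr (sh_inj _)) q2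
    have q6 : B l = B l' := by simpa using q5
    rw [d1, d1', q3.1, q4, q6]
  · intro l hl
    obtain ⟨hl1, hl2⟩ := Finset.mem_filter.mp hl
    obtain ⟨d1, d2, d3, d4, d5, d6, d7⟩ := hD l hl1 hl2
    simp only
    rw [d7]
  · intro y _
    exact (Real.exp_pos _).le

/-- swap and lift -/
def sw (w : ℤ × ℤ) : ℤ × ℤ := (w.2, w.1 + 1)

theorem nb_sw (u v : ℤ × ℤ) (h : Nb u v) : Nb (sw u) (sw v) := by
  unfold Nb sw at *
  simp only
  have h1 : v.1 + 1 - (u.1 + 1) = v.1 - u.1 := by ring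
  rw [h1, add_comm]; exact h

theorem sw_inj : Function.Injective sw := by
  intro u v h
  unfold sw at h
  have h1 := congrArg Prod.fst h
  have h2 := congrArg Prod.snd h
  simp only at h1 h2
  exact Prod.ext (by omega) (by omega)

theorem cnt_le_Wa (a : ℝ) (n r : ℕ) (hr : 2 * n < r * (r - 1)) :
    Real.exp a * cnt n ≤ ((n : ℝ) + 1) ^ (2 * r) * Wa a (n + 1) := by
  classical
  have h := unfold_sum n r hr (fun _ => 1) (fun _ => zero_le_one)
  have e0 : (∑ l ∈ walks n, (fun _ : List ℤ => (1 : ℝ)) (l.map Prod.snd)) = cnt n := by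
    simp [cnt]
  rw [e0] at h
  have hexp := Real.exp_pos a
  have h2 := mul_le_mul_of_nonneg_left h hexp.le
  refine h2.trans ?_
  have e2 : ∀ (c : ℝ) (x : ℝ), Real.exp a * (c * x) = c * (Real.exp a * x) := by
    intro c x; ring
  rw [e2]
  refine mul_le_mul_of_nonneg_left ?_ (by positivity)
  rw [Finset.mul_sum]
  unfold Wa
  refine sum_le_of_inj _ _ _ _ (fun l => (0, 0) :: l.map sw) ?_ ?_ ?_ ?_
  · intro l hl
    obtain ⟨hl1, W, y, hl2, hl3⟩ := Finset.mem_filter.mp hl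
    obtain ⟨h1, h2, h3, h4⟩ := (mem_walks n l).mp hl1
    refine Finset.mem_filter.mpr ⟨?_, ?_⟩
    · rw [mem_walks]
      refine ⟨by simp [h1], by simp, ?_, ?_⟩
      · refine List.nodup_cons.mpr ⟨?_, List.Nodup.map sw_inj h3⟩
        intro h0
        obtain ⟨u, hu, hu2⟩ := List.mem_map.mp h0
        have c1 := (hl2 u hu).1
        have c2 := congrArg Prod.snd hu2
        simp only [sw] at c2
        omega
      · refine List.isChain_cons.mpr ⟨?_, List.isChain_map_of_isChain _ nb_sw h4⟩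
        intro y hy
        rw [List.head?_map, h2] at hy
        simp only [Option.map_some, Option.mem_some_iff] at hy
        subst hy
        simp [Nb, sw]
    · intro w hw
      rcases List.mem_cons.mp hw with rfl | hw
      · exact le_rfl
      · obtain ⟨u, hu, rfl⟩ := List.mem_map.mp hw
        have c1 := (hl2 u hu).1
        simp only [sw]
        omega
  · intro l _ l' _ he
    have := (List.cons.inj he).2
    exact (List.map_injective_iff.mpr sw_inj) this
  · intro l hl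
    obtain ⟨hl1, W, y, hl2, hl3⟩ := Finset.mem_filter.mp hl
    have hv : vis ((0, 0) :: l.map sw) = 1 := by
      unfold vis
      rw [List.countP_cons_of_pos (by simp), List.countP_eq_zero.mpr]
      intro w hw
      obtain ⟨u, hu, rfl⟩ := List.mem_map.mp hw
      have c1 := (hl2 u hu).1
      rw [decide_eq_true_eq]
      show ¬ (u.1 + 1 = 0)
      omega
    show _ ≤ Real.exp (a * (vis ((0, 0) :: l.map sw) : ℕ))
    rw [hv]
    simp
  · intro y _
    exact (Real.exp_pos _).le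

end Pool.Agent.Ads772.J5c
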