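import Mathlib
import Pool.Agent.Ads772.Defs
import Pool.Agent.Ads772.J1
import Pool.Agent.Ads772.J5a
import Pool.Agent.Ads772.J5c
set_option autoImplicit false
namespace Pool.Agent.Ads772.J5d

open Pool.Agent.Ads772.J1 (one_le_cnt)
open Pool.Agent.Ads772.J5a (Un_lower exists_b)
open Pool.Agent.Ads772.J5c (La_le Un_le_Wa Wa_le_sum cnt_le_Wa)

open Filter Topology

/-! Given results (proved elsewhere, use as black boxes). -/

/-! Analysis helpers. -/

/-- the number of reflections -/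
def rr (n : ℕ) : ℕ := Nat.sqrt (2 * n) + 2

theorem rr_spec (n m : ℕ) (h : m ≤ n) : 2 * m < rr n * (rr n - 1) := by
  have h1 : 2 * n < (Nat.sqrt (2 * n) + 1) * (Nat.sqrt (2 * n) + 1) := Nat.lt_succ_sqrt (2 * n)
  have h2 : rr n - 1 = Nat.sqrt (2 * n) + 1 := rfl
  rw [h2]
  unfold rr
  nlinarith

theorem rr_le (n : ℕ) : 2 * (rr n : ℝ) + 1 ≤ 8 * Real.sqrt (n + 1) := by
  have h1 : ((Nat.sqrt (2 * n) : ℕ) : ℝ) ≤ Real.sqrt (2 * n) := by
    have := Real.nat_sqrt_le_real_sqrt (a := 2 * n)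
    simpa using this
  have h2 : Real.sqrt (2 * n) ≤ 3 / 2 * Real.sqrt (n + 1) := by
    rw [Real.sqrt_le_left (by positivity)]
    rw [mul_pow, Real.sq_sqrt (by positivity)]
    have : (0 : ℝ) ≤ n := Nat.cast_nonneg n
    nlinarith
  have h3 : 1 ≤ Real.sqrt (n + 1) := by
    rw [Real.one_le_sqrt]
    have : (0 : ℝ) ≤ n := Nat.cast_nonneg n
    linarith
  unfold rr
  push_cast
  linarith

theorem tendsto_err : Tendsto (fun n : ℕ => (2 * (rr n : ℝ) + 1) * Real.log (n + 1) / n)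
    atTop (𝓝 0) := by
  have h1 : Tendsto (fun n : ℕ => Real.sqrt ((n : ℝ) + 1)) atTop atTop :=
    Real.tendsto_sqrt_atTop.comp
      (tendsto_atTop_add_const_right _ _ tendsto_natCast_atTop_atTop)
  have h2 := (Real.tendsto_pow_log_div_mul_add_atTop 1 0 1 one_ne_zero).comp h1
  have h3 : Tendsto (fun n : ℕ => 32 * (Real.log (Real.sqrt ((n : ℝ) + 1)) ^ 1 /
      (1 * Real.sqrt ((n : ℝ) + 1) + 0))) atTop (𝓝 0) := by
    simpa using h2.const_mul 32
  refine squeeze_zero' (Eventually.of_forall fun n => ?_) ?_ h3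
  · have : 0 ≤ Real.log ((n : ℝ) + 1) := Real.log_nonneg (by
      have : (0 : ℝ) ≤ n := Nat.cast_nonneg n
      linarith)
    positivity
  · filter_upwards [eventually_ge_atTop 1] with n hn
    have hn' : (1 : ℝ) ≤ n := by exact_mod_cast hn
    have hs : 0 < Real.sqrt ((n : ℝ) + 1) := Real.sqrt_pos.2 (by linarith)
    have hl : 0 ≤ Real.log ((n : ℝ) + 1) := Real.log_nonneg (by linarith)
    have h4 : Real.log (Real.sqrt ((n : ℝ) + 1)) = Real.log ((n : ℝ) + 1) / 2 :=
      Real.log_sqrt (by linarith)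
    have h5 : Real.sqrt ((n : ℝ) + 1) * Real.sqrt ((n : ℝ) + 1) = n + 1 :=
      Real.mul_self_sqrt (by linarith)
    have h6 : Real.sqrt ((n : ℝ) + 1) / n ≤ 2 / Real.sqrt ((n : ℝ) + 1) := by
      rw [div_le_div_iff₀ (by linarith) hs, h5]
      linarith
    calc (2 * (rr n : ℝ) + 1) * Real.log (n + 1) / n
        ≤ (8 * Real.sqrt (n + 1)) * Real.log (n + 1) / n := by
          gcongr
          exact rr_le n
      _ = 8 * Real.log (n + 1) * (Real.sqrt ((n : ℝ) + 1) / n) := by ring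
      _ ≤ 8 * Real.log (n + 1) * (2 / Real.sqrt ((n : ℝ) + 1)) := by gcongr
      _ = 32 * (Real.log (Real.sqrt ((n : ℝ) + 1)) ^ 1 /
            (1 * Real.sqrt ((n : ℝ) + 1) + 0)) := by
          rw [h4]; ring

theorem Un_pos (a : ℝ) (n : ℕ) : 0 < Un a n := lt_of_lt_of_le (Real.exp_pos _) (Un_lower a n)

theorem Wa_pos (a : ℝ) (n : ℕ) : 0 < Wa a n := lt_of_lt_of_le (Un_pos a n) (Un_le_Wa a n)

theorem cnt_pos (n : ℕ) : 0 < cnt n := lt_of_lt_of_le one_pos (one_le_cnt n)

theorem cnt_bound {k2 : ℝ} (hk2 : Tendsto (fun n : ℕ => Real.log (cnt n) / n) atTop (𝓝 k2))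
    {c : ℝ} (hc : k2 < c) : ∃ K : ℝ, 0 ≤ K ∧ ∀ j : ℕ, cnt j ≤ Real.exp (c * j + K) := by
  obtain ⟨N, hN⟩ := eventually_atTop.1 ((hk2.eventually_lt_const hc).and (eventually_ge_atTop 1))
  refine ⟨∑ j ∈ Finset.range N, |Real.log (cnt j) - c * j|,
    Finset.sum_nonneg fun _ _ => abs_nonneg _, fun j => ?_⟩
  rw [← Real.exp_log (cnt_pos j)]
  apply Real.exp_le_exp.2
  have hK : 0 ≤ ∑ j ∈ Finset.range N, |Real.log (cnt j) - c * j| :=
    Finset.sum_nonneg fun _ _ => abs_nonneg _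
  by_cases hj : N ≤ j
  · obtain ⟨h1, h2⟩ := hN j hj
    have h3 : (0 : ℝ) < j := by exact_mod_cast h2
    rw [div_lt_iff₀ h3] at h1
    linarith
  · have h1 : |Real.log (cnt j) - c * j| ≤ ∑ j ∈ Finset.range N, |Real.log (cnt j) - c * j| :=
      Finset.single_le_sum (f := fun j : ℕ => |Real.log (cnt j) - c * j|)
        (fun _ _ => abs_nonneg _) (Finset.mem_range.2 (not_le.1 hj))
    have h2 := le_abs_self (Real.log (cnt j) - c * j)
    linarith

theorem Wa_upper (a b c K : ℝ) (hb : ∀ n : ℕ, Un a n ≤ Real.exp (b * (n + 1)))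
    (hbc : b ≤ c) (hK : ∀ j : ℕ, cnt j ≤ Real.exp (c * j + K)) (n : ℕ) :
    Real.log (Wa a n) ≤ (2 * (rr n : ℝ) + 1) * Real.log (n + 1) + (c * n + (b + K)) := by
  have hn1 : (0 : ℝ) < (n : ℝ) + 1 := by positivity
  have h1 : Wa a n ≤ ∑ m ∈ Finset.range (n + 1), ((n : ℝ) + 1) ^ (2 * rr n) *
      Real.exp (c * n + (b + K)) := by
    refine (Wa_le_sum a n).trans (Finset.sum_le_sum fun m hm => ?_)
    have hm' : m ≤ n := Nat.lt_succ_iff.1 (Finset.mem_range.1 hm)
    have h2 := La_le a m (rr n) (rr_spec n m hm')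
    have h3 : ((m : ℝ) + 1) ^ (2 * rr n) ≤ ((n : ℝ) + 1) ^ (2 * rr n) := by
      gcongr
    have h4 : La a m ≤ ((n : ℝ) + 1) ^ (2 * rr n) * Real.exp (b * (m + 1)) := by
      refine h2.trans ?_
      gcongr
      · exact (Un_pos a m).le
      · exact hb m
    calc La a m * cnt (n - m) ≤ (((n : ℝ) + 1) ^ (2 * rr n) * Real.exp (b * (m + 1))) *
          Real.exp (c * ((n - m : ℕ) : ℝ) + K) := by
          gcongr
          · exact (cnt_pos _).le
          · exact hK _
      _ = ((n : ℝ) + 1) ^ (2 * rr n) * Real.exp (b * (m + 1) + (c * ((n - m : ℕ) : ℝ) + K)) := by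
          rw [mul_assoc, ← Real.exp_add]
      _ ≤ ((n : ℝ) + 1) ^ (2 * rr n) * Real.exp (c * n + (b + K)) := by
          refine mul_le_mul_of_nonneg_left (Real.exp_le_exp.2 ?_) (by positivity)
          rw [Nat.cast_sub hm']
          have : b * m ≤ c * m := by gcongr
          nlinarith
  rw [Finset.sum_const, Finset.card_range, nsmul_eq_mul] at h1
  have h2 : Real.log (Wa a n) ≤ Real.log (((n + 1 : ℕ) : ℝ) * (((n : ℝ) + 1) ^ (2 * rr n) *
      Real.exp (c * n + (b + K)))) := Real.log_le_log (Wa_pos a n) h1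
  refine h2.trans_eq ?_
  rw [Real.log_mul (by positivity) (by positivity), Real.log_mul (by positivity) (by positivity),
    Real.log_exp, Real.log_pow]
  push_cast
  ring

theorem Wa_lower (a : ℝ) (n : ℕ) :
    a + Real.log (cnt n) - (2 * (rr n : ℝ) + 1) * Real.log (n + 1) ≤
      Real.log (Wa a (n + 1)) := by
  have h1 := cnt_le_Wa a n (rr n) (rr_spec n n le_rfl)
  have h2 := Real.log_le_log (mul_pos (Real.exp_pos a) (cnt_pos n)) h1
  have hn1 : (0 : ℝ) < (n : ℝ) + 1 := by positivity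
  rw [Real.log_mul (Real.exp_pos a).ne' (cnt_pos n).ne', Real.log_exp,
    Real.log_mul (by positivity) (Wa_pos _ _).ne', Real.log_pow] at h2
  have h3 : 0 ≤ Real.log ((n : ℝ) + 1) := Real.log_nonneg (by
      have : (0 : ℝ) ≤ n := Nat.cast_nonneg n
      linarith)
  push_cast at h2
  nlinarith

/-! Targets. -/

/-- existence of the free energy of adsorbing walks -/
theorem kappa_exists (a k2 : ℝ)
    (hk2 : Tendsto (fun n : ℕ => Real.log (cnt n) / n) atTop (𝓝 k2)) :
    ∃ b : ℝ, Tendsto (fun n : ℕ => Real.log (Un a n) / n) atTop (𝓝 b) ∧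
      Tendsto (fun n : ℕ => Real.log (Wa a n) / n) atTop (𝓝 (max k2 b)) := by
  obtain ⟨b, hb1, hb2⟩ := exists_b a
  refine ⟨b, hb1, ?_⟩
  rw [tendsto_order]
  constructor
  · intro c hc
    rcases lt_max_iff.1 hc with hc | hc
    · -- compare with all walks
      have h0 : Tendsto (fun n : ℕ => (n : ℝ) / (n + 1)) atTop (𝓝 1) :=
        tendsto_natCast_div_add_atTop 1
      have h1 : Tendsto (fun n : ℕ => Real.log (cnt n) / n * ((n : ℝ) / (n + 1)) +
          (a / (n + 1) - (2 * (rr n : ℝ) + 1) * Real.log (n + 1) / n * ((n : ℝ) / (n + 1))))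
          atTop (𝓝 (k2 * 1 + (0 - 0 * 1))) := by
        refine (hk2.mul h0).add (Tendsto.sub ?_ (tendsto_err.mul h0))
        exact tendsto_const_nhds.div_atTop
          (tendsto_atTop_add_const_right _ _ tendsto_natCast_atTop_atTop)
      have h2 : c < k2 * 1 + (0 - 0 * 1) := by linarith
      obtain ⟨N, hN⟩ := eventually_atTop.1 ((h1.eventually_const_lt h2).and
        (eventually_ge_atTop 1))
      refine eventually_atTop.2 ⟨N + 1, fun n hn => ?_⟩
      obtain ⟨m, rfl⟩ : ∃ m, n = m + 1 := ⟨n - 1, by omega⟩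
      obtain ⟨h3, h4⟩ := hN m (by omega)
      have hm : (0 : ℝ) < m := by exact_mod_cast h4
      refine h3.trans_le ?_
      have h5 := Wa_lower a m
      have h6 : Real.log (cnt m) / m * ((m : ℝ) / (m + 1)) +
          (a / (m + 1) - (2 * (rr m : ℝ) + 1) * Real.log (m + 1) / m * ((m : ℝ) / (m + 1))) =
          (a + Real.log (cnt m) - (2 * (rr m : ℝ) + 1) * Real.log (m + 1)) / (m + 1) := by
        field_simp
        ring
      rw [h6]
      push_cast
      gcongr
    · filter_upwards [hb1.eventually_const_lt hc] with n hn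
      refine hn.trans_le ?_
      gcongr
      · exact Un_pos a n
      · exact Un_le_Wa a n
  · intro c hc
    obtain ⟨d, hd1, hd2⟩ := exists_between hc
    have hkd : k2 < d := (le_max_left _ _).trans_lt hd1
    have hbd : b ≤ d := ((le_max_right _ _).trans_lt hd1).le
    obtain ⟨K, hK0, hK⟩ := cnt_bound hk2 hkd
    have h1 : Tendsto (fun n : ℕ => (2 * (rr n : ℝ) + 1) * Real.log (n + 1) / n +
        (d + (b + K) / n)) atTop (𝓝 (0 + (d + 0))) :=
      tendsto_err.add (tendsto_const_nhds.add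
        (tendsto_const_nhds.div_atTop tendsto_natCast_atTop_atTop))
    have h2 : 0 + (d + 0) < c := by linarith
    filter_upwards [h1.eventually_lt_const h2, eventually_ge_atTop 1] with n hn hn1
    have hn' : (0 : ℝ) < n := by exact_mod_cast hn1
    refine lt_of_le_of_lt ?_ hn
    have h3 := Wa_upper a b d K hb2 hbd hK n
    rw [div_le_iff₀ hn']
    refine h3.trans_eq ?_
    field_simp

end Pool.Agent.Ads772.J5d
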