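import Mathlib
import Pool.Agent.Ads772.Defs
set_option autoImplicit false
namespace Pool.Agent.Ads772.J6a


open Filter Topology

theorem _root_.Pool.Agent.Ads772.Nb.symm' {u v : ℤ × ℤ} (h : Nb u v) : Nb v u := by
  unfold Nb at *
  rw [abs_sub_comm u.1 v.1, abs_sub_comm u.2 v.2]; exact h

theorem _root_.Pool.Agent.Ads772.Nb.cases {u v : ℤ × ℤ} (h : Nb u v) :
    v = (u.1 + 1, u.2) ∨ v = (u.1 - 1, u.2) ∨ v = (u.1, u.2 + 1) ∨ v = (u.1, u.2 - 1) := by
  obtain ⟨a, b⟩ := u
  obtain ⟨c, d⟩ := v
  simp only [Nb] at h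
  simp only [Prod.mk.injEq]
  rcases abs_cases (c - a) with ⟨h1, h2⟩ | ⟨h1, h2⟩ <;>
    rcases abs_cases (d - b) with ⟨h3, h4⟩ | ⟨h3, h4⟩ <;> omega

theorem nb_right (x y : ℤ) : Nb (x, y) (x + 1, y) := by simp [Nb]

theorem nb_down (x y : ℤ) : Nb (x, y) (x, y - 1) := by simp [Nb]

theorem _root_.Pool.Agent.Ads772.Anch.X_pos {n : ℕ} {h X s : ℤ} {p : List (ℤ × ℤ)} (hn : 3 ≤ n) (hp : Anch n h X s p) :
    1 ≤ X := by
  have h0 : 0 ≤ X := hp.xlo _ hp.rmem
  by_contra hcon
  have hX : X = 0 := by omega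
  have hcol : ∀ v ∈ p, v.1 = 0 := fun v hv => le_antisymm (by have := hp.xhi v hv; omega)
    (hp.xlo v hv)
  have hl := hp.len
  match p, hp, hl, hcol with
  | [], _, hl, _ => simp at hl; omega
  | [a], _, hl, _ => simp at hl; omega
  | [a, b], _, hl, _ => simp at hl; omega
  | a :: b :: c :: t, hp, hl, hcol =>
    have ha : a = (0, h) := by simpa using hp.first
    have hab : Nb a b := by
      have := hp.chain
      simp only [List.isChain_cons_cons] at this
      exact this.1
    have hb1 := hcol b (by simp)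
    have hb2 := hp.ltop b (by simp) hb1
    have hb : b = (0, h - 1) := by
      rcases hab.cases with h1 | h1 | h1 | h1 <;> rw [ha] at h1 <;> simp only at h1 <;>
        rw [h1] at hb1 hb2 ⊢ <;> simp only at hb1 hb2
      · omega
      · omega
      · omega
    have hlast := hp.last
    have hmem : b ∈ c :: t := by
      rw [hb]
      have h2 : (c :: t).getLast? = some (0, h - 1) := by
        simpa [List.getLast?_cons_cons] using hlast
      exact List.mem_of_getLast? h2
    have hnd := hp.nodup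
    simp only [List.nodup_cons] at hnd
    exact hnd.2.1 hmem

theorem _root_.Pool.Agent.Ads772.Anch.locate {n : ℕ} {h X s : ℤ} {p : List (ℤ × ℤ)} (hn : 3 ≤ n) (hp : Anch n h X s p) :
    ∃ A1 A2 : List (ℤ × ℤ), A1.head? = some (0, h) ∧ A2.getLast? = some (0, h - 1) ∧
      (p = A1 ++ (X, s) :: (X, s - 1) :: A2 ∨ p = A1 ++ (X, s - 1) :: (X, s) :: A2) := by
  have hX := hp.X_pos hn
  obtain ⟨A, B, hAB⟩ := List.append_of_mem hp.rmem
  have hA : A ≠ [] := by
    rintro rfl
    have h1 := hp.first
    rw [hAB] at h1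
    simp at h1
    omega
  have hB : B ≠ [] := by
    rintro rfl
    have h1 := hp.last
    rw [hAB] at h1
    simp at h1
    omega
  obtain ⟨A', a, rfl⟩ := List.eq_nil_or_concat' A |>.resolve_left hA
  obtain ⟨b, B', rfl⟩ := List.exists_cons_of_ne_nil hB
  have hc := hp.chain
  rw [hAB] at hc
  have hau : Nb a (X, s) := by
    rw [List.isChain_append] at hc
    exact hc.2.2 a (by simp) (X, s) (by simp)
  have hub : Nb (X, s) b := by
    rw [List.isChain_append] at hc
    have := hc.2.1
    simp only [List.isChain_cons_cons] at this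
    exact this.1
  have hamem : a ∈ p := by rw [hAB]; simp
  have hbmem : b ∈ p := by rw [hAB]; simp
  have hnd := hp.nodup
  rw [hAB] at hnd
  have hab : a ≠ b := by
    rintro rfl
    have := List.nodup_append.1 hnd
    exact this.2.2 a (by simp) a (by simp) rfl
  have key : ∀ c, Nb (X, s) c → c ∈ p → c = (X - 1, s) ∨ c = (X, s - 1) := by
    intro c hc hcp
    have h1 := hp.xhi c hcp
    have h2 := hp.rtop c hcp
    rcases hc.cases with h3 | h3 | h3 | h3 <;> simp only at h3
    · rw [h3] at h1; simp at h1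
    · exact Or.inl h3
    · rw [h3] at h2; simp at h2
    · exact Or.inr h3
  have hlastp := hp.last
  have hfirstp := hp.first
  rcases key b hub hbmem with hb | hb
  · rcases key a hau.symm' hamem with ha | ha
    · exact absurd (ha.trans hb.symm) hab
    · refine ⟨A', b :: B', ?_, ?_, Or.inr ?_⟩
      · rw [hAB] at hfirstp
        cases A' with
        | nil =>
          simp at hfirstp
          rw [ha] at hfirstp
          simp at hfirstp
          omega
        | cons x A'' => simpa using hfirstp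
      · rw [hAB, List.append_cons] at hlastp
        rw [List.getLast?_append_of_ne_nil _ (by simp)] at hlastp
        exact hlastp
      · rw [hAB, ha]; simp
  · refine ⟨A' ++ [a], B', ?_, ?_, Or.inl ?_⟩
    · rw [hAB] at hfirstp
      rwa [List.head?_append_of_ne_nil _ (by simp)] at hfirstp
    · rw [hAB, List.getLast?_append_of_ne_nil _ (by simp)] at hlastp
      cases B' with
      | nil =>
        simp at hlastp
        rw [hb] at hlastp
        simp at hlastp
        omega
      | cons x B'' =>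
        simpa [List.getLast?_cons_cons] using hlastp
    · rw [hAB, hb]

/-- insertion of a path between two neighbours -/
theorem join_aux {n m : ℕ} {h X s X' s' : ℤ} {p q A1 A2 w : List (ℤ × ℤ)} {e f g1 g2 : ℤ × ℤ}
    (hX : 1 ≤ X) (hp : Anch n h X s p) (hq : Anch m s X' s' q)
    (h1 : A1.head? = some (0, h)) (h2 : A2.getLast? = some (0, h - 1))
    (hpe : p = A1 ++ e :: f :: A2) (hw1 : w.head? = some g1) (hw2 : w.getLast? = some g2)
    (he : Nb e g1) (hf : Nb g2 f) (hwc : w.IsChain Nb)
    (hw : List.Perm w (q.map (fun v => (v.1 + (X + 1), v.2))))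
    (hwq : w.map (fun v => (v.1 - (X + 1), v.2)) = q ∨
      w.map (fun v => (v.1 - (X + 1), v.2)) = q.reverse) :
    ∃ J, Anch (n + m) h (X + X' + 1) s' J ∧ vis J = vis p + vis q ∧
      J.filter (fun v => decide (v.1 ≤ X)) = p ∧
      ((J.filter (fun v => decide (X < v.1))).map (fun v => (v.1 - (X + 1), v.2)) = q ∨
        (J.filter (fun v => decide (X < v.1))).map (fun v => (v.1 - (X + 1), v.2)) = q.reverse) := by
  have hX' : 0 ≤ X' := hq.xlo _ hq.rmem
  have hwm : ∀ v, v ∈ w ↔ ∃ v' ∈ q, (v'.1 + (X + 1), v'.2) = v := by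
    intro v; rw [hw.mem_iff, List.mem_map]
  have hwx : ∀ v ∈ w, X < v.1 := by
    intro v hv
    obtain ⟨v', hv', rfl⟩ := (hwm v).1 hv
    have := hq.xlo v' hv'
    simp only
    omega
  have hA1 : ∀ v ∈ A1, v ∈ p := fun v hv => by rw [hpe]; simp [hv]
  have hA2 : ∀ v ∈ f :: A2, v ∈ p := fun v hv => by rw [hpe]; simp at hv ⊢; tauto
  have hep : e ∈ p := by rw [hpe]; simp
  set J := A1 ++ e :: (w ++ f :: A2) with hJ
  have hJm : ∀ v, v ∈ J ↔ v ∈ p ∨ v ∈ w := by
    intro v; rw [hJ, hpe]; simp; tauto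
  have hJperm : List.Perm J (p ++ w) := by
    rw [hJ, hpe, List.append_assoc]
    refine List.Perm.append_left A1 ?_
    rw [List.cons_append]
    refine List.Perm.cons e ?_
    exact List.perm_append_comm
  have hpc := hp.chain
  rw [hpe, List.isChain_append] at hpc
  obtain ⟨c1, c2, c3⟩ := hpc
  rw [List.isChain_cons_cons] at c2
  have hfilt1 : J.filter (fun v => decide (v.1 ≤ X)) = p := by
    rw [hJ, List.filter_append, List.filter_cons_of_pos (by simpa using hp.xhi e hep),
      List.filter_append]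
    have e1 : w.filter (fun v => decide (v.1 ≤ X)) = [] := by
      rw [List.filter_eq_nil_iff]
      intro v hv; have := hwx v hv; simp; omega
    have e2 : (f :: A2).filter (fun v => decide (v.1 ≤ X)) = f :: A2 := by
      rw [List.filter_eq_self]
      intro v hv; simpa using hp.xhi v (hA2 v hv)
    have e3 : A1.filter (fun v => decide (v.1 ≤ X)) = A1 := by
      rw [List.filter_eq_self]
      intro v hv; simpa using hp.xhi v (hA1 v hv)
    rw [e1, e2, e3, hpe]; simp
  have hfilt2 : J.filter (fun v => decide (X < v.1)) = w := by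
    rw [hJ, List.filter_append, List.filter_cons_of_neg (by
      have := hp.xhi e hep; simp; omega), List.filter_append]
    have e1 : w.filter (fun v => decide (X < v.1)) = w := by
      rw [List.filter_eq_self]
      intro v hv; simpa using hwx v hv
    have e2 : (f :: A2).filter (fun v => decide (X < v.1)) = [] := by
      rw [List.filter_eq_nil_iff]
      intro v hv; have := hp.xhi v (hA2 v hv); simp; omega
    have e3 : A1.filter (fun v => decide (X < v.1)) = [] := by
      rw [List.filter_eq_nil_iff]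
      intro v hv; have := hp.xhi v (hA1 v hv); simp; omega
    rw [e1, e2, e3]; simp
  refine ⟨J, ⟨?_, ?_, ?_, ?_, ?_, ?_, ?_, ?_, ?_, ?_, ?_⟩, ?_, hfilt1, ?_⟩
  · rw [hJperm.length_eq, List.length_append, hw.length_eq, List.length_map, hp.len, hq.len]
  · rw [hJperm.nodup_iff, List.nodup_append]
    refine ⟨hp.nodup, ?_, ?_⟩
    · rw [hw.nodup_iff]
      refine hq.nodup.map ?_
      intro a b hab
      simp only [Prod.mk.injEq] at hab
      exact Prod.ext (by omega) hab.2
    · intro a ha b hb hab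
      have := hp.xhi a ha
      have := hwx b hb
      rw [hab] at *
      omega
  · rw [hJ, List.isChain_append]
    refine ⟨c1, ?_, ?_⟩
    · rw [List.isChain_cons, List.isChain_append]
      refine ⟨?_, hwc, c2.2, ?_⟩
      · intro y hy
        rw [List.head?_append, hw1] at hy
        simp at hy
        rw [← hy]; exact he
      · intro x hx y hy
        rw [hw2] at hx
        simp at hx hy
        rw [← hx, ← hy]; exact hf
    · intro x hx y hy
      simp at hy
      rw [← hy]
      exact c3 x hx e (by simp)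
  · rw [hJ, List.head?_append, h1]; rfl
  · rw [hJ, List.getLast?_append, List.getLast?_cons, List.getLast?_append, List.getLast?_cons, h2]
    simp
  · intro v hv
    rcases (hJm v).1 hv with h3 | h3
    · exact hp.xlo v h3
    · have := hwx v h3; omega
  · intro v hv
    rcases (hJm v).1 hv with h3 | h3
    · have := hp.xhi v h3; omega
    · obtain ⟨v', hv', rfl⟩ := (hwm v).1 h3
      have := hq.xhi v' hv'
      simp only; omega
  · intro v hv
    rcases (hJm v).1 hv with h3 | h3
    · exact hp.ylo v h3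
    · obtain ⟨v', hv', rfl⟩ := (hwm v).1 h3
      exact hq.ylo v' hv'
  · intro v hv hv0
    rcases (hJm v).1 hv with h3 | h3
    · exact hp.ltop v h3 hv0
    · have := hwx v h3; omega
  · rw [hJm]
    right
    rw [hwm]
    exact ⟨(X', s'), hq.rmem, by simp only [Prod.mk.injEq, and_true]; ring⟩
  · intro v hv hv0
    rcases (hJm v).1 hv with h3 | h3
    · have := hp.xhi v h3; omega
    · obtain ⟨v', hv', rfl⟩ := (hwm v).1 h3
      refine hq.rtop v' hv' ?_
      simp only at hv0; omega
  · have h3 : vis J = vis (p ++ w) := hJperm.countP_eq _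
    have h4 : vis w = vis q := by
      have h5 : vis w = vis (q.map (fun v => (v.1 + (X + 1), v.2))) := hw.countP_eq _
      rw [h5, vis, vis, List.countP_map]
      rfl
    rw [h3, ← h4, vis, List.countP_append]
    rfl
  · rw [hfilt2]; exact hwq

/-- Joining two anchored polygons: the second one is placed to the right of the first one, and the
two parallel vertical edges are replaced by two horizontal edges. -/
theorem join_exists (n m : ℕ) (hn : 3 ≤ n) (hm : 2 ≤ m) (h X s X' s' : ℤ) (p q : List (ℤ × ℤ))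
    (hp : Anch n h X s p) (hq : Anch m s X' s' q) :
    ∃ J, Anch (n + m) h (X + X' + 1) s' J ∧ vis J = vis p + vis q ∧
      J.filter (fun v => decide (v.1 ≤ X)) = p ∧
      ((J.filter (fun v => decide (X < v.1))).map (fun v => (v.1 - (X + 1), v.2)) = q ∨
        (J.filter (fun v => decide (X < v.1))).map (fun v => (v.1 - (X + 1), v.2)) = q.reverse) := by
  have hX := hp.X_pos hn
  obtain ⟨A1, A2, h1, h2, h3⟩ := hp.locate hn
  set q' := q.map (fun v => (v.1 + (X + 1), v.2)) with hq'
  have hmap : q'.map (fun v => (v.1 - (X + 1), v.2)) = q := by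
    rw [hq', List.map_map]
    conv_rhs => rw [← List.map_id q]
    refine List.map_congr_left fun v _ => ?_
    simp
  have hhead : q'.head? = some (X + 1, s) := by
    rw [hq', List.head?_map, hq.first]; simp
  have hlast : q'.getLast? = some (X + 1, s - 1) := by
    rw [hq', List.getLast?_map, hq.last]; simp
  have hchain : q'.IsChain Nb := by
    rw [hq', List.isChain_map]
    refine hq.chain.imp fun a b hab => ?_
    unfold Nb at *
    simp only
    have : b.1 + (X + 1) - (a.1 + (X + 1)) = b.1 - a.1 := by ring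
    rw [this]; exact hab
  rcases h3 with h3 | h3
  · exact join_aux hX hp hq h1 h2 h3 hhead hlast (nb_right X s) (nb_right X (s - 1)).symm' hchain
      (List.Perm.refl _) (Or.inl hmap)
  · refine join_aux (w := q'.reverse) hX hp hq h1 h2 h3 (g1 := (X + 1, s - 1)) (g2 := (X + 1, s))
      ?_ ?_ (nb_right X (s - 1)) (nb_right X s).symm' ?_ (List.reverse_perm _) (Or.inr ?_)
    · rw [List.head?_reverse, hlast]
    · rw [List.getLast?_reverse, hhead]
    · rw [List.isChain_reverse]
      exact hchain.imp fun a b hab => hab.symm'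
    · rw [List.map_reverse, hmap]

/-- horizontal reflection -/
def rfx (X : ℤ) (v : ℤ × ℤ) : ℤ × ℤ := (X - v.1, v.2)

theorem rfx_rfx (X : ℤ) (v : ℤ × ℤ) : rfx X (rfx X v) = v := by
  simp [rfx]

theorem rfx_inj (X : ℤ) : Function.Injective (rfx X) := fun a b h => by
  rw [← rfx_rfx X a, h, rfx_rfx]

theorem _root_.Pool.Agent.Ads772.Nb.rfx {u v : ℤ × ℤ} (h : Nb u v) (X : ℤ) : Nb (rfx X u) (rfx X v) := by
  unfold Nb at *
  simp only [Pool.Agent.Ads772.J6a.rfx]
  have : X - v.1 - (X - u.1) = -(v.1 - u.1) := by ring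
  rw [this, abs_neg]; exact h

/-- mirror relation -/
def Mir (h X s : ℤ) (p t : List (ℤ × ℤ)) : Prop :=
  ∃ A1 A2 : List (ℤ × ℤ), A1.head? = some (0, h) ∧ A2.getLast? = some (0, h - 1) ∧
    ((p = A1 ++ (X, s) :: (X, s - 1) :: A2 ∧
        t = ((X, s) :: (A1.reverse ++ A2.reverse) ++ [(X, s - 1)]).map (rfx X)) ∨
      (p = A1 ++ (X, s - 1) :: (X, s) :: A2 ∧
        t = ((X, s) :: (A2 ++ A1) ++ [(X, s - 1)]).map (rfx X)))

theorem Mir.aux {n : ℕ} {h X s : ℤ} {p t0 : List (ℤ × ℤ)} (hp : Anch n h X s p)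
    (hperm : List.Perm t0 p) (hc : t0.IsChain Nb) (h1 : t0.head? = some (X, s))
    (h2 : t0.getLast? = some (X, s - 1)) :
    Anch n s X h (t0.map (rfx X)) ∧ vis (t0.map (rfx X)) = vis p ∧
      ((∃ v ∈ p, v.2 = 0) → ∃ v ∈ t0.map (rfx X), v.2 = 0) := by
  have hm : ∀ v, v ∈ t0.map (rfx X) ↔ ∃ v' ∈ p, rfx X v' = v := by
    intro v; rw [List.mem_map]
    constructor
    · rintro ⟨a, ha, rfl⟩; exact ⟨a, hperm.mem_iff.1 ha, rfl⟩
    · rintro ⟨a, ha, rfl⟩; exact ⟨a, hperm.mem_iff.2 ha, rfl⟩
  refine ⟨⟨?_, ?_, ?_, ?_, ?_, ?_, ?_, ?_, ?_, ?_, ?_⟩, ?_, ?_⟩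
  · rw [List.length_map, hperm.length_eq, hp.len]
  · exact (hperm.nodup_iff.2 hp.nodup).map (rfx_inj X)
  · rw [List.isChain_map]
    exact hc.imp fun a b hab => hab.rfx X
  · rw [List.head?_map, h1]; simp [rfx]
  · rw [List.getLast?_map, h2]; simp [rfx]
  · intro v hv
    obtain ⟨v', hv', rfl⟩ := (hm v).1 hv
    have := hp.xhi v' hv'
    simp only [Pool.Agent.Ads772.J6a.rfx]; omega
  · intro v hv
    obtain ⟨v', hv', rfl⟩ := (hm v).1 hv
    have := hp.xlo v' hv'
    simp only [Pool.Agent.Ads772.J6a.rfx]; omega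
  · intro v hv
    obtain ⟨v', hv', rfl⟩ := (hm v).1 hv
    exact hp.ylo v' hv'
  · intro v hv hv0
    obtain ⟨v', hv', rfl⟩ := (hm v).1 hv
    refine hp.rtop v' hv' ?_
    simp only [Pool.Agent.Ads772.J6a.rfx] at hv0; omega
  · rw [hm]
    exact ⟨(0, h), List.mem_of_mem_head? hp.first, by simp [rfx]⟩
  · intro v hv hv0
    obtain ⟨v', hv', rfl⟩ := (hm v).1 hv
    refine hp.ltop v' hv' ?_
    simp only [Pool.Agent.Ads772.J6a.rfx] at hv0; omega
  · rw [vis, List.countP_map]
    exact hperm.countP_eq _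
  · rintro ⟨v, hv, hv0⟩
    exact ⟨rfx X v, (hm _).2 ⟨v, hv, rfl⟩, hv0⟩

theorem Mir.spec {n : ℕ} {h X s : ℤ} {p t : List (ℤ × ℤ)} (hp : Anch n h X s p)
    (ht : Mir h X s p t) : Anch n s X h t ∧ vis t = vis p ∧
      ((∃ v ∈ p, v.2 = 0) → ∃ v ∈ t, v.2 = 0) := by
  obtain ⟨A1, A2, h1, h2, h3⟩ := ht
  have hA1 : A1 ≠ [] := by rintro rfl; simp at h1
  have hA2 : A2 ≠ [] := by rintro rfl; simp at h2
  have hpc := hp.chain
  rcases h3 with ⟨h3, rfl⟩ | ⟨h3, rfl⟩
  · rw [h3, List.isChain_append] at hpc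
    obtain ⟨c1, c2, c3⟩ := hpc
    rw [List.isChain_cons_cons, List.isChain_cons] at c2
    obtain ⟨c4, c5, c6⟩ := c2
    refine Mir.aux hp ?_ ?_ ?_ ?_
    · rw [h3]
      have e1 : List.Perm ((X, s) :: (A1.reverse ++ A2.reverse) ++ [(X, s - 1)])
          ((X, s) :: (A1 ++ A2) ++ [(X, s - 1)]) :=
        List.Perm.append_right _ (List.Perm.cons _
          ((List.reverse_perm A1).append (List.reverse_perm A2)))
      refine e1.trans ?_
      rw [List.perm_iff_count]
      intro a
      simp only [List.count_cons, List.count_append, List.count_nil]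
      omega
    · rw [List.cons_append, List.isChain_cons, List.isChain_append, List.isChain_append]
      refine ⟨?_, ⟨?_, ?_, ?_⟩, List.isChain_singleton _, ?_⟩
      · intro y hy
        rw [List.append_assoc, List.head?_append_of_ne_nil _ (by simpa using hA1),
          List.head?_reverse] at hy
        exact (c3 y hy (X, s) (by simp)).symm'
      · rw [List.isChain_reverse]; exact c1.imp fun a b hab => hab.symm'
      · rw [List.isChain_reverse]; exact c6.imp fun a b hab => hab.symm'
      · intro x hx y hy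
        rw [List.getLast?_reverse, h1] at hx
        rw [List.head?_reverse, h2] at hy
        simp at hx hy
        rw [← hx, ← hy]; exact nb_down 0 h
      · intro x hx y hy
        rw [List.getLast?_append_of_ne_nil _ (by simpa using hA2), List.getLast?_reverse] at hx
        simp at hy
        rw [← hy]
        exact (c5 x hx).symm'
    · simp
    · rw [List.getLast?_append_of_ne_nil _ (by simp)]; simp
  · rw [h3, List.isChain_append] at hpc
    obtain ⟨c1, c2, c3⟩ := hpc
    rw [List.isChain_cons_cons, List.isChain_cons] at c2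
    obtain ⟨c4, c5, c6⟩ := c2
    refine Mir.aux hp ?_ ?_ ?_ ?_
    · rw [h3, List.perm_iff_count]
      intro a
      simp only [List.count_cons, List.count_append, List.count_nil]
      omega
    · rw [List.cons_append, List.isChain_cons, List.isChain_append, List.isChain_append]
      refine ⟨?_, ⟨c6, c1, ?_⟩, List.isChain_singleton _, ?_⟩
      · intro y hy
        rw [List.append_assoc, List.head?_append_of_ne_nil _ hA2] at hy
        exact c5 y hy
      · intro x hx y hy
        rw [h2] at hx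
        rw [h1] at hy
        simp at hx hy
        rw [← hx, ← hy]; exact (nb_down 0 h).symm'
      · intro x hx y hy
        rw [List.getLast?_append_of_ne_nil _ hA1] at hx
        simp at hy
        rw [← hy]
        exact c3 x hx (X, s - 1) (by simp)
    · simp
    · rw [List.getLast?_append_of_ne_nil _ (by simp)]; simp

theorem nodup_split {α : Type*} {a : α} : ∀ {P P' R R' : List α}, (P ++ a :: R).Nodup →
    P ++ a :: R = P' ++ a :: R' → P = P' ∧ R = R'
  | [], [], R, R', _, h => by simpa using h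
  | [], b :: P', R, R', hnd, h => by
    simp only [List.nil_append, List.cons_append, List.cons.injEq] at h
    rw [List.nil_append, List.nodup_cons] at hnd
    exact absurd (by rw [h.2]; simp) hnd.1
  | b :: P, [], R, R', hnd, h => by
    simp only [List.nil_append, List.cons_append, List.cons.injEq] at h
    rw [List.cons_append, List.nodup_cons] at hnd
    exact absurd (by rw [h.1]; simp) hnd.1
  | b :: P, c :: P', R, R', hnd, h => by
    simp only [List.cons_append, List.cons.injEq] at h
    rw [List.cons_append, List.nodup_cons] at hnd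
    obtain ⟨h1, h2⟩ := nodup_split hnd.2 h.2
    rw [h.1, h1, h2]; simp

theorem head_split {α : Type*} {a : α} {L : List α} (h : L.head? = some a) : ∃ R, L = a :: R := by
  cases L with
  | nil => simp at h
  | cons x t => simp at h; exact ⟨t, by rw [h]⟩

theorem last_split {α : Type*} {a : α} {L : List α} (h : L.getLast? = some a) :
    ∃ R, L = R ++ [a] := by
  rcases List.eq_nil_or_concat' L with rfl | ⟨R, b, rfl⟩
  · simp at h
  · simp at h; exact ⟨R, by rw [h]⟩

theorem core_unique {h : ℤ} {A1 A2 B1 B2 : List (ℤ × ℤ)} (hnd : (A2 ++ A1).Nodup)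
    (h1 : A1.head? = some (0, h)) (h3 : B1.head? = some (0, h)) (he : A2 ++ A1 = B2 ++ B1) :
    A1 = B1 ∧ A2 = B2 := by
  obtain ⟨R, rfl⟩ := head_split h1
  obtain ⟨R', rfl⟩ := head_split h3
  obtain ⟨h5, h6⟩ := nodup_split hnd he
  rw [h5, h6]; simp

theorem core_conflict {h : ℤ} {A1 A2 B1 B2 : List (ℤ × ℤ)} (hnd : (B2 ++ B1).Nodup)
    (h1 : A1.head? = some (0, h)) (h2 : A2.getLast? = some (0, h - 1))
    (h3 : B1.head? = some (0, h)) (h4 : B2.getLast? = some (0, h - 1))
    (he : A1.reverse ++ A2.reverse = B2 ++ B1) : False := by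
  obtain ⟨R, rfl⟩ := head_split h1
  obtain ⟨S, rfl⟩ := last_split h2
  obtain ⟨R', rfl⟩ := head_split h3
  obtain ⟨S', rfl⟩ := last_split h4
  have he2 : (S' ++ [(0, h - 1)]) ++ (0, h) :: R' = R.reverse ++ (0, h) :: ((0, h - 1) :: S.reverse) := by
    rw [← he]; simp
  obtain ⟨h5, h6⟩ := nodup_split hnd he2
  rw [h6] at hnd
  have := List.nodup_append.1 hnd
  exact this.2.2 (0, h - 1) (by simp) (0, h - 1) (by simp) rfl

theorem Mir.inj {n : ℕ} {h X s : ℤ} {p p' t : List (ℤ × ℤ)} (hp : Anch n h X s p)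
    (hp' : Anch n h X s p') (ht : Mir h X s p t) (ht' : Mir h X s p' t) : p = p' := by
  obtain ⟨A1, A2, h1, h2, h3⟩ := ht
  obtain ⟨B1, B2, h4, h5, h6⟩ := ht'
  have nd1 : ∀ {e f : ℤ × ℤ} {C1 C2 p : List (ℤ × ℤ)}, p.Nodup → p = C1 ++ e :: f :: C2 →
      (C2 ++ C1).Nodup := by
    intro e f C1 C2 p hnd hpe
    rw [hpe] at hnd
    have hs : List.Sublist (C1 ++ C2) (C1 ++ e :: f :: C2) :=
      (List.Sublist.refl C1).append ((List.sublist_cons_self f C2).trans
        (List.sublist_cons_self e _))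
    have := hnd.sublist hs
    rwa [List.perm_append_comm.nodup_iff] at this
  have cancel : ∀ {K K' : List (ℤ × ℤ)},
      ((X, s) :: K ++ [(X, s - 1)]).map (rfx X) = ((X, s) :: K' ++ [(X, s - 1)]).map (rfx X) →
      K = K' := by
    intro K K' hK
    have h7 := (List.map_injective_iff.2 (rfx_inj X)) hK
    simpa using h7
  rcases h3 with ⟨h3, h7⟩ | ⟨h3, h7⟩ <;> rcases h6 with ⟨h6, h8⟩ | ⟨h6, h8⟩ <;> rw [h7] at h8
  · have h9 := cancel h8
    have h10 : A2 ++ A1 = B2 ++ B1 := by
      have := congrArg List.reverse h9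
      simpa using this
    obtain ⟨h11, h12⟩ := core_unique (nd1 hp.nodup h3) h1 h4 h10
    rw [h3, h6, h11, h12]
  · exact (core_conflict (nd1 hp'.nodup h6) h1 h2 h4 h5 (cancel h8)).elim
  · exact (core_conflict (nd1 hp.nodup h3) h4 h5 h1 h2 (cancel h8).symm).elim
  · obtain ⟨h11, h12⟩ := core_unique (nd1 hp.nodup h3) h1 h4 (cancel h8)
    rw [h3, h6, h11, h12]

theorem _root_.Pool.Agent.Ads772.Anch.X_unique {n : ℕ} {h h' X X' s s' : ℤ} {p : List (ℤ × ℤ)} (hp : Anch n h X s p)
    (hp' : Anch n h' X' s' p) : X = X' := by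
  have h1 := hp.xhi _ hp'.rmem
  have h2 := hp'.xhi _ hp.rmem
  simp only at h1 h2
  omega

/-- Reflection of an anchored polygon. -/
theorem mirror_exists (n : ℕ) (hn : 3 ≤ n) (h s : ℤ) :
    ∃ T : List (ℤ × ℤ) → List (ℤ × ℤ),
      (∀ X p, Anch n h X s p → Anch n s X h (T p) ∧ vis (T p) = vis p ∧
        ((∃ v ∈ p, v.2 = 0) → ∃ v ∈ T p, v.2 = 0)) ∧
      (∀ X X' p p', Anch n h X s p → Anch n h X' s p' → T p = T p' → p = p') := by
  classical
  have hex : ∀ p, ∃ t, ∀ X, Anch n h X s p → Mir h X s p t := by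
    intro p
    by_cases hX : ∃ X, Anch n h X s p
    · obtain ⟨X, hp⟩ := hX
      obtain ⟨A1, A2, h1, h2, h3⟩ := hp.locate hn
      rcases h3 with h3 | h3
      · refine ⟨((X, s) :: (A1.reverse ++ A2.reverse) ++ [(X, s - 1)]).map (rfx X), fun X' hp' => ?_⟩
        rw [← hp.X_unique hp']
        exact ⟨A1, A2, h1, h2, Or.inl ⟨h3, rfl⟩⟩
      · refine ⟨((X, s) :: (A2 ++ A1) ++ [(X, s - 1)]).map (rfx X), fun X' hp' => ?_⟩
        rw [← hp.X_unique hp']
        exact ⟨A1, A2, h1, h2, Or.inr ⟨h3, rfl⟩⟩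
    · exact ⟨[], fun X hp => absurd ⟨X, hp⟩ hX⟩
  choose T hT using hex
  refine ⟨T, fun X p hp => Mir.spec hp (hT p X hp), fun X X' p p' hp hp' he => ?_⟩
  have a1 := (Mir.spec hp (hT p X hp)).1
  have a2 := (Mir.spec hp' (hT p' X' hp')).1
  rw [he] at a1
  have hXX : X = X' := a1.X_unique a2
  subst hXX
  have b1 := hT p X hp
  rw [he] at b1
  exact Mir.inj hp hp' b1 (hT p' X hp')

end Pool.Agent.Ads772.J6a
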