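import Mathlib
import Pool.Agent.Ads772.Defs
import Pool.Agent.Ads772.J1
import Pool.Agent.Ads772.J6a
set_option autoImplicit false
namespace Pool.Agent.Ads772.J6b

open Pool.Agent.Ads772.J1 (mem_anch)
open Pool.Agent.Ads772.J6a (join_exists mirror_exists)

open Filter Topology

/-! Given results (proved elsewhere, use as black boxes). -/

/-! Targets. -/

theorem sum_le_of_inj {α β : Type} (S : Finset α) (T : Finset β) (f : α → ℝ) (g : β → ℝ)
    (φ : α → β) (hφ : ∀ x ∈ S, φ x ∈ T) (hinj : ∀ x ∈ S, ∀ y ∈ S, φ x = φ y → x = y)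
    (hfg : ∀ x ∈ S, f x ≤ g (φ x)) (hg : ∀ y ∈ T, 0 ≤ g y) : ∑ x ∈ S, f x ≤ ∑ y ∈ T, g y := by
  classical
  calc ∑ x ∈ S, f x ≤ ∑ x ∈ S, g (φ x) := Finset.sum_le_sum hfg
    _ = ∑ y ∈ S.image φ, g y := by
        rw [Finset.sum_image]
        intro x hx y hy h
        exact hinj x hx y hy h
    _ ≤ ∑ y ∈ T, g y := by
        refine Finset.sum_le_sum_of_subset_of_nonneg ?_ (fun y hy _ => hg y hy)
        intro y hy
        obtain ⟨x, hx, rfl⟩ := Finset.mem_image.mp hy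
        exact hφ x hx

theorem anch_width (m : ℕ) (s s' : ℤ) (q : List (ℤ × ℤ)) (hq : q ∈ anch m s s') (X' : ℤ)
    (h : Anch m s X' s' q) : 0 ≤ X' ∧ X' ≤ m := by
  classical
  refine ⟨h.xlo _ h.rmem, ?_⟩
  unfold anch at hq
  obtain ⟨f, hf, hfq⟩ := Finset.mem_image.mp (Finset.mem_filter.mp hq).1
  have hr := h.rmem
  rw [← hfq, List.mem_ofFn] at hr
  obtain ⟨i, hi⟩ := hr
  rw [Fintype.mem_piFinset] at hf
  have h1 := hf i
  rw [Finset.mem_product] at h1
  have h2 := (Finset.mem_Icc.mp h1.1).2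
  rw [hi] at h2
  exact h2

theorem head_rev (m : ℕ) (s X' s' : ℤ) (q : List (ℤ × ℤ)) (h : Anch m s X' s' q) :
    q.reverse.head? = some (0, s - 1) := by
  rw [List.head?_reverse]; exact h.last

theorem At_mul (a : ℝ) (n m : ℕ) (hn : 3 ≤ n) (hm : 2 ≤ m) (h s s' : ℤ) :
    At a n h s * (∑ q ∈ anch m s s', Real.exp (a * vis q)) ≤ ((m : ℝ) + 1) * At a (n + m) h s' := by
  classical
  have W : ∀ (k : ℕ) (u v : ℤ) (p : List (ℤ × ℤ)), ∃ X, p ∈ anch k u v → Anch k u X v p := by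
    intro k u v p
    by_cases hp : p ∈ anch k u v
    · obtain ⟨X, hX⟩ := (mem_anch k u v p).mp hp
      exact ⟨X, fun _ => hX⟩
    · exact ⟨0, fun h => absurd h hp⟩
  choose X hX using W
  have JJ : ∀ (p q : List (ℤ × ℤ)), ∃ J, (p ∈ anch n h s → q ∈ anch m s s' →
      Anch (n + m) h (X n h s p + X m s s' q + 1) s' J ∧ vis J = vis p + vis q ∧
      J.filter (fun v => decide (v.1 ≤ X n h s p)) = p ∧
      ((J.filter (fun v => decide (X n h s p < v.1))).map
          (fun v => (v.1 - (X n h s p + 1), v.2)) = q ∨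
        (J.filter (fun v => decide (X n h s p < v.1))).map
          (fun v => (v.1 - (X n h s p + 1), v.2)) = q.reverse)) := by
    intro p q
    by_cases hp : p ∈ anch n h s
    · by_cases hq : q ∈ anch m s s'
      · obtain ⟨J, hJ⟩ := join_exists n m hn hm h _ s _ s' p q (hX _ _ _ _ hp) (hX _ _ _ _ hq)
        exact ⟨J, fun _ _ => hJ⟩
      · exact ⟨[], fun _ h2 => absurd h2 hq⟩
    · exact ⟨[], fun h1 _ => absurd h1 hp⟩
  choose J hJ using JJ
  unfold At
  rw [Finset.sum_mul_sum, ← Finset.sum_product', Finset.mul_sum]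
  set B := (anch (n + m) h s').filter (fun p => ∃ v ∈ p, v.2 = 0) with hB
  have e1 : ∑ p ∈ B, ((m : ℝ) + 1) * Real.exp (a * vis p) =
      ∑ x ∈ B ×ˢ Finset.range (m + 1), Real.exp (a * vis x.1) := by
    rw [Finset.sum_product]
    refine Finset.sum_congr rfl (fun p _ => ?_)
    simp
  rw [e1]
  refine sum_le_of_inj _ _ _ _ (fun x => (J x.1 x.2, (X m s s' x.2).toNat)) ?_ ?_ ?_ ?_
  · rintro ⟨p, q⟩ hx
    rw [Finset.mem_product, Finset.mem_filter] at hx
    obtain ⟨⟨hp, v, hv, hv0⟩, hq⟩ := hx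
    simp only at hp hv hq
    obtain ⟨j1, j2, j3, j4⟩ := hJ p q hp hq
    have hw := anch_width m s s' q hq _ (hX _ _ _ _ hq)
    simp only
    rw [Finset.mem_product, hB, Finset.mem_filter]
    refine ⟨⟨(mem_anch _ _ _ _).mpr ⟨_, j1⟩, v, ?_, hv0⟩, ?_⟩
    · rw [← j3] at hv
      exact List.mem_of_mem_filter hv
    · rw [Finset.mem_range]
      simp only
      omega
  · rintro ⟨p, q⟩ hx ⟨p', q'⟩ hx' he
    rw [Finset.mem_product, Finset.mem_filter] at hx hx'
    obtain ⟨⟨hp, -⟩, hq⟩ := hx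
    obtain ⟨⟨hp', -⟩, hq'⟩ := hx'
    simp only at hp hq hp' hq'
    simp only [Prod.mk.injEq] at he
    obtain ⟨e1, e2⟩ := he
    obtain ⟨j1, j2, j3, j4⟩ := hJ p q hp hq
    obtain ⟨k1, k2, k3, k4⟩ := hJ p' q' hp' hq'
    have w1 := anch_width m s s' q hq _ (hX _ _ _ _ hq)
    have w2 := anch_width m s s' q' hq' _ (hX _ _ _ _ hq')
    have hXq : X m s s' q = X m s s' q' := by omega
    rw [← e1, ← hXq] at k1
    have hXp : X n h s p = X n h s p' := by
      have a1 := k1.xhi _ j1.rmem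
      have a2 := j1.xhi _ k1.rmem
      simp only at a1 a2
      omega
    rw [← e1, ← hXp] at k3 k4
    have hpp : p = p' := by rw [← j3, k3]
    have hqq : q = q' := by
      have f1 := (hX _ _ _ _ hq).first
      have f2 := (hX _ _ _ _ hq').first
      have r1 := head_rev _ _ _ _ _ (hX _ _ _ _ hq)
      have r2 := head_rev _ _ _ _ _ (hX _ _ _ _ hq')
      rcases j4 with j4 | j4 <;> rcases k4 with k4 | k4
      · rw [← j4, k4]
      · exfalso
        rw [j4] at k4
        rw [← k4, f1] at r2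
        simp only [Option.some.injEq, Prod.mk.injEq, true_and] at r2
        omega
      · exfalso
        rw [j4] at k4
        rw [k4, f2] at r1
        simp only [Option.some.injEq, Prod.mk.injEq, true_and] at r1
        omega
      · rw [j4] at k4
        exact List.reverse_injective k4
    rw [hpp, hqq]
  · rintro ⟨p, q⟩ hx
    rw [Finset.mem_product, Finset.mem_filter] at hx
    obtain ⟨⟨hp, -⟩, hq⟩ := hx
    simp only at hp hq
    obtain ⟨j1, j2, j3, j4⟩ := hJ p q hp hq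
    simp only
    rw [j2, ← Real.exp_add]
    apply le_of_eq
    congr 1
    push_cast
    ring
  · intro y _
    exact (Real.exp_pos _).le

theorem At_symm (a : ℝ) (n : ℕ) (hn : 3 ≤ n) (h s : ℤ) : At a n h s ≤ At a n s h := by
  obtain ⟨T, hT1, hT2⟩ := mirror_exists n hn h s
  unfold At
  refine sum_le_of_inj _ _ _ _ T ?_ ?_ ?_ ?_
  · intro p hp
    rw [Finset.mem_filter] at hp ⊢
    obtain ⟨X, hX⟩ := (mem_anch _ _ _ _).mp hp.1
    obtain ⟨t1, t2, t3⟩ := hT1 X p hX
    exact ⟨(mem_anch _ _ _ _).mpr ⟨X, t1⟩, t3 hp.2⟩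
  · intro p hp p' hp' he
    rw [Finset.mem_filter] at hp hp'
    obtain ⟨X, hX⟩ := (mem_anch _ _ _ _).mp hp.1
    obtain ⟨X', hX'⟩ := (mem_anch _ _ _ _).mp hp'.1
    exact hT2 X X' p p' hX hX' he
  · intro p hp
    rw [Finset.mem_filter] at hp
    obtain ⟨X, hX⟩ := (mem_anch _ _ _ _).mp hp.1
    obtain ⟨t1, t2, t3⟩ := hT1 X p hX
    rw [t2]
  · intro y _
    exact (Real.exp_pos _).le

end Pool.Agent.Ads772.J6b
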