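import Mathlib
import Pool.Agent.Ads772.Defs
import Pool.Agent.Ads772.J1
set_option autoImplicit false
namespace Pool.Agent.Ads772.J6d

open Pool.Agent.Ads772.J1 (chain_dist cnt_le mem_anch mem_polys mem_walks)

open Filter Topology

/-! Given results (proved elsewhere, use as black boxes). -/

/-! Helper lemmas. -/

theorem _root_.Pool.Agent.Ads772.Nb.symmD {u v : ℤ × ℤ} (h : Nb u v) : Nb v u := by
  unfold Nb at *
  rw [abs_sub_comm, abs_sub_comm u.2 v.2]
  exact h

theorem nb_cases {u v : ℤ × ℤ} (h : Nb u v) :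
    v = (u.1 + 1, u.2) ∨ v = (u.1 - 1, u.2) ∨ v = (u.1, u.2 + 1) ∨ v = (u.1, u.2 - 1) := by
  obtain ⟨a, b⟩ := u
  obtain ⟨c, d⟩ := v
  unfold Nb at h
  simp only [Prod.mk.injEq] at *
  have h1 := abs_nonneg (c - a)
  have h2 := abs_nonneg (d - b)
  rcases abs_cases (c - a) with ⟨e1, f1⟩ | ⟨e1, f1⟩ <;>
  rcases abs_cases (d - b) with ⟨e2, f2⟩ | ⟨e2, f2⟩ <;> omega

/-- closed chains -/
def Cyc (l : List (ℤ × ℤ)) : Prop :=
  l.IsChain Nb ∧ ∀ u v, l.head? = some u → l.getLast? = some v → Nb v u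

theorem Cyc.rotate_one {l : List (ℤ × ℤ)} (h : Cyc l) (hl : 2 ≤ l.length) : Cyc (l.rotate 1) := by
  obtain ⟨h1, h2⟩ := h
  match l, hl with
  | a :: b :: t, _ =>
    rw [List.rotate_cons_succ, List.rotate_zero]
    rw [List.isChain_cons_cons] at h1
    have h3 : Nb ((b :: t).getLast (by simp)) a := by
      refine h2 a _ rfl ?_
      rw [List.getLast?_cons_cons, List.getLast?_eq_getLast_of_ne_nil (by simp)]
    refine ⟨?_, ?_⟩
    · rw [List.isChain_append]
      refine ⟨h1.2, List.isChain_singleton _, ?_⟩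
      intro x hx y hy
      rw [List.getLast?_eq_getLast_of_ne_nil (by simp)] at hx
      simp only [Option.mem_def, Option.some.injEq, List.head?_cons] at hx hy
      rw [← hx, ← hy]
      exact h3
    · intro u v hu hv
      simp only [List.cons_append, List.head?_cons, Option.some.injEq] at hu
      simp only [List.getLast?_append, List.getLast?_singleton, Option.some_or,
        Option.some.injEq] at hv
      rw [← hu, ← hv]
      exact h1.1

theorem Cyc.rotate {l : List (ℤ × ℤ)} (h : Cyc l) (hl : 2 ≤ l.length) (k : ℕ) :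
    Cyc (l.rotate k) := by
  induction k with
  | zero => simpa using h
  | succ k ih =>
    rw [← List.rotate_rotate]
    exact Cyc.rotate_one ih (by rwa [List.length_rotate])

theorem Cyc.rot {l l' : List (ℤ × ℤ)} (h : Cyc l) (hl : 2 ≤ l.length) (hr : l ~r l') :
    Cyc l' := by
  obtain ⟨k, rfl⟩ := hr
  exact h.rotate hl k

theorem Cyc.reverse {l : List (ℤ × ℤ)} (h : Cyc l) : Cyc l.reverse := by
  refine ⟨?_, ?_⟩
  · rw [List.isChain_reverse]
    exact h.1.imp fun a b hab => hab.symmD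
  · intro u v hu hv
    rw [List.head?_reverse] at hu
    rw [List.getLast?_reverse] at hv
    exact (h.2 v u hv hu).symmD

/-- horizontal translation -/
def tr (c : ℤ) (l : List (ℤ × ℤ)) : List (ℤ × ℤ) := l.map fun v => (v.1 + c, v.2)

theorem tr_tr (c d : ℤ) (l : List (ℤ × ℤ)) : tr c (tr d l) = tr (d + c) l := by
  simp [tr, Function.comp_def, add_assoc]

theorem tr_zero (l : List (ℤ × ℤ)) : tr 0 l = l := by
  simp [tr]

theorem tr_length (c : ℤ) (l : List (ℤ × ℤ)) : (tr c l).length = l.length := by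
  simp [tr]

theorem tr_nodup {c : ℤ} {l : List (ℤ × ℤ)} : (tr c l).Nodup ↔ l.Nodup := by
  unfold tr
  rw [List.nodup_map_iff]
  rintro ⟨a, b⟩ ⟨a', b'⟩ h
  simp only [Prod.mk.injEq, add_left_inj] at h
  rw [h.1, h.2]

theorem tr_vis (c : ℤ) (l : List (ℤ × ℤ)) : vis (tr c l) = vis l := by
  unfold vis tr
  rw [List.countP_map]
  rfl

theorem mem_tr {c : ℤ} {l : List (ℤ × ℤ)} {v : ℤ × ℤ} : v ∈ tr c l ↔ (v.1 - c, v.2) ∈ l := by
  unfold tr
  rw [List.mem_map]
  constructor
  · rintro ⟨w, hw, rfl⟩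
    simpa using hw
  · intro h
    exact ⟨_, h, by simp⟩

theorem tr_head (c : ℤ) (l : List (ℤ × ℤ)) :
    (tr c l).head? = l.head?.map fun v => (v.1 + c, v.2) := by
  unfold tr
  rw [List.head?_map]

theorem tr_last (c : ℤ) (l : List (ℤ × ℤ)) :
    (tr c l).getLast? = l.getLast?.map fun v => (v.1 + c, v.2) := by
  unfold tr
  rw [List.getLast?_map]

theorem tr_chain {c : ℤ} {l : List (ℤ × ℤ)} (h : l.IsChain Nb) : (tr c l).IsChain Nb := by
  unfold tr
  rw [List.isChain_map]
  refine h.imp fun a b hab => ?_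
  unfold Nb at *
  simpa using hab

theorem tr_cyc {c : ℤ} {l : List (ℤ × ℤ)} (h : Cyc l) : Cyc (tr c l) := by
  refine ⟨tr_chain h.1, ?_⟩
  intro u v hu hv
  rw [tr_head] at hu
  rw [tr_last] at hv
  rw [Option.map_eq_some_iff] at hu hv
  obtain ⟨u', hu', rfl⟩ := hu
  obtain ⟨v', hv', rfl⟩ := hv
  have := h.2 u' v' hu' hv'
  unfold Nb at *
  simpa using this

theorem tr_rotate (c : ℤ) (l : List (ℤ × ℤ)) (k : ℕ) : (tr c l).rotate k = tr c (l.rotate k) := by
  unfold tr
  rw [List.map_rotate]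

theorem tr_reverse (c : ℤ) (l : List (ℤ × ℤ)) : (tr c l).reverse = tr c l.reverse := by
  unfold tr
  rw [List.map_reverse]

theorem vis_perm {l l' : List (ℤ × ℤ)} (h : l.Perm l') : vis l = vis l' := h.countP_eq _

theorem mem_polys_iff (n : ℕ) (hn : 1 ≤ n) (l : List (ℤ × ℤ)) :
    l ∈ polys n ↔ l.length = n ∧ l.head? = some (0, 0) ∧ l.Nodup ∧ Cyc l := by
  rw [mem_polys]
  constructor
  · rintro ⟨h1, h2, h3, h4, v, h5, h6⟩
    refine ⟨h1, h2, h3, h4, ?_⟩
    intro u w hu hw
    rw [h2] at hu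
    rw [h5] at hw
    simp only [Option.some.injEq] at hu hw
    rw [← hu, ← hw]
    exact h6
  · rintro ⟨h1, h2, h3, h4⟩
    refine ⟨h1, h2, h3, h4.1, ?_⟩
    have hne : l ≠ [] := by
      rintro rfl
      simp at h1
      omega
    refine ⟨l.getLast hne, List.getLast?_eq_getLast_of_ne_nil hne, ?_⟩
    exact h4.2 _ _ h2 (List.getLast?_eq_getLast_of_ne_nil hne)

theorem exists_rot_head {l : List (ℤ × ℤ)} {t : ℤ × ℤ} (ht : t ∈ l) : ∃ s, l ~r (t :: s) := by
  obtain ⟨a, b, rfl⟩ := List.append_of_mem ht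
  exact ⟨b ++ a, by simpa using (List.isRotated_append : (a ++ t :: b) ~r (t :: b ++ a))⟩

/-- the two neighbours of a corner vertex -/
theorem corner {l : List (ℤ × ℤ)} (hnd : l.Nodup) (hc : Cyc l) (hlen : 3 ≤ l.length)
    {t w1 w2 : ℤ × ℤ} (ht : t ∈ l) (hw : ∀ v ∈ l, Nb t v → v = w1 ∨ v = w2) :
    ∃ p, (l ~r p ∨ l ~r p.reverse) ∧ p.head? = some t ∧ p.getLast? = some w2 ∧ Cyc p ∧
      p.Nodup ∧ p.length = l.length ∧ (∀ v, v ∈ p ↔ v ∈ l) ∧ vis p = vis l := by
  obtain ⟨s, hs⟩ := exists_rot_head ht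
  have hc' := hc.rot (by omega) hs
  have hlen' : (t :: s).length = l.length := hs.perm.length_eq.symm
  have hnd' : (t :: s).Nodup := hs.nodup_iff.1 hnd
  match s, hs, hc', hlen', hnd' with
  | [], _, _, hlen', _ => simp at hlen'; omega
  | [b], _, _, hlen', _ => simp at hlen'; omega
  | b :: c :: r, hs, hc', hlen', hnd' =>
    have hlast : (t :: b :: c :: r).getLast? = some ((c :: r).getLast (by simp)) := by
      rw [List.getLast?_cons_cons, List.getLast?_cons_cons,
        List.getLast?_eq_getLast_of_ne_nil (by simp)]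
    set z := (c :: r).getLast (by simp) with hz
    have hzmem : z ∈ c :: r := List.getLast_mem _
    have hbz : b ≠ z := by
      intro h
      have h1 := (List.nodup_cons.1 (List.nodup_cons.1 hnd').2).1
      exact h1 (h ▸ hzmem)
    have hzl : z ∈ l := by
      rw [hs.mem_iff]
      exact List.mem_cons_of_mem _ (List.mem_cons_of_mem _ hzmem)
    have hbl : b ∈ l := by
      rw [hs.mem_iff]
      simp
    have hnz : Nb t z := (hc'.2 t z rfl hlast).symmD
    have hnb : Nb t b := (List.isChain_cons_cons.1 hc'.1).1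
    by_cases hz2 : z = w2
    · refine ⟨t :: b :: c :: r, Or.inl hs, rfl, ?_, hc', hnd', hlen', ?_, ?_⟩
      · rw [hlast, hz2]
      · intro v
        exact hs.mem_iff.symm
      · exact (vis_perm hs.perm).symm
    · have hz1 : z = w1 := (hw z hzl hnz).resolve_right hz2
      have hb2 : b = w2 := by
        rcases hw b hbl hnb with h | h
        · exact absurd (h.trans hz1.symm) hbz
        · exact h
      have hrot : (t :: (b :: c :: r).reverse).reverse ~r (t :: b :: c :: r) := by
        rw [List.reverse_cons, List.reverse_reverse]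
        exact List.isRotated_concat t (b :: c :: r)
      have hrot2 : (t :: b :: c :: r).reverse ~r (t :: (b :: c :: r).reverse) := by
        rw [List.reverse_cons]
        exact List.isRotated_concat t _
      have hperm : (t :: (b :: c :: r).reverse).Perm l := by
        refine (List.reverse_perm _).symm.trans ?_
        exact hrot.perm.trans hs.perm.symm
      refine ⟨t :: (b :: c :: r).reverse, Or.inr (hs.trans hrot.symm), rfl, ?_, ?_, ?_, ?_, ?_, ?_⟩
      · rw [List.getLast?_cons, List.getLast?_reverse]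
        simp [hb2]
      · exact (Cyc.reverse hc').rot (by simp) hrot2
      · exact hperm.nodup_iff.2 hnd
      · exact hperm.length_eq
      · intro v
        exact hperm.mem_iff
      · exact vis_perm hperm

theorem exists_topleft {l : List (ℤ × ℤ)} (hne : l ≠ []) :
    ∃ t ∈ l, (∀ v ∈ l, t.1 ≤ v.1) ∧ ∀ v ∈ l, v.1 = t.1 → v.2 ≤ t.2 := by
  classical
  obtain ⟨t, ht, hmin⟩ := Finset.exists_min_image l.toFinset
    (fun v => toLex ((v.1, -v.2) : ℤ × ℤ)) (by
      obtain ⟨a, ha⟩ := List.exists_mem_of_ne_nil l hne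
      exact ⟨a, List.mem_toFinset.2 ha⟩)
  refine ⟨t, List.mem_toFinset.1 ht, ?_, ?_⟩
  · intro v hv
    have := hmin v (List.mem_toFinset.2 hv)
    rw [Prod.Lex.toLex_le_toLex] at this
    rcases this with h | ⟨h, -⟩
    · exact h.le
    · exact h.le
  · intro v hv hvt
    have := hmin v (List.mem_toFinset.2 hv)
    rw [Prod.Lex.toLex_le_toLex] at this
    simp only at this
    omega

theorem exists_topright {l : List (ℤ × ℤ)} (hne : l ≠ []) :
    ∃ t ∈ l, (∀ v ∈ l, v.1 ≤ t.1) ∧ ∀ v ∈ l, v.1 = t.1 → v.2 ≤ t.2 := by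
  classical
  obtain ⟨t, ht, hmin⟩ := Finset.exists_min_image l.toFinset
    (fun v => toLex ((-v.1, -v.2) : ℤ × ℤ)) (by
      obtain ⟨a, ha⟩ := List.exists_mem_of_ne_nil l hne
      exact ⟨a, List.mem_toFinset.2 ha⟩)
  refine ⟨t, List.mem_toFinset.1 ht, ?_, ?_⟩
  · intro v hv
    have := hmin v (List.mem_toFinset.2 hv)
    rw [Prod.Lex.toLex_le_toLex] at this
    simp only at this
    omega
  · intro v hv hvt
    have := hmin v (List.mem_toFinset.2 hv)
    rw [Prod.Lex.toLex_le_toLex] at this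
    simp only at this
    omega

theorem coord_bound {l : List (ℤ × ℤ)} (hc : l.IsChain Nb) (hh : l.head? = some (0, 0))
    {v : ℤ × ℤ} (hv : v ∈ l) : v.2 ≤ l.length := by
  obtain ⟨j, hj, rfl⟩ := List.getElem_of_mem hv
  have h0 : 0 < l.length := by omega
  have h1 := chain_dist l hc 0 j (Nat.zero_le _) hj
  have h2 : l[0] = (0, 0) := by
    rw [List.head?_eq_getElem?, List.getElem?_eq_getElem h0] at hh
    exact Option.some.inj hh
  rw [h2] at h1
  have h3 := abs_nonneg (l[j].1 - (0 : ℤ))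
  have h4 := le_abs_self (l[j].2 - (0 : ℤ))
  simp only at h1
  have h5 : l[j].2 ≤ (j : ℤ) := by
    push_cast at h1
    linarith
  have h6 : (j : ℤ) ≤ l.length := by exact_mod_cast hj.le
  linarith

theorem sum_le_rel {α β : Type} (A : Finset α) (T : Finset β) (w : α → ℝ) (w' : β → ℝ)
    (hw' : ∀ z ∈ T, 0 ≤ w' z) (R : α → β → Prop)
    (hR : ∀ l ∈ A, ∃ z ∈ T, R l z ∧ w l = w' z)
    (hinj : ∀ l ∈ A, ∀ l' ∈ A, ∀ z ∈ T, R l z → R l' z → l = l') :
    ∑ l ∈ A, w l ≤ ∑ z ∈ T, w' z := by
  classical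
  choose Φ hT hRR hw using hR
  have e1 : ∑ l ∈ A, w l = ∑ l ∈ A.attach, w' (Φ l.1 l.2) := by
    rw [← Finset.sum_attach]
    exact Finset.sum_congr rfl fun l _ => hw l.1 l.2
  have e2 : ∑ l ∈ A.attach, w' (Φ l.1 l.2) =
      ∑ z ∈ A.attach.image (fun l => Φ l.1 l.2), w' z := by
    rw [Finset.sum_image]
    intro x _ y _ hxy
    apply Subtype.ext
    have hxy' : Φ x.1 x.2 = Φ y.1 y.2 := hxy
    refine hinj x.1 x.2 y.1 y.2 (Φ x.1 x.2) (hT _ _) (hRR _ _) ?_
    rw [hxy']
    exact hRR _ _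
  rw [e1, e2]
  refine Finset.sum_le_sum_of_subset_of_nonneg ?_ fun z hz _ => hw' z hz
  intro z hz
  rw [Finset.mem_image] at hz
  obtain ⟨l, -, rfl⟩ := hz
  exact hT _ _

theorem rot_head_eq {p p' : List (ℤ × ℤ)} {t : ℤ × ℤ} (hnd : p.Nodup) (h : p ~r p')
    (ht : p.head? = some t) (ht' : p'.head? = some t) : p = p' := by
  obtain ⟨k, rfl⟩ := h
  have hne : p ≠ [] := by
    rintro rfl
    simp at ht
  have hpos : 0 < p.length := List.length_pos_of_ne_nil hne
  have hk : k % p.length < p.length := Nat.mod_lt _ hpos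
  rw [← List.rotate_mod] at ht' ⊢
  rw [List.head?_rotate hk, List.getElem?_eq_getElem hk] at ht'
  rw [List.head?_eq_getElem?, List.getElem?_eq_getElem hpos] at ht
  have h1 : p[k % p.length] = p[0] := by
    rw [Option.some.inj ht', Option.some.inj ht]
  have h2 := (List.Nodup.getElem_inj_iff hnd).1 h1
  rw [h2, List.rotate_zero]

/-- decoding -/
def dec (z : List (ℤ × ℤ) × (ℕ × Bool)) : List (ℤ × ℤ) :=
  tr (-(((if z.2.2 then z.1 else z.1.reverse).rotate z.2.1).headD (0, 0)).1)
    ((if z.2.2 then z.1 else z.1.reverse).rotate z.2.1)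

/-- weighted anchored polygons touching the wall -/
noncomputable def AtS (n : ℕ) (hs : ℤ × ℤ) : Finset (List (ℤ × ℤ)) := by
  classical
  exact (anch n hs.1 hs.2).filter (fun p => ∃ v ∈ p, v.2 = 0)

theorem mem_AtS (n : ℕ) (hs : ℤ × ℤ) (p : List (ℤ × ℤ)) :
    p ∈ AtS n hs ↔ (∃ X, Anch n hs.1 X hs.2 p) ∧ ∃ v ∈ p, v.2 = 0 := by
  classical
  unfold AtS
  rw [Finset.mem_filter, mem_anch]

theorem At_eq (a : ℝ) (n : ℕ) (h s : ℤ) :
    At a n h s = ∑ p ∈ AtS n (h, s), Real.exp (a * vis p) := by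
  classical
  unfold At
  refine Finset.sum_congr ?_ fun _ _ => rfl
  ext p
  rw [mem_AtS, Finset.mem_filter, mem_anch]

/-- polygons in the half plane -/
noncomputable def PaS (n : ℕ) : Finset (List (ℤ × ℤ)) := by
  classical
  exact (polys n).filter (fun l => ∀ v ∈ l, 0 ≤ v.2)

theorem mem_PaS (n : ℕ) (hn : 1 ≤ n) (l : List (ℤ × ℤ)) :
    l ∈ PaS n ↔ (l.length = n ∧ l.head? = some (0, 0) ∧ l.Nodup ∧ Cyc l) ∧ ∀ v ∈ l, 0 ≤ v.2 := by
  classical
  unfold PaS
  rw [Finset.mem_filter, mem_polys_iff n hn]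

theorem Pa_eq (a : ℝ) (n : ℕ) : Pa a n = ∑ l ∈ PaS n, Real.exp (a * vis l) := by
  classical
  unfold Pa
  refine Finset.sum_congr ?_ fun _ _ => rfl
  ext p
  unfold PaS
  simp only [Finset.mem_filter]

theorem dec_spec {n : ℕ} (hn : 1 ≤ n) {l p : List (ℤ × ℤ)} {c : ℤ} (hl : l.length = n)
    (hh : l.head? = some (0, 0)) (h : l ~r tr c p ∨ l ~r (tr c p).reverse) :
    ∃ k ∈ Finset.range n, ∃ b : Bool, l = dec (p, (k, b)) := by
  obtain ⟨b, hb⟩ : ∃ b : Bool, l ~r tr c (if b then p else p.reverse) := by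
    rcases h with h | h
    · exact ⟨true, by simpa using h⟩
    · refine ⟨false, ?_⟩
      rw [tr_reverse] at h
      simpa using h
  have hlen : (if b then p else p.reverse).length = n := by
    have := hb.perm.length_eq
    rw [tr_length] at this
    omega
  obtain ⟨k, hk⟩ := hb.symm
  rw [← List.rotate_mod, tr_length, hlen, tr_rotate] at hk
  refine ⟨k % n, Finset.mem_range.2 (Nat.mod_lt _ (by omega)), b, ?_⟩
  have hne : (if b then p else p.reverse).rotate (k % n) ≠ [] := by
    intro h0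
    have := congrArg List.length h0
    rw [List.length_rotate, hlen] at this
    simp at this
    omega
  obtain ⟨u, r, hur⟩ := List.exists_cons_of_ne_nil hne
  have hu : u.1 + c = 0 := by
    rw [← hk, tr_head, hur] at hh
    simp only [List.head?_cons, Option.map_some, Option.some.injEq, Prod.mk.injEq] at hh
    exact hh.1
  unfold dec
  simp only
  rw [← hk]
  congr 1
  rw [hur, List.headD_cons]
  omega

theorem corner_left {l : List (ℤ × ℤ)} {t : ℤ × ℤ} (hmin : ∀ v ∈ l, t.1 ≤ v.1)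
    (htop : ∀ v ∈ l, v.1 = t.1 → v.2 ≤ t.2) :
    ∀ v ∈ l, Nb t v → v = (t.1 + 1, t.2) ∨ v = (t.1, t.2 - 1) := by
  intro v hv hnb
  rcases nb_cases hnb with h | h | h | h
  · exact Or.inl h
  · have := hmin v hv
    rw [h] at this
    simp only at this
    omega
  · have := htop v hv (by rw [h])
    rw [h] at this
    simp only at this
    omega
  · exact Or.inr h

theorem corner_right {l : List (ℤ × ℤ)} {t : ℤ × ℤ} (hmax : ∀ v ∈ l, v.1 ≤ t.1)
    (htop : ∀ v ∈ l, v.1 = t.1 → v.2 ≤ t.2) :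
    ∀ v ∈ l, Nb t v → v = (t.1 - 1, t.2) ∨ v = (t.1, t.2 - 1) := by
  intro v hv hnb
  rcases nb_cases hnb with h | h | h | h
  · have := hmax v hv
    rw [h] at this
    simp only at this
    omega
  · exact Or.inl h
  · have := htop v hv (by rw [h])
    rw [h] at this
    simp only at this
    omega
  · exact Or.inr h

/-! Targets. -/

theorem Pa_le (a : ℝ) (n : ℕ) (hn : 3 ≤ n) :
    Pa a n ≤ 2 * n * ∑ h ∈ Finset.Icc (0 : ℤ) n, ∑ s ∈ Finset.Icc (0 : ℤ) n, At a n h s := by
  classical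
  rw [Pa_eq]
  have key : ∑ l ∈ PaS n, Real.exp (a * vis l) ≤
      ∑ z ∈ (Finset.Icc (0 : ℤ) n ×ˢ Finset.Icc (0 : ℤ) n).sigma
        (fun hs => AtS n hs ×ˢ (Finset.range n ×ˢ (Finset.univ : Finset Bool))),
        Real.exp (a * vis z.2.1) := by
    refine sum_le_rel (PaS n) ((Finset.Icc (0 : ℤ) n ×ˢ Finset.Icc (0 : ℤ) n).sigma
        (fun hs => AtS n hs ×ˢ (Finset.range n ×ˢ (Finset.univ : Finset Bool))))
        (fun l => Real.exp (a * vis l)) (fun z => Real.exp (a * vis z.2.1))
        (fun z _ => (Real.exp_pos _).le) (fun l z => l = dec z.2) ?_ ?_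
    · intro l hl
      rw [mem_PaS n (by omega)] at hl
      obtain ⟨⟨hlen, hhead, hnd, hcyc⟩, hpos⟩ := hl
      have hne : l ≠ [] := by
        rintro rfl
        simp at hhead
      obtain ⟨t, ht, hmin, htop⟩ := exists_topleft hne
      obtain ⟨r, hr, hrmax, hrtop⟩ := exists_topright hne
      obtain ⟨p, hrot, hph, hpl, hpc, hpnd, hplen, hpmem, hpvis⟩ :=
        corner hnd hcyc (by omega) ht (corner_left hmin htop)
      obtain ⟨k, hk, b, hb⟩ := dec_spec (c := t.1) (p := tr (-t.1) p) (by omega) hlen hhead (by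
        rw [tr_tr]
        simpa [tr_zero] using hrot)
      have h0mem : ((0 : ℤ), (0 : ℤ)) ∈ l := List.mem_of_mem_head? hhead
      refine ⟨⟨(t.2, r.2), (tr (-t.1) p, (k, b))⟩, ?_, hb, ?_⟩
      · rw [Finset.mem_sigma]
        refine ⟨?_, ?_⟩
        · simp only [Finset.mem_product, Finset.mem_Icc]
          have h1 := coord_bound hcyc.1 hhead ht
          have h2 := coord_bound hcyc.1 hhead hr
          rw [hlen] at h1 h2
          exact ⟨⟨hpos t ht, h1⟩, ⟨hpos r hr, h2⟩⟩
        · rw [Finset.mem_product, Finset.mem_product]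
          refine ⟨?_, hk, Finset.mem_univ _⟩
          rw [mem_AtS]
          refine ⟨⟨r.1 - t.1, ?_⟩, ⟨(0 - t.1, 0), ?_, rfl⟩⟩
          · refine ⟨?_, ?_, ?_, ?_, ?_, ?_, ?_, ?_, ?_, ?_, ?_⟩
            · rw [tr_length, hplen, hlen]
            · exact tr_nodup.2 hpnd
            · exact tr_chain hpc.1
            · rw [tr_head, hph]
              simp
            · rw [tr_last, hpl]
              simp
            · intro v hv
              rw [mem_tr, hpmem] at hv
              have := hmin _ hv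
              simp only at this
              omega
            · intro v hv
              rw [mem_tr, hpmem] at hv
              have := hrmax _ hv
              simp only at this
              omega
            · intro v hv
              rw [mem_tr, hpmem] at hv
              exact hpos (v.1 - -t.1, v.2) hv
            · intro v hv h0
              rw [mem_tr, hpmem] at hv
              exact htop (v.1 - -t.1, v.2) hv (by simp only; omega)
            · rw [mem_tr, hpmem]
              simpa using hr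
            · intro v hv h0
              rw [mem_tr, hpmem] at hv
              exact hrtop (v.1 - -t.1, v.2) hv (by simp only; omega)
          · rw [mem_tr, hpmem]
            simpa using h0mem
      · simp only
        rw [tr_vis, hpvis]
    · intro l _ l' _ z _ h h'
      rw [h, h']
  refine key.trans ?_
  rw [Finset.sum_sigma, ← Finset.sum_product', Finset.mul_sum]
  refine le_of_eq (Finset.sum_congr rfl fun hs _ => ?_)
  rw [At_eq, Finset.sum_product, Finset.mul_sum]
  refine Finset.sum_congr rfl fun p _ => ?_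
  have e : ∀ y ∈ Finset.range n ×ˢ (Finset.univ : Finset Bool),
      Real.exp (a * (vis (⟨hs, (p, y)⟩ : (_ : ℤ × ℤ) × (List (ℤ × ℤ) × (ℕ × Bool))).snd.1 : ℝ)) =
        Real.exp (a * vis p) := fun y _ => rfl
  rw [Finset.sum_congr rfl e, Finset.sum_const, Finset.card_product, Finset.card_range,
    Finset.card_univ, Fintype.card_bool, nsmul_eq_mul]
  push_cast
  ring

theorem anch_cyc {n : ℕ} {h X s : ℤ} {p : List (ℤ × ℤ)} (hp : Anch n h X s p) : Cyc p := by
  refine ⟨hp.chain, ?_⟩
  intro u v hu hv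
  rw [hp.first] at hu
  rw [hp.last] at hv
  rw [← Option.some.inj hu, ← Option.some.inj hv]
  unfold Nb
  simp

theorem At_le (a : ℝ) (n : ℕ) (hn : 2 ≤ n) (h s : ℤ) : At a n h s ≤ Pa a n := by
  classical
  rw [At_eq, Pa_eq]
  refine sum_le_rel _ _ _ _ (fun z _ => (Real.exp_pos _).le)
    (fun p l => ∃ c, l ~r tr c p) ?_ ?_
  · intro p hp
    rw [mem_AtS] at hp
    obtain ⟨⟨X, hA⟩, v, hv, hv0⟩ := hp
    have hcyc := anch_cyc hA
    obtain ⟨q, hq⟩ := exists_rot_head hv
    have hlen : 2 ≤ p.length := by rw [hA.len]; exact hn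
    refine ⟨tr (-v.1) (v :: q), ?_, ⟨-v.1, ?_⟩, ?_⟩
    · rw [mem_PaS n (by omega)]
      refine ⟨⟨?_, ?_, ?_, ?_⟩, ?_⟩
      · rw [tr_length, ← hq.perm.length_eq, hA.len]
      · rw [tr_head]
        simp [hv0]
      · exact tr_nodup.2 (hq.nodup_iff.1 hA.nodup)
      · exact tr_cyc (hcyc.rot hlen hq)
      · intro w hw
        rw [mem_tr, ← hq.mem_iff] at hw
        exact hA.ylo (w.1 - -v.1, w.2) hw
    · unfold tr
      exact (hq.map _).symm
    · rw [tr_vis, vis_perm hq.perm]
  · intro p hp p' hp' l _ hR hR'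
    rw [mem_AtS] at hp hp'
    obtain ⟨⟨X, hA⟩, -⟩ := hp
    obtain ⟨⟨X', hA'⟩, -⟩ := hp'
    obtain ⟨c, hc⟩ := hR
    obtain ⟨c', hc'⟩ := hR'
    have m1 : ((0 : ℤ), h) ∈ p := List.mem_of_mem_head? hA.first
    have m2 : ((0 : ℤ), h) ∈ p' := List.mem_of_mem_head? hA'.first
    have n1 : (c, h) ∈ l := by
      rw [hc.mem_iff, mem_tr]
      simpa using m1
    have n2 : (c', h) ∈ l := by
      rw [hc'.mem_iff, mem_tr]
      simpa using m2
    have o1 : c' ≤ c := by
      rw [hc'.mem_iff, mem_tr] at n1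
      have := hA'.xlo _ n1
      simp only at this
      omega
    have o2 : c ≤ c' := by
      rw [hc.mem_iff, mem_tr] at n2
      have := hA.xlo _ n2
      simp only at this
      omega
    have hcc : c = c' := le_antisymm o2 o1
    subst hcc
    have h1 : tr c p ~r tr c p' := hc.symm.trans hc'
    have h2 : tr (-c) (tr c p) ~r tr (-c) (tr c p') := by
      unfold tr at *
      exact h1.map _
    rw [tr_tr, tr_tr, add_neg_cancel, tr_zero, tr_zero] at h2
    exact rot_head_eq hA.nodup h2 hA.first hA'.first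

/-- the unit square -/
theorem At_square_pos (a : ℝ) : 0 < At a 4 1 1 := by
  rw [At_eq]
  refine Finset.sum_pos (fun _ _ => Real.exp_pos _) ⟨[(0, 1), (1, 1), (1, 0), (0, 0)], ?_⟩
  rw [mem_AtS]
  refine ⟨⟨1, ?_⟩, ⟨(0, 0), by simp, rfl⟩⟩
  refine ⟨rfl, by decide, ?_, rfl, by simp, ?_, ?_, ?_, ?_, by simp, ?_⟩
  · simp [Nb]
  all_goals simp

/-- the degenerate polygon with two vertices -/
theorem anch_two (a : ℝ) (s : ℤ) (hs : 1 ≤ s) :
    min 1 (Real.exp a) ≤ ∑ q ∈ anch 2 s s, Real.exp (a * vis q) := by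
  have hmem : [((0 : ℤ), s), (0, s - 1)] ∈ anch 2 s s := by
    rw [mem_anch]
    refine ⟨0, ?_⟩
    refine ⟨rfl, ?_, ?_, rfl, by simp, by simp, by simp, ?_, ?_, by simp, ?_⟩
    · simp only [List.nodup_cons, List.mem_singleton, Prod.mk.injEq, true_and,
        List.not_mem_nil, not_false_eq_true, List.nodup_nil, and_true]
      omega
    · simp [Nb]
    · simp only [List.mem_cons, List.not_mem_nil, or_false, forall_eq_or_imp, forall_eq]
      omega
    · simp
    · simp
  refine le_trans ?_ (Finset.single_le_sum (f := fun q => Real.exp (a * vis q))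
    (fun _ _ => (Real.exp_pos _).le) hmem)
  by_cases h1 : s = 1
  · subst h1
    have : vis [((0 : ℤ), (1 : ℤ)), (0, 1 - 1)] = 1 := by decide
    rw [this]
    simp
  · have : vis [((0 : ℤ), s), (0, s - 1)] = 0 := by
      unfold vis
      rw [List.countP_eq_zero]
      simp only [List.mem_cons, List.not_mem_nil, or_false, forall_eq_or_imp, forall_eq,
        decide_eq_true_eq]
      omega
    rw [this]
    simp

theorem At_pos_height (a : ℝ) (n : ℕ) (hn : 3 ≤ n) (h s : ℤ) (hpos : 0 < At a n h s) :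
    1 ≤ h ∧ 1 ≤ s := by
  rw [At_eq] at hpos
  obtain ⟨p, hp⟩ : (AtS n (h, s)).Nonempty := by
    by_contra h0
    rw [Finset.not_nonempty_iff_eq_empty] at h0
    rw [h0, Finset.sum_empty] at hpos
    exact lt_irrefl _ hpos
  rw [mem_AtS] at hp
  obtain ⟨⟨X, hA⟩, -⟩ := hp
  constructor
  · have := hA.ylo _ (List.mem_of_mem_getLast? hA.last)
    simp only at this
    omega
  · obtain ⟨q, -, -, hql, -, -, -, hqmem, -⟩ := corner (w1 := (X - 1, s)) (w2 := (X, s - 1))
      hA.nodup (anch_cyc hA) (by rw [hA.len]; exact hn) hA.rmem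
      (corner_right (t := (X, s)) hA.xhi hA.rtop)
    have h1 := List.mem_of_mem_getLast? hql
    rw [hqmem] at h1
    have := hA.ylo _ h1
    simp only at this
    omega

theorem PaS_subset (n : ℕ) : PaS (n + 1) ⊆ walks n := by
  intro l hl
  rw [mem_PaS (n + 1) (by omega)] at hl
  rw [mem_walks]
  exact ⟨hl.1.1, hl.1.2.1, hl.1.2.2.1, hl.1.2.2.2.1⟩

theorem PaS_zero : PaS 0 = ∅ := by
  classical
  unfold PaS
  rw [Finset.filter_eq_empty_iff]
  intro l hl
  rw [mem_polys] at hl
  obtain ⟨h1, h2, -⟩ := hl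
  rw [List.length_eq_zero_iff] at h1
  subst h1
  simp at h2

theorem Pa_upper (a : ℝ) (n : ℕ) : Pa a n ≤ 4 ^ n * Real.exp (|a| * n) := by
  rw [Pa_eq]
  rcases n with _ | n
  · rw [PaS_zero]
    simp
  · have h1 : ∑ l ∈ PaS (n + 1), Real.exp (a * vis l) ≤
        ∑ l ∈ PaS (n + 1), Real.exp (|a| * ((n + 1 : ℕ) : ℝ)) := by
      refine Finset.sum_le_sum fun l hl => ?_
      rw [mem_PaS (n + 1) (by omega)] at hl
      apply Real.exp_le_exp.2
      have hv : (vis l : ℝ) ≤ ((n + 1 : ℕ) : ℝ) := by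
        have : vis l ≤ l.length := List.countP_le_length
        rw [hl.1.1] at this
        exact_mod_cast this
      calc a * vis l ≤ |a| * vis l :=
            mul_le_mul_of_nonneg_right (le_abs_self a) (Nat.cast_nonneg _)
        _ ≤ |a| * ((n + 1 : ℕ) : ℝ) := mul_le_mul_of_nonneg_left hv (abs_nonneg a)
    refine h1.trans ?_
    rw [Finset.sum_const, nsmul_eq_mul]
    refine mul_le_mul_of_nonneg_right ?_ (Real.exp_pos _).le
    have h2 : ((PaS (n + 1)).card : ℝ) ≤ cnt n := by
      unfold cnt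
      exact_mod_cast Finset.card_le_card (PaS_subset n)
    refine h2.trans ((cnt_le n).trans ?_)
    exact pow_le_pow_right₀ (by norm_num) (Nat.le_succ n)

theorem parity (l : List (ℤ × ℤ)) : ∀ u v : ℤ × ℤ, (u :: l).IsChain Nb →
    (u :: l).getLast? = some v → (v.1 + v.2) % 2 = (u.1 + u.2 + l.length) % 2 := by
  induction l with
  | nil =>
    intro u v _ h
    simp only [List.getLast?_singleton, Option.some.injEq] at h
    rw [h]
    simp
  | cons b l ih =>
    intro u v hc h
    rw [List.isChain_cons_cons] at hc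
    rw [List.getLast?_cons_cons] at h
    have h1 := ih b v hc.2 h
    have h2 := nb_cases hc.1
    rw [List.length_cons]
    push_cast
    rcases h2 with h2 | h2 | h2 | h2 <;> rw [h2] at h1 <;> simp only at h1 <;> omega

theorem Pa_odd (a : ℝ) (n : ℕ) (hn : Odd n) : Pa a n = 0 := by
  rw [Pa_eq]
  have h1 : 1 ≤ n := by
    rcases hn with ⟨k, rfl⟩
    omega
  rw [show PaS n = ∅ from ?_, Finset.sum_empty]
  rw [Finset.eq_empty_iff_forall_notMem]
  intro l hl
  rw [mem_PaS n h1] at hl
  obtain ⟨⟨hlen, hhead, -, hcyc⟩, -⟩ := hl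
  match l, hlen, hhead, hcyc with
  | u :: l, hlen, hhead, hcyc =>
    have hlast : (u :: l).getLast? = some ((u :: l).getLast (by simp)) :=
      List.getLast?_eq_getLast_of_ne_nil (by simp)
    set v := (u :: l).getLast (by simp) with hv
    have h2 := parity l u v hcyc.1 hlast
    have h3 := hcyc.2 u v rfl hlast
    have h4 : u = (0, 0) := by simpa using hhead
    rw [List.length_cons] at hlen
    obtain ⟨k, hk⟩ := hn
    rw [h4] at h2
    have h5 := nb_cases h3
    rw [h4] at h5
    simp only [Prod.mk.injEq] at h5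
    simp only at h2
    have : (l.length : ℤ) = 2 * k := by
      have : l.length = 2 * k := by omega
      exact_mod_cast this
    omega

theorem Pa_zero_le (n : ℕ) : Pa 0 (n + 1) ≤ cnt n := by
  rw [Pa_eq]
  simp only [zero_mul, Real.exp_zero, Finset.sum_const, nsmul_eq_mul, mul_one]
  unfold cnt
  exact_mod_cast Finset.card_le_card (PaS_subset n)

end Pool.Agent.Ads772.J6d
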