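import Mathlib
import Pool.Agent.Ads772.Defs
set_option autoImplicit false
namespace Pool.Agent.Ads772.J6f


open Filter Topology

/-! Targets. -/

/-- an approximately supermultiplicative sequence has a growth rate -/
theorem limit_super (q : ℕ → ℝ) (C : ℝ) (hC : 0 ≤ C) (hup : ∀ k : ℕ, 2 ≤ k → q k ≤ C * k)
    (hlow : ∀ k t j : ℕ, 2 ≤ k → 1 ≤ t → j < 2 * k →
      (t : ℝ) * (2 * q k - C * (1 + Real.log k)) - C * k ≤ q (2 * k * t + j)) :
    ∃ F : ℝ, Tendsto (fun k : ℕ => q k / k) atTop (𝓝 F) := by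
  set a : ℕ → ℝ := fun k => q k / k - C * (1 + Real.log k) / (2 * k) with ha
  have hlogn : ∀ k : ℕ, 2 ≤ k → 0 ≤ C * (1 + Real.log k) / (2 * k) := by
    intro k hk
    have : 0 ≤ Real.log (k:ℝ) := Real.log_natCast_nonneg k
    positivity
  have hbd : ∀ k : ℕ, 2 ≤ k → a k ≤ C := by
    intro k hk
    have hk0 : (0:ℝ) < k := by exact_mod_cast (by omega : 0 < k)
    have h1 : q k / k ≤ C := by
      rw [div_le_iff₀ hk0]; exact hup k hk
    have := hlogn k hk
    simp only [ha]; linarith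
  set S : Set ℝ := a '' {k | 2 ≤ k} with hS
  have hSne : S.Nonempty := ⟨a 2, 2, by simp, rfl⟩
  have hSbd : BddAbove S := ⟨C, by rintro _ ⟨k, hk, rfl⟩; exact hbd k hk⟩
  refine ⟨sSup S, tendsto_order.2 ⟨?_, ?_⟩⟩
  · intro b hb
    obtain ⟨_, ⟨k, hk, rfl⟩, hbk⟩ := exists_lt_of_lt_csSup hSne hb
    have hk2 : 2 ≤ k := hk
    have hk0 : (0:ℝ) < k := by exact_mod_cast (by omega : 0 < k)
    have hlim : Tendsto (fun K : ℕ => (2 * k * |a k| + C * k) / (K:ℝ)) atTop (𝓝 0) :=
      tendsto_const_div_atTop_nhds_zero_nat _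
    have hev := (tendsto_order.1 hlim).2 (a k - b) (by linarith)
    filter_upwards [hev, eventually_ge_atTop (2 * k)] with K hK hKk
    have hKpos : (0:ℝ) < K := by exact_mod_cast (by omega : 0 < K)
    have ht : 1 ≤ K / (2 * k) := by
      rw [Nat.one_le_div_iff (by omega)]; exact hKk
    have hj : K % (2 * k) < 2 * k := Nat.mod_lt _ (by omega)
    have h := hlow k (K / (2*k)) (K % (2*k)) hk2 ht hj
    rw [Nat.div_add_mod] at h
    have hKeq : (K:ℝ) = 2 * k * ((K / (2 * k) : ℕ) : ℝ) + ((K % (2*k) : ℕ) : ℝ) := by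
      exact_mod_cast (Nat.div_add_mod K (2*k)).symm
    set t : ℝ := ((K / (2 * k) : ℕ) : ℝ)
    set j : ℝ := ((K % (2 * k) : ℕ) : ℝ)
    have hj0 : 0 ≤ j := Nat.cast_nonneg _
    have hj2 : j ≤ 2 * k := by
      have : ((K % (2 * k) : ℕ) : ℝ) ≤ ((2 * k : ℕ) : ℝ) := by exact_mod_cast hj.le
      simpa using this
    have hak : 2 * q k - C * (1 + Real.log k) = 2 * k * a k := by
      simp only [ha]; field_simp
    rw [hak] at h
    have h2 : t * (2 * k * a k) = (K - j) * a k := by
      rw [hKeq]; ring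
    rw [h2] at h
    have h3 : j * a k ≤ 2 * k * |a k| := by
      calc j * a k ≤ j * |a k| := by gcongr; exact le_abs_self _
        _ ≤ 2 * k * |a k| := by gcongr
    rw [lt_div_iff₀ hKpos]
    rw [div_lt_iff₀ hKpos] at hK
    nlinarith
  · intro b hb
    have hlim : Tendsto (fun K : ℕ => C * (1 + Real.log K) / (2 * K)) atTop (𝓝 0) := by
      have h1 : Tendsto (fun x : ℝ => Real.log x / x) atTop (𝓝 0) := by
        have := Real.isLittleO_log_id_atTop.tendsto_div_nhds_zero
        simpa using this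
      have h2 : Tendsto (fun K : ℕ => Real.log (K:ℝ) / K) atTop (𝓝 0) :=
        h1.comp tendsto_natCast_atTop_atTop
      have h3 : Tendsto (fun K : ℕ => (1:ℝ) / K) atTop (𝓝 0) := tendsto_const_div_atTop_nhds_zero_nat _
      have h4 := ((h3.add h2).const_mul (C/2))
      simp only [add_zero, mul_zero] at h4
      refine h4.congr' ?_
      filter_upwards [eventually_gt_atTop 0] with K hK
      have : (0:ℝ) < K := by exact_mod_cast hK
      field_simp
    have hev := (tendsto_order.1 hlim).2 (b - sSup S) (by linarith)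
    filter_upwards [hev, eventually_ge_atTop 2] with K hK hK2
    have h1 : a K ≤ sSup S := le_csSup hSbd ⟨K, hK2, rfl⟩
    simp only [ha] at h1
    linarith

end Pool.Agent.Ads772.J6f
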