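import Mathlib
import Pool.Agent.Ads772.Defs
import Pool.Agent.Ads772.J6b
import Pool.Agent.Ads772.J6d
import Pool.Agent.Ads772.J6f
set_option autoImplicit false
namespace Pool.Agent.Ads772.J6e

open Pool.Agent.Ads772.J6b (At_mul At_symm)
open Pool.Agent.Ads772.J6d (At_le At_pos_height At_square_pos Pa_le Pa_upper anch_two)
open Pool.Agent.Ads772.J6f (limit_super)

open Filter Topology

/-! Given results (proved elsewhere, use as black boxes). -/

/-! Targets. -/

theorem At_nonneg' (a : ℝ) (n : ℕ) (h s : ℤ) : 0 ≤ At a n h s := by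
  unfold At
  exact Finset.sum_nonneg (fun _ _ => (Real.exp_pos _).le)

theorem At_le_sum' (a : ℝ) (n : ℕ) (h s : ℤ) :
    At a n h s ≤ ∑ q ∈ anch n h s, Real.exp (a * vis q) := by
  unfold At
  exact Finset.sum_le_sum_of_subset_of_nonneg (Finset.filter_subset _ _)
    (fun _ _ _ => (Real.exp_pos _).le)

theorem At_mul' (a : ℝ) (n m : ℕ) (hn : 3 ≤ n) (hm : 2 ≤ m) (h s s' : ℤ) :
    At a n h s * At a m s s' ≤ ((m : ℝ) + 1) * At a (n + m) h s' :=
  (mul_le_mul_of_nonneg_left (At_le_sum' a m s s') (At_nonneg' a n h s)).trans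
    (At_mul a n m hn hm h s s')

theorem At_two' (a : ℝ) (n : ℕ) (hn : 3 ≤ n) (h s : ℤ) (hs : 1 ≤ s) :
    At a n h s * (min 1 (Real.exp a) / 3) ≤ At a (n + 2) h s := by
  have h1 := At_mul a n 2 hn le_rfl h s s
  have h2 := mul_le_mul_of_nonneg_left (anch_two a s hs) (At_nonneg' a n h s)
  have h3 := h2.trans h1
  push_cast at h3
  linarith

theorem At_two_iter' (a : ℝ) (n : ℕ) (hn : 3 ≤ n) (h s : ℤ) (hs : 1 ≤ s) (j : ℕ) :
    At a n h s * (min 1 (Real.exp a) / 3) ^ j ≤ At a (n + 2 * j) h s := by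
  have hmu : 0 < min 1 (Real.exp a) := lt_min one_pos (Real.exp_pos a)
  induction j with
  | zero => simp
  | succ j ih =>
    have h1 := At_two' a (n + 2 * j) (by omega) h s hs
    calc At a n h s * (min 1 (Real.exp a) / 3) ^ (j + 1)
        = (At a n h s * (min 1 (Real.exp a) / 3) ^ j) * (min 1 (Real.exp a) / 3) := by ring
      _ ≤ At a (n + 2 * j) h s * (min 1 (Real.exp a) / 3) := by
          gcongr
      _ ≤ At a (n + 2 * j + 2) h s := h1
      _ = At a (n + 2 * (j + 1)) h s := by ring_nf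

theorem At_pos' (a : ℝ) (k : ℕ) (hk : 2 ≤ k) : 0 < At a (2 * k) 1 1 := by
  have hmu : 0 < min 1 (Real.exp a) := lt_min one_pos (Real.exp_pos a)
  have h := At_two_iter' a 4 (by norm_num) 1 1 le_rfl (k - 2)
  have h2 : 4 + 2 * (k - 2) = 2 * k := by omega
  rw [h2] at h
  exact lt_of_lt_of_le (mul_pos (At_square_pos a) (pow_pos (div_pos hmu (by norm_num)) _)) h

theorem Pa_pos' (a : ℝ) (k : ℕ) (hk : 2 ≤ k) : 0 < Pa a (2 * k) :=
  (At_pos' a k hk).trans_le (At_le a (2 * k) (by omega) 1 1)

theorem At_iter' (a : ℝ) (n : ℕ) (hn : 3 ≤ n) (h : ℤ) (t : ℕ) :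
    At a n h h ^ (t + 1) ≤ ((n : ℝ) + 1) ^ t * At a (n * (t + 1)) h h := by
  induction t with
  | zero => simp
  | succ t ih =>
    have h1 := At_mul' a (n * (t + 1)) n (by nlinarith) (by omega) h h h
    have hB := At_nonneg' a n h h
    calc At a n h h ^ (t + 1 + 1) = At a n h h ^ (t + 1) * At a n h h := by ring
      _ ≤ (((n : ℝ) + 1) ^ t * At a (n * (t + 1)) h h) * At a n h h := by gcongr
      _ = ((n : ℝ) + 1) ^ t * (At a (n * (t + 1)) h h * At a n h h) := by ring
      _ ≤ ((n : ℝ) + 1) ^ t * (((n : ℝ) + 1) * At a (n * (t + 1) + n) h h) := by gcongr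
      _ = ((n : ℝ) + 1) ^ (t + 1) * At a (n * (t + 1 + 1)) h h := by ring_nf

theorem Pa_best' (a : ℝ) (n : ℕ) (hn : 3 ≤ n) :
    ∃ h s : ℤ, Pa a n ≤ 2 * n * ((n : ℝ) + 1) ^ 2 * At a n h s := by
  have hn0 : (0 : ℝ) < n := by exact_mod_cast (by omega : 0 < n)
  have hne : (Finset.Icc (0 : ℤ) n ×ˢ Finset.Icc (0 : ℤ) n).Nonempty := by
    refine ⟨(0, 0), ?_⟩
    simp
  have hcard : ((Finset.Icc (0 : ℤ) n ×ˢ Finset.Icc (0 : ℤ) n).card : ℝ) = ((n : ℝ) + 1) ^ 2 := by
    rw [Finset.card_product, Int.card_Icc]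
    have : ((n : ℤ) + 1 - 0).toNat = n + 1 := by omega
    rw [this]; push_cast; ring
  have hsum : ∑ _x ∈ (Finset.Icc (0 : ℤ) n ×ˢ Finset.Icc (0 : ℤ) n),
      (Pa a n / (2 * n * ((n : ℝ) + 1) ^ 2)) ≤
      ∑ x ∈ (Finset.Icc (0 : ℤ) n ×ˢ Finset.Icc (0 : ℤ) n), At a n x.1 x.2 := by
    rw [Finset.sum_const, nsmul_eq_mul, hcard, Finset.sum_product]
    have := Pa_le a n hn
    have h2 : ((n : ℝ) + 1) ^ 2 * (Pa a n / (2 * n * ((n : ℝ) + 1) ^ 2)) = Pa a n / (2 * n) := by
      field_simp
    rw [h2, div_le_iff₀ (by positivity)]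
    calc Pa a n ≤ _ := this
      _ = _ := by ring
  obtain ⟨x, -, hx⟩ := Finset.exists_le_of_sum_le hne hsum
  refine ⟨x.1, x.2, ?_⟩
  rw [div_le_iff₀ (by positivity)] at hx
  linarith

/-- existence of the free energy of adsorbing polygons -/
theorem kappa0_exists (a : ℝ) :
    ∃ F : ℝ, Tendsto (fun k : ℕ => Real.log (Pa a (2 * k)) / ((2 * k : ℕ) : ℝ)) atTop (𝓝 F) := by
  have hmu : 0 < min 1 (Real.exp a) := lt_min one_pos (Real.exp_pos a)
  have hlogmu : -|a| ≤ Real.log (min 1 (Real.exp a)) := by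
    rcases le_total 1 (Real.exp a) with h | h
    · rw [min_eq_left h, Real.log_one]; simpa using abs_nonneg a
    · rw [min_eq_right h, Real.log_exp]; exact neg_abs_le a
  have habs := abs_nonneg a
  obtain ⟨F, hF⟩ := limit_super (fun k => Real.log (Pa a (2 * k))) (100 + 2 * |a|) (by positivity)
    (by
      intro k hk
      have hk0 : (0:ℝ) < k := by exact_mod_cast (by omega : 0 < k)
      have h1 := Real.log_le_log (Pa_pos' a k hk) (Pa_upper a (2 * k))
      rw [Real.log_mul (by positivity) (Real.exp_pos _).ne', Real.log_pow, Real.log_exp] at h1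
      push_cast at h1
      have h4 : Real.log 4 ≤ 3 := by
        have := Real.log_le_sub_one_of_pos (show (0:ℝ) < 4 by norm_num)
        linarith
      have h5 : 2 * (k:ℝ) * Real.log 4 ≤ 2 * k * 3 := by gcongr
      show Real.log (Pa a (2 * k)) ≤ _
      nlinarith)
    (by
      intro k t j hk ht hj
      have hk0 : (0:ℝ) < k := by exact_mod_cast (by omega : 0 < k)
      have hk1 : (1:ℝ) ≤ k := by exact_mod_cast (by omega : 1 ≤ k)
      have hlogk : 0 ≤ Real.log k := Real.log_natCast_nonneg k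
      obtain ⟨h, s, hP⟩ := Pa_best' a (2 * k) (by omega)
      set n : ℕ := 2 * k with hn
      have hnR : (n : ℝ) = 2 * k := by rw [hn]; push_cast; ring
      have hn0 : (0:ℝ) < n := by rw [hnR]; positivity
      have hPpos := Pa_pos' a k hk
      have hApos : 0 < At a n h s := by
        by_contra hneg
        have h0 : At a n h s = 0 := le_antisymm (not_lt.1 hneg) (At_nonneg' a n h s)
        rw [h0, mul_zero] at hP
        exact absurd hPpos (not_lt.2 hP)
      obtain ⟨hh1, hs1⟩ := At_pos_height a n (by omega) h s hApos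
      have hB : At a n h s ^ 2 ≤ ((n : ℝ) + 1) * At a (n + n) h h := by
        have h1 := At_mul' a n n (by omega) (by omega) h s h
        have h2 := At_symm a n (by omega) h s
        calc At a n h s ^ 2 = At a n h s * At a n h s := by ring
          _ ≤ At a n h s * At a n s h := by gcongr
          _ ≤ _ := h1
      have hBpos : 0 < At a (n + n) h h := by
        by_contra hneg
        have h0 : At a (n + n) h h = 0 := le_antisymm (not_lt.1 hneg) (At_nonneg' a _ h h)
        rw [h0, mul_zero] at hB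
        have : 0 < At a n h s ^ 2 := by positivity
        exact absurd this (not_lt.2 hB)
      obtain ⟨t', rfl⟩ : ∃ t', t = t' + 1 := ⟨t - 1, by omega⟩
      have hI := At_iter' a (n + n) (by omega) h t'
      have hJ := At_two_iter' a ((n + n) * (t' + 1)) (by nlinarith) h h hh1 j
      have hK := At_le a ((n + n) * (t' + 1) + 2 * j) (by nlinarith) h h
      have hidx : (n + n) * (t' + 1) + 2 * j = 2 * (2 * k * (t' + 1) + j) := by rw [hn]; ring
      rw [hidx] at hJ hK
      have hIpos : 0 < At a ((n + n) * (t' + 1)) h h := by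
        by_contra hneg
        have h0 : At a ((n + n) * (t' + 1)) h h = 0 :=
          le_antisymm (not_lt.1 hneg) (At_nonneg' a _ h h)
        rw [h0, mul_zero] at hI
        have : 0 < At a (n + n) h h ^ (t' + 1) := by positivity
        exact absurd this (not_lt.2 hI)
      -- logarithms
      have l1 : Real.log (Pa a n) ≤ Real.log (2 * n * ((n : ℝ) + 1) ^ 2) +
          Real.log (At a n h s) := by
        rw [← Real.log_mul (by positivity) hApos.ne']
        exact Real.log_le_log hPpos hP
      have l2 : 2 * Real.log (At a n h s) ≤ Real.log ((n : ℝ) + 1) +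
          Real.log (At a (n + n) h h) := by
        rw [← Real.log_mul (by positivity) hBpos.ne']
        have := Real.log_le_log (by positivity) hB
        rw [Real.log_pow] at this
        push_cast at this
        exact this
      have l3 : ((t' : ℝ) + 1) * Real.log (At a (n + n) h h) ≤
          t' * Real.log (((n + n : ℕ) : ℝ) + 1) + Real.log (At a ((n + n) * (t' + 1)) h h) := by
        have := Real.log_le_log (by positivity) hI
        rw [Real.log_pow, Real.log_mul (by positivity) hIpos.ne', Real.log_pow] at this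
        push_cast at this ⊢
        exact this
      have l4 : Real.log (At a ((n + n) * (t' + 1)) h h) + j * Real.log (min 1 (Real.exp a) / 3) ≤
          Real.log (Pa a (2 * (2 * k * (t' + 1) + j))) := by
        have := Real.log_le_log (by positivity) (hJ.trans hK)
        rw [Real.log_mul hIpos.ne' (by positivity), Real.log_pow] at this
        exact this
      -- numerical bounds
      have n1 : Real.log (2 * n * ((n : ℝ) + 1) ^ 2) ≤ 35 + 3 * Real.log k := by
        have e1 : 2 * (n:ℝ) * ((n : ℝ) + 1) ^ 2 ≤ 36 * (k:ℝ) ^ 3 := by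
          rw [hnR]
          have : ((2:ℝ) * k + 1) ^ 2 ≤ (3 * k) ^ 2 := by
            apply pow_le_pow_left₀ (by positivity); linarith
          calc 2 * (2 * (k:ℝ)) * (2 * (k:ℝ) + 1) ^ 2 ≤ 2 * (2 * (k:ℝ)) * (3 * k) ^ 2 := by gcongr
            _ = 36 * (k:ℝ) ^ 3 := by ring
        have e2 := Real.log_le_log (by positivity) e1
        rw [Real.log_mul (show (36:ℝ) ≠ 0 by norm_num) (show (k:ℝ) ^ 3 ≠ 0 by positivity),
          Real.log_pow (k:ℝ) (3:ℕ)] at e2
        have e3 := Real.log_le_sub_one_of_pos (show (0:ℝ) < 36 by norm_num)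
        push_cast at e2
        linarith
      have n2 : Real.log ((n : ℝ) + 1) ≤ 2 + Real.log k := by
        have e1 : (n:ℝ) + 1 ≤ 3 * k := by rw [hnR]; linarith
        have e2 := Real.log_le_log (by positivity) e1
        rw [Real.log_mul (by norm_num) (by positivity)] at e2
        have e3 := Real.log_le_sub_one_of_pos (show (0:ℝ) < 3 by norm_num)
        linarith
      have n3 : Real.log (((n + n : ℕ) : ℝ) + 1) ≤ 4 + Real.log k := by
        have e1 : ((n + n : ℕ) : ℝ) + 1 ≤ 5 * k := by push_cast; rw [hnR]; linarith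
        have e2 := Real.log_le_log (by positivity) e1
        rw [Real.log_mul (by norm_num) (by positivity)] at e2
        have e3 := Real.log_le_sub_one_of_pos (show (0:ℝ) < 5 by norm_num)
        linarith
      have n4 : -(|a| + 2) ≤ Real.log (min 1 (Real.exp a) / 3) := by
        rw [Real.log_div hmu.ne' (by norm_num)]
        have e3 := Real.log_le_sub_one_of_pos (show (0:ℝ) < 3 by norm_num)
        linarith
      have hj' : (j:ℝ) ≤ 2 * k := by
        have : (j:ℝ) ≤ ((2 * k : ℕ) : ℝ) := by exact_mod_cast hj.le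
        simpa using this
      have hj0 : (0:ℝ) ≤ j := Nat.cast_nonneg j
      have n5 : -(2 * k * (|a| + 2)) ≤ j * Real.log (min 1 (Real.exp a) / 3) := by
        have e1 : (j:ℝ) * (-(|a| + 2)) ≤ j * Real.log (min 1 (Real.exp a) / 3) := by gcongr
        have e2 : (j:ℝ) * (|a| + 2) ≤ 2 * k * (|a| + 2) := by gcongr
        linarith
      have ht0 : (0:ℝ) ≤ t' := Nat.cast_nonneg t'
      have n6 : (t':ℝ) * Real.log (((n + n : ℕ) : ℝ) + 1) ≤ ((t':ℝ) + 1) * (4 + Real.log k) := by
        have e1 : (t':ℝ) * Real.log (((n + n : ℕ) : ℝ) + 1) ≤ t' * (4 + Real.log k) := by gcongr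
        linarith
      have n10 : 2 * k * (|a| + 2) ≤ (100 + 2 * |a|) * k := by
        have : 2 * k * (|a| + 2) = (4 + 2 * |a|) * k := by ring
        rw [this]; gcongr; norm_num
      have n9 : 76 + 8 * Real.log k ≤ (100 + 2 * |a|) * (1 + Real.log k) := by
        have e1 : (100 + 0) * (1 + Real.log k) ≤ (100 + 2 * |a|) * (1 + Real.log k) := by
          gcongr; positivity
        linarith
      show (((t' + 1 : ℕ) : ℝ)) * (2 * Real.log (Pa a n) - (100 + 2 * |a|) * (1 + Real.log k)) -
        (100 + 2 * |a|) * k ≤ Real.log (Pa a (2 * (2 * k * (t' + 1) + j)))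
      push_cast
      have n7 : 2 * Real.log (Pa a n) - (100 + 2 * |a|) * (1 + Real.log k) + (4 + Real.log k) ≤
          Real.log (At a (n + n) h h) := by linarith
      have n8 : ((t':ℝ) + 1) * (2 * Real.log (Pa a n) - (100 + 2 * |a|) * (1 + Real.log k) +
          (4 + Real.log k)) ≤ ((t':ℝ) + 1) * Real.log (At a (n + n) h h) := by gcongr
      rw [mul_add] at n8
      linarith)
  refine ⟨F / 2, ?_⟩
  have := hF.div_const 2
  refine this.congr ?_
  intro k
  push_cast
  rw [div_div, mul_comm (k:ℝ) 2]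

end Pool.Agent.Ads772.J6e
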