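import Mathlib
import Pool.Agent.Ads772.Defs
import Pool.Agent.Ads772.J1
set_option autoImplicit false
namespace Pool.Agent.Ads772.J7a

open Pool.Agent.Ads772.J1 (mem_brs mem_polys mem_walks)

open Filter Topology

/-! Given results (proved elsewhere, use as black boxes). -/

/-- vertical column `(x, 0), ..., (x, m - 1)` -/
def col (x : ℤ) (m : ℕ) : List (ℤ × ℤ) := (List.range m).map (fun i : ℕ => (x, (i : ℤ)))

theorem nb_symm {u v : ℤ × ℤ} (h : Nb u v) : Nb v u := by
  unfold Nb at h ⊢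
  have e1 : |u.1 - v.1| = |v.1 - u.1| := abs_sub_comm _ _
  have e2 : |u.2 - v.2| = |v.2 - u.2| := abs_sub_comm _ _
  rw [e1, e2]
  exact h

theorem length_col (x : ℤ) (m : ℕ) : (col x m).length = m := by
  simp [col]

theorem mem_col (x : ℤ) (m : ℕ) (v : ℤ × ℤ) :
    v ∈ col x m ↔ v.1 = x ∧ 0 ≤ v.2 ∧ v.2 < m := by
  unfold col
  rw [List.mem_map]
  constructor
  · rintro ⟨i, hi, rfl⟩
    rw [List.mem_range] at hi
    refine ⟨rfl, ?_, ?_⟩
    · show (0 : ℤ) ≤ (i : ℤ)
      positivity
    · show (i : ℤ) < (m : ℤ)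
      exact_mod_cast hi
  · rintro ⟨h1, h2, h3⟩
    refine ⟨v.2.toNat, ?_, ?_⟩
    · rw [List.mem_range]; omega
    · ext
      · exact h1.symm
      · simp [h2]

theorem col_succ (x : ℤ) (m : ℕ) : col x (m + 1) = col x m ++ [(x, (m : ℤ))] := by
  simp [col, List.range_succ]

theorem head_col (x : ℤ) (m : ℕ) : (col x (m + 1)).head? = some (x, 0) := by
  simp [col, List.range_succ_eq_map]

theorem getLast_col (x : ℤ) (m : ℕ) : (col x (m + 1)).getLast? = some (x, (m : ℤ)) := by
  rw [col_succ]; simp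

theorem nodup_col (x : ℤ) (m : ℕ) : (col x m).Nodup := by
  unfold col
  refine List.Nodup.map ?_ List.nodup_range
  intro a b h
  simpa using h

theorem chain_col (x : ℤ) (m : ℕ) : (col x m).IsChain Nb := by
  unfold col
  rw [List.isChain_map, List.isChain_range]
  intro i _
  simp [Nb]

theorem vis_append (l l' : List (ℤ × ℤ)) : vis (l ++ l') = vis l + vis l' := by
  simp [vis]

theorem vis_reverse (l : List (ℤ × ℤ)) : vis l.reverse = vis l := by
  simp [vis]

theorem vis_col (x : ℤ) (m : ℕ) : vis (col x (m + 1)) = 1 := by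
  unfold vis col
  rw [List.range_succ_eq_map, List.map_cons, List.countP_cons, List.map_map, List.countP_map]
  have : List.countP ((fun v : ℤ × ℤ => decide (v.2 = 0)) ∘
      ((fun i : ℕ => (x, (i : ℤ))) ∘ Nat.succ)) (List.range m) = 0 := by
    rw [List.countP_eq_zero]
    intro i _
    simp
    omega
  rw [this]
  simp

theorem vis_eq_zero (l : List (ℤ × ℤ)) (h : ∀ v ∈ l, 0 < v.2) : vis l = 0 := by
  unfold vis
  rw [List.countP_eq_zero]
  intro v hv
  have := h v hv
  simp
  omega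

/-- the end height of the bridge after translation -/
def eh (h0 : ℕ) (l : List (ℤ × ℤ)) : ℕ := ((h0 : ℤ) + (l.getLast?.getD (0, 0)).2).toNat

/-- the closed polygon -/
def clo (T : ℤ) (h0 : ℕ) (p : List (ℤ × ℤ) × List (ℤ × ℤ)) : List (ℤ × ℤ) :=
  p.1 ++ (col T (eh h0 p.2 + 1) ++ ((p.2.map (fun v => (v.1 - 1, v.2 + (h0 : ℤ)))).reverse ++
    (col (-1) h0).reverse))

theorem length_clo (T : ℤ) (h0 : ℕ) (p : List (ℤ × ℤ) × List (ℤ × ℤ)) :
    (clo T h0 p).length = p.1.length + ((eh h0 p.2 + 1) + (p.2.length + h0)) := by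
  simp [clo, length_col]

structure Good1 (T H : ℤ) (l : List (ℤ × ℤ)) : Prop where
  nodup : l.Nodup
  chain : l.IsChain Nb
  head : l.head? = some (0, 0)
  last : l.getLast? = some (T - 1, 0)
  box : ∀ v ∈ l, 0 ≤ v.1 ∧ v.1 ≤ T - 1 ∧ 0 ≤ v.2 ∧ v.2 ≤ H

structure Good2 (T : ℤ) (K : ℤ) (l : List (ℤ × ℤ)) : Prop where
  nodup : l.Nodup
  chain : l.IsChain Nb
  head : l.head? = some (0, 0)
  tl : ∀ v ∈ l.tail, 1 ≤ v.1
  le : ∀ v ∈ l, v.1 ≤ T
  last : ∃ y, l.getLast? = some (T, y)
  conf : ∀ v ∈ l, |v.2| ≤ K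

theorem eh_eq {T K : ℤ} {H h0 : ℕ} {l : List (ℤ × ℤ)} (hl : Good2 T K l)
    (hh : (h0 : ℤ) = H + K + 1) :
    ∃ y : ℤ, l.getLast? = some (T, y) ∧ (eh h0 l : ℤ) = h0 + y ∧ |y| ≤ K := by
  obtain ⟨y, hy⟩ := hl.last
  have hmem : (T, y) ∈ l := List.mem_of_getLast? hy
  have hK := hl.conf _ hmem
  refine ⟨y, hy, ?_, hK⟩
  have := abs_le.mp hK
  simp only at this
  unfold eh
  rw [hy]
  simp only [Option.getD_some]
  omega

theorem clo_spec {T K : ℤ} {H h0 : ℕ} {l1 l2 : List (ℤ × ℤ)} (hT : 1 ≤ T)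
    (h1 : Good1 T H l1) (h2 : Good2 T K l2) (hh : (h0 : ℤ) = H + K + 1) (hK : 0 ≤ K) :
    (clo T h0 (l1, l2)).head? = some (0, 0) ∧ (clo T h0 (l1, l2)).Nodup ∧
      (clo T h0 (l1, l2)).IsChain Nb ∧
      (∃ v, (clo T h0 (l1, l2)).getLast? = some v ∧ Nb v (0, 0)) ∧
      (∀ v ∈ clo T h0 (l1, l2), 0 ≤ v.2) ∧ vis (clo T h0 (l1, l2)) = vis l1 + 2 := by
  obtain ⟨y, hy, hey, hyK⟩ := eh_eq h2 hh
  obtain ⟨m, rfl⟩ : ∃ m, h0 = m + 1 := ⟨h0 - 1, by omega⟩
  set h0 := m + 1 with hh0
  set f : ℤ × ℤ → ℤ × ℤ := fun v => (v.1 - 1, v.2 + (h0 : ℤ)) with hf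
  have hyy := abs_le.mp hyK
  have hfinj : Function.Injective f := by
    intro a b hab
    simp only [hf, Prod.mk.injEq] at hab
    ext <;> omega
  have hne1 : l1 ≠ [] := by
    intro h; have := h1.head; rw [h] at this; simp at this
  have hne2 : l2 ≠ [] := by
    intro h; have := h2.head; rw [h] at this; simp at this
  obtain ⟨t2, rfl⟩ : ∃ t2, l2 = (0, 0) :: t2 := by
    cases l2 with
    | nil => exact absurd rfl hne2
    | cons a t =>
      have := h2.head
      simp only [List.head?_cons, Option.some.injEq] at this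
      exact ⟨t, by rw [this]⟩
  -- membership facts
  have hm2 : ∀ v ∈ (((0, 0) : ℤ × ℤ) :: t2).map f, (v = (-1, (h0 : ℤ)) ∨ 0 ≤ v.1) ∧ v.1 ≤ T - 1 ∧
      (H : ℤ) + 1 ≤ v.2 := by
    intro v hv
    rw [List.mem_map] at hv
    obtain ⟨w, hw, rfl⟩ := hv
    have hw1 := h2.le w hw
    have hw2 := abs_le.mp (h2.conf w hw)
    refine ⟨?_, ?_, ?_⟩
    · rcases List.mem_cons.mp hw with h | h
      · left
        rw [h]
        simp [hf]
      · right
        have := h2.tl w (by simpa using h)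
        simp only [hf]
        omega
    · simp only [hf]; omega
    · simp only [hf]; omega
  refine ⟨?_, ?_, ?_, ?_, ?_, ?_⟩
  · unfold clo
    rw [List.head?_append, h1.head]
    rfl
  · unfold clo
    rw [List.nodup_append, List.nodup_append, List.nodup_append]
    refine ⟨h1.nodup, ⟨nodup_col _ _, ⟨List.nodup_reverse.mpr (h2.nodup.map hfinj),
      List.nodup_reverse.mpr (nodup_col _ _), ?_⟩, ?_⟩, ?_⟩
    · intro a ha b hb hab
      subst hab
      rw [List.mem_reverse] at ha hb
      have e1 := hm2 a ha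
      rw [mem_col] at hb
      rcases e1.1 with e | e
      · rw [e] at hb
        simp only at hb
        omega
      · omega
    · intro a ha b hb hab
      subst hab
      rw [mem_col] at ha
      rw [List.mem_append, List.mem_reverse, List.mem_reverse, mem_col] at hb
      rcases hb with hb | hb
      · have e1 := hm2 a hb
        omega
      · omega
    · intro a ha b hb hab
      subst hab
      have e0 := h1.box a ha
      rw [List.mem_append, List.mem_append, List.mem_reverse, List.mem_reverse, mem_col,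
        mem_col] at hb
      rcases hb with hb | hb | hb
      · omega
      · have e1 := hm2 a hb
        omega
      · omega
  · unfold clo
    refine List.IsChain.append h1.chain (List.IsChain.append (chain_col _ _)
      (List.IsChain.append ?_ ?_ ?_) ?_) ?_
    · rw [List.isChain_reverse, List.isChain_map]
      refine h2.chain.imp ?_
      intro u v huv
      have := nb_symm huv
      unfold Nb at this ⊢
      simp only [hf]
      rw [show u.1 - 1 - (v.1 - 1) = u.1 - v.1 by ring,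
        show u.2 + (h0 : ℤ) - (v.2 + (h0 : ℤ)) = u.2 - v.2 by ring]
      exact this
    · rw [List.isChain_reverse]
      exact (chain_col _ _).imp (fun u v huv => nb_symm huv)
    · intro x hx z hz
      rw [List.getLast?_reverse, List.map_cons, List.head?_cons] at hx
      rw [List.head?_reverse, hh0, getLast_col] at hz
      simp only [Option.mem_def, Option.some.injEq] at hx hz
      rw [← hx, ← hz]
      simp [Nb, hf, hh0]
    · intro x hx z hz
      rw [getLast_col] at hx
      rw [List.head?_append, List.head?_reverse, List.getLast?_map, hy] at hz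
      simp only [Option.mem_def, Option.some.injEq, Option.map_some, Option.some_or] at hx hz
      rw [← hx, ← hz]
      simp only [Nb, hf]
      rw [hey]
      rw [show T - 1 - T = -1 by ring, show y + (h0 : ℤ) - (h0 + y) = 0 by ring]
      norm_num
    · intro x hx z hz
      rw [h1.last] at hx
      rw [List.head?_append, head_col] at hz
      simp only [Option.mem_def, Option.some.injEq, Option.some_or] at hx hz
      rw [← hx, ← hz]
      simp [Nb]
  · refine ⟨(-1, 0), ?_, by simp [Nb]⟩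
    unfold clo
    rw [List.getLast?_append, List.getLast?_append, List.getLast?_append, List.getLast?_reverse,
      hh0, head_col]
    rfl
  · intro v hv
    unfold clo at hv
    rw [List.mem_append, List.mem_append, List.mem_append, List.mem_reverse, List.mem_reverse,
      mem_col, mem_col] at hv
    rcases hv with hv | hv | hv | hv
    · exact (h1.box v hv).2.2.1
    · exact hv.2.1
    · have e1 := hm2 v hv
      omega
    · exact hv.2.1
  · unfold clo
    have hz0 : vis ((((0, 0) : ℤ × ℤ) :: t2).map f) = 0 := by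
      refine vis_eq_zero _ ?_
      intro v hv
      have e1 := hm2 v hv
      omega
    rw [vis_append, vis_append, vis_append, vis_reverse, vis_reverse, vis_col]
    simp only
    rw [hz0, hh0, vis_col]

theorem clo_inj {T K : ℤ} {H h0 : ℕ} {l1 l2 l1' l2' : List (ℤ × ℤ)}
    (hlen : l1.length = l1'.length)
    (h2 : Good2 T K l2) (h2' : Good2 T K l2')
    (he : clo T h0 (l1, l2) = clo T h0 (l1', l2')) : l1 = l1' ∧ l2 = l2' := by
  unfold clo at he
  obtain ⟨e1, e2⟩ := List.append_inj he hlen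
  simp only at e1 e2
  refine ⟨e1, ?_⟩
  rw [← List.append_assoc, ← List.append_assoc] at e2
  have e3 := List.append_cancel_right e2
  have e4 := congrArg (List.filter (fun v : ℤ × ℤ => decide (v.1 ≠ T))) e3
  rw [List.filter_append, List.filter_append] at e4
  have hc : ∀ m, List.filter (fun v : ℤ × ℤ => decide (v.1 ≠ T)) (col T m) = [] := by
    intro m
    rw [List.filter_eq_nil_iff]
    intro v hv
    rw [mem_col] at hv
    simp [hv.1]
  have hr : ∀ l : List (ℤ × ℤ), Good2 T K l →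
      List.filter (fun v : ℤ × ℤ => decide (v.1 ≠ T))
        ((l.map (fun v => (v.1 - 1, v.2 + (h0 : ℤ)))).reverse) =
        ((l.map (fun v => (v.1 - 1, v.2 + (h0 : ℤ)))).reverse) := by
    intro l hl
    rw [List.filter_eq_self]
    intro v hv
    rw [List.mem_reverse, List.mem_map] at hv
    obtain ⟨w, hw, rfl⟩ := hv
    have := hl.le w hw
    simp
    omega
  rw [hc, hc, hr _ h2, hr _ h2', List.nil_append, List.nil_append, List.reverse_inj] at e4
  have hfinj : Function.Injective (fun v : ℤ × ℤ => (v.1 - 1, v.2 + (h0 : ℤ))) := by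
    intro a b hab
    simp only [Prod.mk.injEq] at hab
    ext <;> omega
  exact List.map_injective_iff.mpr hfinj e4

/-! Targets. -/

open Classical in
noncomputable def SU (n W H : ℕ) : Finset (List (ℤ × ℤ)) :=
  (walks n).filter (fun l => (∀ v ∈ l, 0 ≤ v.1 ∧ v.1 ≤ (W : ℤ) ∧ 0 ≤ v.2 ∧ v.2 ≤ (H : ℤ)) ∧
    l.getLast? = some ((W : ℤ), 0))

theorem Ua_eq (a : ℝ) (n W H : ℕ) : Ua a n W H = ∑ l ∈ SU n W H, Real.exp (a * vis l) := by
  unfold Ua SU
  refine Finset.sum_congr ?_ (fun _ _ => rfl)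
  ext l
  simp only [Finset.mem_filter]

theorem mem_SU (n W H : ℕ) (l : List (ℤ × ℤ)) : l ∈ SU n W H ↔ l ∈ walks n ∧
    (∀ v ∈ l, 0 ≤ v.1 ∧ v.1 ≤ (W : ℤ) ∧ 0 ≤ v.2 ∧ v.2 ≤ (H : ℤ)) ∧
    l.getLast? = some ((W : ℤ), 0) := by
  unfold SU
  simp only [Finset.mem_filter]

open Classical in
noncomputable def SP (n : ℕ) : Finset (List (ℤ × ℤ)) :=
  (polys n).filter (fun l => ∀ v ∈ l, 0 ≤ v.2)

theorem Pa_eq (a : ℝ) (n : ℕ) : Pa a n = ∑ l ∈ SP n, Real.exp (a * vis l) := by
  unfold Pa SP
  refine Finset.sum_congr ?_ (fun _ _ => rfl)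
  ext l
  simp only [Finset.mem_filter]

theorem mem_SP (n : ℕ) (l : List (ℤ × ℤ)) : l ∈ SP n ↔ l ∈ polys n ∧ ∀ v ∈ l, 0 ≤ v.2 := by
  unfold SP
  simp only [Finset.mem_filter]

/-- Closing up: an adsorbed unfolded walk along the wall and a confined bridge far above it form,
together with two vertical lines, a polygon. -/
theorem closeup (a z : ℝ) (hz : 0 < z) (hz1 : z ≤ 1) (n₁ T H n₂ K : ℕ) (hT : 1 ≤ T) :
    Ua a n₁ (T - 1) H *
      (∑ l ∈ (brs T n₂).filter (fun l => ∀ v ∈ l, |v.2| ≤ (K : ℤ)), z ^ l.length) *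
      Real.exp (2 * a) * z ^ (n₁ + 1 + 2 * (H + K + 1) + K + 1) ≤
    ∑ n ∈ Finset.range (n₁ + n₂ + 2 * (H + K + 1) + K + 5), Pa a n * z ^ n := by
  set S1 := SU n₁ (T - 1) H with hS1
  set S2 := (brs T n₂).filter (fun l => ∀ v ∈ l, |v.2| ≤ (K : ℤ)) with hS2
  set h0 := H + K + 1 with hh0
  set C := n₁ + 1 + 2 * h0 + K + 1 with hC
  set N := n₁ + n₂ + 2 * h0 + K + 5 with hN
  let F : ℕ → Finset (List (ℤ × ℤ)) := SP
  let w : List (ℤ × ℤ) → ℝ := fun l => Real.exp (a * vis l) * z ^ l.length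
  have hcast : (((T - 1 : ℕ) : ℤ)) = (T : ℤ) - 1 := by omega
  have hG1 : ∀ l ∈ S1, Good1 T H l ∧ l.length = n₁ + 1 := by
    intro l hl
    rw [hS1, mem_SU, mem_walks, hcast] at hl
    obtain ⟨⟨e1, e2, e3, e4⟩, e5, e6⟩ := hl
    exact ⟨⟨e3, e4, e2, e6, e5⟩, e1⟩
  have hG2 : ∀ l ∈ S2, Good2 T K l ∧ l.length ≤ n₂ + 1 := by
    intro l hl
    rw [hS2, Finset.mem_filter, mem_brs] at hl
    obtain ⟨⟨⟨e1, e2, e3, e4, e5, e6⟩, e7⟩, e8⟩ := hl
    exact ⟨⟨e1, e2, e3, e4, e5, e6, e8⟩, e7⟩
  have hhz : (h0 : ℤ) = (H : ℤ) + (K : ℤ) + 1 := by rw [hh0]; push_cast; ring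
  have hwpos : ∀ l, 0 ≤ w l := fun l => by positivity
  -- the right-hand side
  have hR : ∑ n ∈ Finset.range N, Pa a n * z ^ n = ∑ l ∈ (Finset.range N).biUnion F, w l := by
    rw [Finset.sum_biUnion]
    · refine Finset.sum_congr rfl (fun n _ => ?_)
      rw [Pa_eq, Finset.sum_mul]
      refine Finset.sum_congr rfl (fun l hl => ?_)
      have hl' : l ∈ polys n := ((mem_SP _ _).mp hl).1
      rw [mem_polys] at hl'
      show _ = Real.exp (a * vis l) * z ^ l.length
      rw [hl'.1]
    · intro i _ j _ hij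
      rw [Function.onFun, Finset.disjoint_left]
      intro l hi hj
      have h1 := (mem_polys _ _).mp ((mem_SP _ _).mp hi).1
      have h2 := (mem_polys _ _).mp ((mem_SP _ _).mp hj).1
      exact hij (h1.1.symm.trans h2.1)
  rw [hR]
  have hinj : Set.InjOn (clo (T : ℤ) h0) ((S1 ×ˢ S2 : Finset _) : Set _) := by
    rintro ⟨l1, l2⟩ hp ⟨l1', l2'⟩ hp' he
    rw [Finset.mem_coe, Finset.mem_product] at hp hp'
    have g1 := hG1 _ hp.1
    have g1' := hG1 _ hp'.1
    have g2 := hG2 _ hp.2
    have g2' := hG2 _ hp'.2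
    simp only at g1 g1' g2 g2'
    have := clo_inj (H := H) (g1.2.trans g1'.2.symm) g2.1 g2'.1 he
    rw [this.1, this.2]
  have hLHS : Ua a n₁ (T - 1) H * (∑ l ∈ S2, z ^ l.length) * Real.exp (2 * a) * z ^ C =
      ∑ p ∈ S1 ×ˢ S2, (Real.exp (a * vis p.1) * z ^ p.2.length) * Real.exp (2 * a) * z ^ C := by
    rw [Ua_eq, Finset.sum_mul_sum, Finset.sum_mul, Finset.sum_mul, Finset.sum_product]
    refine Finset.sum_congr rfl (fun l _ => ?_)
    rw [Finset.sum_mul, Finset.sum_mul]
  rw [hLHS]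
  calc ∑ p ∈ S1 ×ˢ S2, (Real.exp (a * vis p.1) * z ^ p.2.length) * Real.exp (2 * a) * z ^ C
      ≤ ∑ p ∈ S1 ×ˢ S2, w (clo (T : ℤ) h0 p) := by
        refine Finset.sum_le_sum (fun p hp => ?_)
        rw [Finset.mem_product] at hp
        have g1 := hG1 _ hp.1
        have g2 := hG2 _ hp.2
        have sp := clo_spec (by exact_mod_cast hT) g1.1 g2.1 hhz (by positivity)
        obtain ⟨y, hy, hey, hyK⟩ := eh_eq g2.1 hhz
        have hyy := abs_le.mp hyK
        show _ ≤ Real.exp (a * vis (clo (T : ℤ) h0 p)) * z ^ (clo (T : ℤ) h0 p).length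
        have hp12 : p = (p.1, p.2) := rfl
        rw [hp12, sp.2.2.2.2.2]
        have hlen : (clo (T : ℤ) h0 (p.1, p.2)).length ≤ p.2.length + C := by
          rw [length_clo]
          simp only
          rw [g1.2]
          omega
        have hpow : z ^ (p.2.length + C) ≤ z ^ (clo (T : ℤ) h0 (p.1, p.2)).length :=
          pow_le_pow_of_le_one hz.le hz1 hlen
        calc Real.exp (a * vis p.1) * z ^ p.2.length * Real.exp (2 * a) * z ^ C
            = Real.exp (a * ((vis p.1 + 2 : ℕ) : ℝ)) * z ^ (p.2.length + C) := by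
              have e1 : Real.exp (a * ((vis p.1 + 2 : ℕ) : ℝ)) =
                  Real.exp (a * vis p.1) * Real.exp (2 * a) := by
                rw [← Real.exp_add]
                congr 1
                push_cast
                ring
              rw [e1, pow_add z p.2.length C]
              ring
          _ ≤ _ := mul_le_mul_of_nonneg_left hpow (Real.exp_nonneg _)
    _ = ∑ q ∈ (S1 ×ˢ S2).image (clo (T : ℤ) h0), w q := (Finset.sum_image hinj).symm
    _ ≤ ∑ l ∈ (Finset.range N).biUnion F, w l := by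
        refine Finset.sum_le_sum_of_subset_of_nonneg ?_ (fun l _ _ => hwpos l)
        intro q hq
        rw [Finset.mem_image] at hq
        obtain ⟨p, hp, rfl⟩ := hq
        rw [Finset.mem_product] at hp
        have g1 := hG1 _ hp.1
        have g2 := hG2 _ hp.2
        have sp := clo_spec (by exact_mod_cast hT) g1.1 g2.1 hhz (by positivity)
        obtain ⟨y, hy, hey, hyK⟩ := eh_eq g2.1 hhz
        have hyy := abs_le.mp hyK
        rw [Finset.mem_biUnion]
        refine ⟨(clo (T : ℤ) h0 p).length, ?_, ?_⟩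
        · rw [Finset.mem_range, length_clo]
          have := g1.2
          have := g2.2
          omega
        · show _ ∈ SP _
          rw [mem_SP, mem_polys]
          exact ⟨⟨rfl, sp.1, sp.2.1, sp.2.2.1, sp.2.2.2.1⟩, sp.2.2.2.2.1⟩

end Pool.Agent.Ads772.J7a
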