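import Mathlib
import Pool.Agent.Ads772.Defs
import Pool.Agent.Ads772.J1
import Pool.Agent.Ads772.J2b
import Pool.Agent.Ads772.J3
import Pool.Agent.Ads772.J5a
import Pool.Agent.Ads772.J6d
import Pool.Agent.Ads772.J7a
set_option autoImplicit false
namespace Pool.Agent.Ads772.J7b

open Pool.Agent.Ads772.J1 (mem_brs)
open Pool.Agent.Ads772.J2b (cheap_bridges)
open Pool.Agent.Ads772.J3 (confined)
open Pool.Agent.Ads772.J5a (Ua_pow Un_eq_sum Un_lower)
open Pool.Agent.Ads772.J6d (Pa_odd)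
open Pool.Agent.Ads772.J7a (closeup)

open Filter Topology

/-! Given results (proved elsewhere, use as black boxes). -/

/-! Targets. -/

lemma Pa_nonneg (a : ℝ) (n : ℕ) : 0 ≤ Pa a n := by
  unfold Pa
  exact Finset.sum_nonneg fun _ _ => (Real.exp_pos _).le

lemma Ua_nonneg (a : ℝ) (n W H : ℕ) : 0 ≤ Ua a n W H := by
  unfold Ua
  exact Finset.sum_nonneg fun _ _ => (Real.exp_pos _).le

/-- growth of polygon sums if the free energy is at most `k2` -/
lemma Pa_bound (a k2 F e : ℝ) (hk : 0 ≤ k2) (he : 0 < e) (hFk : F ≤ k2)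
    (hF : Tendsto (fun k : ℕ => Real.log (Pa a (2 * k)) / ((2 * k : ℕ) : ℝ)) atTop (𝓝 F)) :
    ∃ K : ℝ, 0 < K ∧ ∀ n : ℕ, Pa a n * Real.exp (-k2) ^ n ≤ K * Real.exp (e * n) := by
  have h1 : ∀ᶠ k : ℕ in atTop, Real.log (Pa a (2 * k)) / ((2 * k : ℕ) : ℝ) < F + e :=
    hF.eventually (gt_mem_nhds (by linarith))
  obtain ⟨k0, hk0⟩ := Filter.eventually_atTop.mp h1
  have hz : Real.exp (-k2) ≤ 1 := by rw [Real.exp_le_one_iff]; linarith
  have hsum0 : 0 ≤ ∑ n ∈ Finset.range (2 * k0 + 2), Pa a n := Finset.sum_nonneg fun n _ => Pa_nonneg a n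
  refine ⟨1 + ∑ n ∈ Finset.range (2 * k0 + 2), Pa a n, by linarith, fun n => ?_⟩
  have hexp : 1 ≤ Real.exp (e * n) := Real.one_le_exp (by positivity)
  rcases lt_or_ge n (2 * k0 + 2) with hn | hn
  · have h2 : Pa a n ≤ ∑ n ∈ Finset.range (2 * k0 + 2), Pa a n :=
      Finset.single_le_sum (f := fun n => Pa a n) (fun n _ => Pa_nonneg a n) (Finset.mem_range.mpr hn)
    calc Pa a n * Real.exp (-k2) ^ n ≤ Pa a n * 1 := by
          apply mul_le_mul_of_nonneg_left _ (Pa_nonneg a n)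
          exact pow_le_one₀ (Real.exp_pos _).le hz
      _ ≤ (1 + ∑ n ∈ Finset.range (2 * k0 + 2), Pa a n) * 1 := by linarith
      _ ≤ _ := mul_le_mul_of_nonneg_left hexp (by linarith)
  · rcases Nat.even_or_odd n with hev | hodd
    · obtain ⟨k, hk'⟩ := hev
      have hk2 : n = 2 * k := by omega
      have hkk : k0 ≤ k := by omega
      have hnpos : (0 : ℝ) < ((2 * k : ℕ) : ℝ) := by
        have : 0 < 2 * k := by omega
        exact_mod_cast this
      have h3 := hk0 k hkk
      rw [div_lt_iff₀ hnpos] at h3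
      rw [← hk2] at h3 hnpos
      have h4 : Pa a n ≤ Real.exp ((F + e) * n) := by
        rcases (Pa_nonneg a n).eq_or_lt with h0 | hpos
        · rw [← h0]; exact (Real.exp_pos _).le
        · rw [← Real.exp_log hpos]
          exact Real.exp_le_exp.mpr h3.le
      have h5 : Pa a n * Real.exp (-k2) ^ n ≤ Real.exp (e * n) := by
        rw [← Real.exp_nat_mul]
        calc Pa a n * Real.exp (n * -k2) ≤ Real.exp ((F + e) * n) * Real.exp (n * -k2) :=
              mul_le_mul_of_nonneg_right h4 (Real.exp_pos _).le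
          _ = Real.exp ((F + e - k2) * n) := by rw [← Real.exp_add]; ring_nf
          _ ≤ Real.exp (e * n) := by
              apply Real.exp_le_exp.mpr
              apply mul_le_mul_of_nonneg_right _ hnpos.le
              linarith
      have : 0 < Real.exp (e * n) := Real.exp_pos _
      nlinarith
    · rw [Pa_odd a n hodd, zero_mul]
      positivity

lemma brs_len {L M : ℕ} {l : List (ℤ × ℤ)} (h : l ∈ brs L M) : 1 ≤ l.length := by
  rw [mem_brs] at h
  have h1 := h.1.2.2.1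
  cases l with
  | nil => simp at h1
  | cons a t => simp

/-- exponentials beat linear functions -/
lemma exp_vs_linear (A : ℝ) : ∃ s : ℕ, 1 ≤ s ∧ A * s < Real.exp ((s : ℝ) / 2) := by
  have h1 : ∀ s : ℝ, 0 ≤ s → s ^ 2 / 8 ≤ Real.exp (s / 2) := by
    intro s hs
    have := Real.quadratic_le_exp_of_nonneg (show 0 ≤ s / 2 by positivity)
    nlinarith
  obtain ⟨s, hs⟩ := exists_nat_gt (max (8 * A) 1)
  have hs1 : (1 : ℝ) < s := (le_max_right _ _).trans_lt hs
  have hs2 : 8 * A < s := (le_max_left _ _).trans_lt hs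
  refine ⟨s, by exact_mod_cast hs1.le, ?_⟩
  have := h1 s (by linarith)
  nlinarith

set_option maxHeartbeats 1000000 in
/-- The polygon free energy exceeds the connective constant as soon as the walk one does. -/
theorem kappa0_gt (a k2 b F : ℝ) (hk : 0 ≤ k2) (hlow : ∀ n : ℕ, Real.exp (k2 * n) ≤ cnt n)
    (hb : Tendsto (fun n : ℕ => Real.log (Un a n) / n) atTop (𝓝 b)) (hbk : k2 < b)
    (hF : Tendsto (fun k : ℕ => Real.log (Pa a (2 * k)) / ((2 * k : ℕ) : ℝ)) atTop (𝓝 F)) :
    k2 < F := by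
  by_contra hFk
  rw [not_lt] at hFk
  obtain ⟨d, hd⟩ : ∃ d, d = (b - k2) / 2 := ⟨_, rfl⟩
  have hd0 : 0 < d := by rw [hd]; linarith
  have hbd : k2 + d < b := by rw [hd]; linarith
  obtain ⟨z, hz⟩ : ∃ z, z = Real.exp (-k2) := ⟨_, rfl⟩
  have hz0 : 0 < z := hz ▸ Real.exp_pos _
  have hz1 : z ≤ 1 := by rw [hz, Real.exp_le_one_iff]; linarith
  -- choice of `N`
  have hev1 : ∀ᶠ n : ℕ in atTop, k2 + d < Real.log (Un a n) / n := hb.eventually (lt_mem_nhds hbd)
  have hev2 : ∀ᶠ n : ℕ in atTop, (3 + 4 * (k2 + Real.log (4 / d)) / d) ≤ (n : ℝ) :=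
    tendsto_natCast_atTop_atTop.eventually_ge_atTop _
  obtain ⟨N, hN1, hN2, hN3⟩ := (hev1.and (hev2.and (eventually_ge_atTop 1))).exists
  have hNR : (1 : ℝ) ≤ N := by exact_mod_cast hN3
  have hlogN : 1 ≤ d * N / 2 - d / 2 - k2 - Real.log (N + 1) := by
    have h1 : Real.log (N + 1) ≤ (N + 1) * d / 4 - 1 + Real.log (4 / d) := by
      have h2 : Real.log (((N : ℝ) + 1) * d / 4) ≤ ((N : ℝ) + 1) * d / 4 - 1 :=
        Real.log_le_sub_one_of_pos (by positivity)
      have h3 : Real.log (N + 1) = Real.log (((N : ℝ) + 1) * d / 4) + Real.log (4 / d) := by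
        rw [← Real.log_mul (by positivity) (by positivity)]
        congr 1
        field_simp
      linarith
    have h4 : (3 + 4 * (k2 + Real.log (4 / d)) / d) * d ≤ N * d :=
      mul_le_mul_of_nonneg_right hN2 hd0.le
    have h5 : (3 + 4 * (k2 + Real.log (4 / d)) / d) * d = 3 * d + 4 * (k2 + Real.log (4 / d)) := by
      field_simp
    rw [h5] at h4
    linarith
  have hUn : Real.exp ((k2 + d) * N) ≤ Un a N := by
    have hpos : 0 < Un a N := (Real.exp_pos _).trans_le (Un_lower a N)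
    rw [lt_div_iff₀ (by linarith)] at hN1
    rw [← Real.exp_log hpos]
    exact Real.exp_le_exp.mpr hN1.le
  obtain ⟨W, hW, hUW⟩ : ∃ W ∈ Finset.range (N + 1), Real.exp ((k2 + d) * N) / (N + 1) ≤ Ua a N W N := by
    by_contra hcon
    push Not at hcon
    rw [Un_eq_sum] at hUn
    have h1 : ∑ W ∈ Finset.range (N + 1), Ua a N W N <
        ∑ W ∈ Finset.range (N + 1), Real.exp ((k2 + d) * N) / (N + 1) :=
      Finset.sum_lt_sum_of_nonempty ⟨0, Finset.mem_range.mpr (Nat.succ_pos N)⟩ hcon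
    rw [Finset.sum_const, Finset.card_range, nsmul_eq_mul] at h1
    have h2 : ((N + 1 : ℕ) : ℝ) * (Real.exp ((k2 + d) * N) / (N + 1)) = Real.exp ((k2 + d) * N) := by
      push_cast
      field_simp
    linarith
  have hWN : (W : ℝ) + 1 ≤ N + 1 := by
    have := Finset.mem_range.mp hW
    exact_mod_cast this
  -- the bridges
  obtain ⟨L₀, hL₀⟩ := exists_nat_ge (Real.log 2 / (d / 4))
  obtain ⟨L, M, hL, hL1, hB⟩ := cheap_bridges k2 hk hlow (d / 4) (by positivity) L₀
  have hLR : (1 : ℝ) ≤ L := by exact_mod_cast hL1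
  have hlog2 : Real.log 2 ≤ d / 4 * L := by
    have h1 : Real.log 2 / (d / 4) ≤ L := hL₀.trans (by exact_mod_cast hL)
    rw [div_le_iff₀ (by positivity)] at h1
    linarith
  obtain ⟨B, hBdef⟩ : ∃ B, B = ∑ l ∈ brs L M, z ^ (l.length - 1) := ⟨_, rfl⟩
  have hB' : Real.exp (-(d / 4) * L) ≤ B := by
    refine hB.trans (le_of_eq ?_)
    rw [hBdef]
    refine Finset.sum_congr rfl fun l hl => ?_
    have hlen := brs_len hl
    rw [hz, ← Real.exp_nat_mul]
    congr 1
    push_cast [Nat.cast_sub hlen]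
    ring
  have hB2 : Real.exp (-(d / 2) * L) ≤ B / 2 := by
    have h1 : Real.exp (-(d / 2) * L) ≤ Real.exp (-(d / 4) * L) / 2 := by
      have h2 : Real.exp (-(d / 4) * L) / 2 = Real.exp (-(d / 4) * L - Real.log 2) := by
        rw [Real.exp_sub, Real.exp_log (by norm_num)]
      rw [h2]
      apply Real.exp_le_exp.mpr
      nlinarith
    linarith
  have hB20 : 0 < B / 2 := (Real.exp_pos _).trans_le hB2
  obtain ⟨U, hU⟩ : ∃ U, U = Ua a N W N := ⟨_, rfl⟩
  rw [← hU] at hUW
  have hUz : Real.exp (d * N - k2 - Real.log (N + 1)) ≤ U * z ^ (N + 1) := by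
    have h1 : Real.exp (d * N - k2 - Real.log (N + 1)) =
        Real.exp ((k2 + d) * N) / (N + 1) * z ^ (N + 1) := by
      rw [hz, ← Real.exp_nat_mul, show d * N - k2 - Real.log (N + 1) =
        ((k2 + d) * N - Real.log (N + 1)) + ((N + 1 : ℕ) : ℝ) * -k2 by push_cast; ring,
        Real.exp_add, Real.exp_sub, Real.exp_log (by positivity)]
    rw [h1]
    exact mul_le_mul_of_nonneg_right hUW (by positivity)
  have hUz0 : 0 < U * z ^ (N + 1) := (Real.exp_pos _).trans_le hUz
  obtain ⟨q, hq⟩ : ∃ q, q = (U * z ^ (N + 1)) ^ L * (B / 2) ^ (W + 1) := ⟨_, rfl⟩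
  have hq1 : Real.exp 1 ≤ q := by
    calc Real.exp 1 ≤ Real.exp (L * (d * N - k2 - Real.log (N + 1)) + ((W + 1 : ℕ) : ℝ) * (-(d / 2) * L)) := by
          apply Real.exp_le_exp.mpr
          push_cast
          have h1 : (W + 1 : ℝ) * (d / 2 * L) ≤ (N + 1) * (d / 2 * L) :=
            mul_le_mul_of_nonneg_right hWN (by positivity)
          have h2 : (L : ℝ) * 1 ≤ L * (d * N / 2 - d / 2 - k2 - Real.log (N + 1)) :=
            mul_le_mul_of_nonneg_left hlogN (by linarith)
          nlinarith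
      _ = Real.exp (d * N - k2 - Real.log (N + 1)) ^ L * Real.exp (-(d / 2) * L) ^ (W + 1) := by
          rw [Real.exp_add, Real.exp_nat_mul, Real.exp_nat_mul]
      _ ≤ q := by
          rw [hq]
          gcongr
  have hq0 : 0 < q := (Real.exp_pos _).trans_le hq1
  -- the constants
  obtain ⟨c, hc⟩ : ∃ c, c = z * Real.exp (2 * a) * z ^ (2 * (N + 2 * M + 1) + 2 * M + 1) := ⟨_, rfl⟩
  have hc0 : 0 < c := by rw [hc]; positivity
  obtain ⟨C2, hC2⟩ : ∃ C2 : ℕ, C2 = L * (N + 1) + (W + 1) * M + 2 * N + 6 * M + 7 := ⟨_, rfl⟩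
  have hC2pos : 0 < C2 := by omega
  have hC2R : (0 : ℝ) < C2 := by exact_mod_cast hC2pos
  obtain ⟨e, he⟩ : ∃ e : ℝ, e = 1 / (2 * C2) := ⟨_, rfl⟩
  have he0 : 0 < e := by rw [he]; positivity
  obtain ⟨Ke, hKe0, hKe⟩ := Pa_bound a k2 F e hk he0 hFk hF
  rw [← hz] at hKe
  have hmain : ∀ s : ℕ, 1 ≤ s → c * q ^ s ≤ C2 * s * (Ke * Real.exp (e * (C2 * s))) := by
    intro s hs
    have hm : 1 ≤ L * s := Nat.mul_pos hL1 hs
    have hT : 1 ≤ (s * (W + 1)) * L := Nat.mul_pos (Nat.mul_pos hs (Nat.succ_pos W)) hL1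
    have hTe : (L * s) * (W + 1) = (s * (W + 1)) * L := by ring
    have h1 := Ua_pow a N W N (L * s) hm
    rw [hTe] at h1
    have h2 := confined z hz0 L M hL1 (s * (W + 1))
    rw [← hBdef] at h2
    have h3 := closeup a z hz0 hz1 ((L * s) * (N + 1) - 1) ((s * (W + 1)) * L) N
      ((s * (W + 1)) * M) (2 * M) hT
    have h4 : ∑ l ∈ (brs ((s * (W + 1)) * L) ((s * (W + 1)) * M)).filter
          (fun l => ∀ v ∈ l, |v.2| ≤ ((2 * M : ℕ) : ℤ)), z ^ l.length =
        z * ∑ l ∈ (brs ((s * (W + 1)) * L) ((s * (W + 1)) * M)).filter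
          (fun l => ∀ v ∈ l, |v.2| ≤ 2 * (M : ℤ)), z ^ (l.length - 1) := by
      rw [Finset.mul_sum]
      have hcast : ((2 * M : ℕ) : ℤ) = 2 * (M : ℤ) := by push_cast; ring
      rw [hcast]
      refine Finset.sum_congr rfl fun l hl => ?_
      have hlen := brs_len (Finset.mem_filter.mp hl).1
      rw [← pow_succ']
      congr 1
      omega
    rw [h4] at h3
    have h5 : ∑ n ∈ Finset.range ((L * s) * (N + 1) - 1 + (s * (W + 1)) * M + 2 * (N + 2 * M + 1) + 2 * M + 5),
        Pa a n * z ^ n ≤ C2 * s * (Ke * Real.exp (e * (C2 * s))) := by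
      have hR : (L * s) * (N + 1) - 1 + (s * (W + 1)) * M + 2 * (N + 2 * M + 1) + 2 * M + 5 ≤ C2 * s := by
        rw [hC2]
        have e1 : (L * s) * (N + 1) = L * (N + 1) * s := by ring
        have e2 : (s * (W + 1)) * M = (W + 1) * M * s := by ring
        rw [e1, e2]
        have e3 : (L * (N + 1) + (W + 1) * M + 2 * N + 6 * M + 7) * s =
          L * (N + 1) * s + (W + 1) * M * s + (2 * N + 6 * M + 7) * s := by ring
        rw [e3]
        have e4 : (2 * N + 6 * M + 7) * 1 ≤ (2 * N + 6 * M + 7) * s := Nat.mul_le_mul_left _ hs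
        omega
      calc ∑ n ∈ Finset.range ((L * s) * (N + 1) - 1 + (s * (W + 1)) * M + 2 * (N + 2 * M + 1) + 2 * M + 5),
          Pa a n * z ^ n ≤ ∑ n ∈ Finset.range (C2 * s), Pa a n * z ^ n := by
            apply Finset.sum_le_sum_of_subset_of_nonneg
            · exact Finset.range_subset_range.mpr hR
            · intro n _ _
              exact mul_nonneg (Pa_nonneg a n) (by positivity)
        _ ≤ ∑ n ∈ Finset.range (C2 * s), Ke * Real.exp (e * (C2 * s)) := by
            refine Finset.sum_le_sum fun n hn => (hKe n).trans ?_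
            apply mul_le_mul_of_nonneg_left _ hKe0.le
            apply Real.exp_le_exp.mpr
            apply mul_le_mul_of_nonneg_left _ he0.le
            have := Finset.mem_range.mp hn
            exact_mod_cast this.le
        _ = _ := by
            rw [Finset.sum_const, Finset.card_range, nsmul_eq_mul]
            push_cast
            ring
    refine le_trans ?_ (h3.trans h5)
    have hsub : (L * s) * (N + 1) - 1 + 1 = (L * s) * (N + 1) :=
      Nat.sub_add_cancel (Nat.mul_pos hm (Nat.succ_pos N))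
    rw [hsub]
    have e5 : c * q ^ s = (U ^ (L * s)) * (z * (B / 2) ^ (s * (W + 1))) * Real.exp (2 * a) *
        z ^ ((L * s) * (N + 1) + 2 * (N + 2 * M + 1) + 2 * M + 1) := by
      rw [hc, hq, mul_pow, ← pow_mul, ← pow_mul, mul_pow, ← pow_mul]
      have : z ^ ((L * s) * (N + 1) + 2 * (N + 2 * M + 1) + 2 * M + 1) =
          z ^ ((N + 1) * (L * s)) * z ^ (2 * (N + 2 * M + 1) + 2 * M + 1) := by
        rw [← pow_add]; congr 1; ring
      rw [this, show (W + 1) * s = s * (W + 1) by ring]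
      ring
    rw [e5]
    rw [← hU] at h1
    have hU0 : 0 ≤ U := by rw [hU]; exact Ua_nonneg _ _ _ _
    have hU1 := Ua_nonneg a (L * s * (N + 1) - 1) (s * (W + 1) * L - 1) N
    gcongr
  -- contradiction
  obtain ⟨s, hs1, hs⟩ := exp_vs_linear (C2 * Ke / c)
  have h1 := hmain s hs1
  have h2 : e * (C2 * s) = s / 2 := by
    rw [he]; field_simp
  rw [h2] at h1
  have h3 : Real.exp ((s : ℝ) / 2) * Real.exp ((s : ℝ) / 2) ≤ q ^ s := by
    rw [← Real.exp_add]
    calc Real.exp ((s : ℝ) / 2 + s / 2) = Real.exp 1 ^ s := by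
          rw [← Real.exp_nat_mul]; congr 1; ring
      _ ≤ q ^ s := by gcongr
  have h4 : 0 < Real.exp ((s : ℝ) / 2) := Real.exp_pos _
  have h5 : c * (Real.exp ((s : ℝ) / 2) * Real.exp ((s : ℝ) / 2)) ≤
      C2 * s * (Ke * Real.exp ((s : ℝ) / 2)) :=
    (mul_le_mul_of_nonneg_left h3 hc0.le).trans h1
  have h6 : c * Real.exp ((s : ℝ) / 2) ≤ C2 * s * Ke := by
    have : c * Real.exp ((s : ℝ) / 2) * Real.exp ((s : ℝ) / 2) ≤ C2 * s * Ke * Real.exp ((s : ℝ) / 2) := by
      linarith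
    exact le_of_mul_le_mul_right this h4
  have h7 : C2 * Ke / c * s * c = C2 * s * Ke := by field_simp
  have h8 : C2 * Ke / c * s * c < Real.exp ((s : ℝ) / 2) * c := mul_lt_mul_of_pos_right hs hc0
  linarith

end Pool.Agent.Ads772.J7b
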