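import Mathlib
import Pool.Agent.Ads772.Defs
import Pool.Agent.Ads772.J1
set_option autoImplicit false
namespace Pool.Agent.Ads772.J8a

open Pool.Agent.Ads772.J1 (mem_polys mem_walks)

open Filter Topology

/-! Given results (proved elsewhere, use as black boxes). -/

/-! Helper lemmas. -/

lemma vis_ofFn {n : ℕ} (w : Fin n → ℤ × ℤ) :
    vis (List.ofFn w) = (Finset.univ.filter (fun i : Fin n => (w i).2 = 0)).card := by
  unfold vis
  rw [List.ofFn_eq_map, List.countP_map, Finset.card_def, Finset.filter_val, Fin.univ_def]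
  simp only [Multiset.filter_coe, Multiset.coe_card, List.countP_eq_length_filter]
  rfl

lemma conv_aux {N : ℕ} (a : ℝ) (R : ℕ) (S : ℕ → Set (Fin N → ℤ × ℤ))
    (F : (Fin N → ℤ × ℤ) → List (ℤ × ℤ)) (W : Finset (List (ℤ × ℤ)))
    (hinj : ∀ m, Set.InjOn F (S m))
    (himg : ∀ m l, (∃ w ∈ S m, F w = l) ↔ (l ∈ W ∧ vis l = m))
    (hR : ∀ l ∈ W, vis l < R) :
    ∑ m ∈ Finset.range R, ((S m).ncard : ℝ) * Real.exp (a * (m : ℝ)) =
      ∑ l ∈ W, Real.exp (a * vis l) := by
  classical
  have h1 : ∀ m, (S m).ncard = (W.filter (fun l => vis l = m)).card := by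
    intro m
    rw [← (hinj m).ncard_image, ← Set.ncard_coe_finset]
    congr 1
    ext l
    rw [Set.mem_image, himg m l, Finset.mem_coe, Finset.mem_filter]
  rw [← Finset.sum_fiberwise_of_maps_to (s := W) (t := Finset.range R) (g := vis)
    (fun l hl => Finset.mem_range.mpr (hR l hl))]
  apply Finset.sum_congr rfl
  intro m _
  rw [h1 m]
  have h2 : ∀ l ∈ W.filter (fun l => vis l = m), Real.exp (a * vis l) = Real.exp (a * m) := by
    intro l hl
    rw [Finset.mem_filter] at hl
    rw [hl.2]
  rw [Finset.sum_congr rfl h2, Finset.sum_const, nsmul_eq_mul]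

lemma exists_ofFn (n : ℕ) (l : List (ℤ × ℤ)) (h : l.length = n) :
    ∃ w : Fin n → ℤ × ℤ, List.ofFn w = l := by
  subst h
  exact ⟨fun i => l[i.val], by simp⟩

lemma vis_le (l : List (ℤ × ℤ)) : vis l ≤ l.length := List.countP_le_length

/-! Targets. -/

/-- conversion of the frozen walk partition function -/
theorem Wa_eq (a : ℝ) (n : ℕ) :
    (∑ m ∈ Finset.range (n + 2),
      (({w : Fin (n + 1) → ℤ × ℤ |
          w 0 = 0 ∧ Function.Injective w ∧ (∀ i, 0 ≤ (w i).2) ∧
          (∀ i : Fin n, |(w i.succ).1 - (w i.castSucc).1|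
              + |(w i.succ).2 - (w i.castSucc).2| = 1) ∧
          (Finset.univ.filter (fun i : Fin (n + 1) => (w i).2 = 0)).card = m}
        : Set (Fin (n + 1) → ℤ × ℤ)).ncard : ℝ) * Real.exp (a * (m : ℝ))) = Wa a n := by
  classical
  unfold Wa
  refine conv_aux a (n + 2) _ List.ofFn _ ?_ ?_ ?_
  · intro m
    exact (List.ofFn_injective).injOn
  · intro m l
    rw [Finset.mem_filter, mem_walks]
    constructor
    · rintro ⟨w, ⟨h0, hi, hp, hs, hc⟩, rfl⟩
      refine ⟨⟨⟨by simp, ?_, List.nodup_ofFn.mpr hi, ?_⟩, ?_⟩, ?_⟩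
      · rw [List.ofFn_succ, List.head?_cons, h0]; rfl
      · rw [List.isChain_ofFn]
        intro i hi2
        have := hs ⟨i, by omega⟩
        exact this
      · intro v hv
        rw [List.mem_ofFn] at hv
        obtain ⟨i, rfl⟩ := hv
        exact hp i
      · rw [vis_ofFn]; exact hc
    · rintro ⟨⟨⟨hlen, hh, hnd, hch⟩, hpos⟩, hv⟩
      obtain ⟨w, rfl⟩ := exists_ofFn (n + 1) l hlen
      refine ⟨w, ⟨?_, List.nodup_ofFn.mp hnd, ?_, ?_, ?_⟩, rfl⟩
      · rw [List.ofFn_succ, List.head?_cons] at hh
        exact Option.some.inj hh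
      · intro i
        exact hpos _ (List.mem_ofFn.mpr ⟨i, rfl⟩)
      · intro i
        rw [List.isChain_ofFn] at hch
        exact hch i.val (by have := i.isLt; omega)
      · rw [← vis_ofFn]; exact hv
  · intro l hl
    rw [Finset.mem_filter, mem_walks] at hl
    have := vis_le l
    omega

/-- conversion of the frozen polygon partition function -/
theorem Pa_eq (a : ℝ) (k : ℕ) (hk : 1 ≤ k) :
    (∑ m ∈ Finset.range (2 * k + 2),
      (({w : Fin (2 * k + 1) → ℤ × ℤ |
          w 0 = 0 ∧ w (Fin.last (2 * k)) = 0 ∧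
          (∀ i j : Fin (2 * k + 1), i.val < 2 * k → j.val < 2 * k → w i = w j → i = j) ∧
          (∀ i, 0 ≤ (w i).2) ∧
          (∀ i : Fin (2 * k), |(w i.succ).1 - (w i.castSucc).1|
              + |(w i.succ).2 - (w i.castSucc).2| = 1) ∧
          (Finset.univ.filter
            (fun i : Fin (2 * k + 1) => i.val < 2 * k ∧ (w i).2 = 0)).card = m}
        : Set (Fin (2 * k + 1) → ℤ × ℤ)).ncard : ℝ) * Real.exp (a * (m : ℝ))) = Pa a (2 * k) := by
  classical
  unfold Pa
  have hcard : ∀ w : Fin (2 * k + 1) → ℤ × ℤ,
      (Finset.univ.filter (fun i : Fin (2 * k + 1) => i.val < 2 * k ∧ (w i).2 = 0)).card =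
      (Finset.univ.filter (fun i : Fin (2 * k) => (w i.castSucc).2 = 0)).card := by
    intro w
    symm
    apply Finset.card_bij (fun i _ => i.castSucc)
    · intro i hi
      rw [Finset.mem_filter] at *
      exact ⟨Finset.mem_univ _, by simp, hi.2⟩
    · intro i _ j _ hij
      exact Fin.castSucc_injective _ hij
    · intro i hi
      rw [Finset.mem_filter] at hi
      refine ⟨⟨i.val, hi.2.1⟩, ?_, rfl⟩
      rw [Finset.mem_filter]
      exact ⟨Finset.mem_univ _, hi.2.2⟩
  refine conv_aux a (2 * k + 2) _ (fun w => List.ofFn (fun i : Fin (2 * k) => w i.castSucc)) _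
    ?_ ?_ ?_
  · intro m w hw w' hw' hww
    have h1 := List.ofFn_injective hww
    funext i
    by_cases hi : i.val < 2 * k
    · have := congrFun h1 ⟨i.val, hi⟩
      exact this
    · have : i = Fin.last (2 * k) := by
        apply Fin.ext
        have := i.isLt
        simp only [Fin.val_last]
        omega
      rw [this, hw.2.1, hw'.2.1]
  · intro m l
    rw [Finset.mem_filter, mem_polys]
    constructor
    · rintro ⟨w, ⟨h0, hlast, hi, hp, hs, hc⟩, rfl⟩
      refine ⟨⟨⟨by simp, ?_, ?_, ?_, ?_⟩, ?_⟩, ?_⟩
      · obtain ⟨k', hk'⟩ : ∃ k', 2 * k = k' + 1 := ⟨2 * k - 1, by omega⟩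
        have h5 : (List.ofFn (fun i : Fin (2 * k) => w i.castSucc)) ≠ [] := by
          intro hnil
          have := congrArg List.length hnil
          simp at this
          omega
        rw [List.head?_eq_some_head h5, Option.some.injEq, List.head_eq_getElem,
          List.getElem_ofFn]
        exact h0
      · rw [List.nodup_ofFn]
        intro i j hij
        have := hi i.castSucc j.castSucc (by simp) (by simp) hij
        exact Fin.castSucc_injective _ this
      · rw [List.isChain_ofFn]
        intro i hi2
        exact hs ⟨i, by omega⟩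
      · refine ⟨w (Fin.castSucc ⟨2 * k - 1, by omega⟩), ?_, ?_⟩
        · rw [List.getLast?_eq_getElem?, List.length_ofFn, List.getElem?_eq_getElem (by simp; omega),
            List.getElem_ofFn]
        · have := hs ⟨2 * k - 1, by omega⟩
          have h6 : Fin.succ (⟨2 * k - 1, by omega⟩ : Fin (2 * k)) = Fin.last (2 * k) := by
            apply Fin.ext
            simp only [Fin.succ_mk, Fin.val_last]
            omega
          rw [h6, hlast] at this
          exact this
      · intro v hv
        rw [List.mem_ofFn] at hv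
        obtain ⟨i, rfl⟩ := hv
        exact hp i.castSucc
      · rw [vis_ofFn, ← hcard]; exact hc
    · rintro ⟨⟨⟨hlen, hh, hnd, hch, v, hv1, hv2⟩, hpos⟩, hv⟩
      obtain ⟨u, rfl⟩ := exists_ofFn (2 * k) l hlen
      set w : Fin (2 * k + 1) → ℤ × ℤ := fun i => if h : i.val < 2 * k then u ⟨i.val, h⟩ else 0
        with hw
      have hwc : (fun i : Fin (2 * k) => w i.castSucc) = u := by
        funext i
        simp [hw]
      have hwl : w (Fin.last (2 * k)) = 0 := by simp [hw]
      rw [← hwc] at hh hnd hch hv1 hpos hv ⊢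
      have h5 : (List.ofFn (fun i : Fin (2 * k) => w i.castSucc)) ≠ [] := by
        intro hnil
        have := congrArg List.length hnil
        simp at this
        omega
      refine ⟨w, ⟨?_, hwl, ?_, ?_, ?_, ?_⟩, rfl⟩
      · rw [List.head?_eq_some_head h5, Option.some.injEq, List.head_eq_getElem,
          List.getElem_ofFn] at hh
        exact hh
      · intro i j hi hj hij
        rw [List.nodup_ofFn] at hnd
        have := @hnd ⟨i.val, hi⟩ ⟨j.val, hj⟩ hij
        apply Fin.ext
        have := congrArg Fin.val this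
        exact this
      · intro i
        by_cases hi : i.val < 2 * k
        · exact hpos _ (List.mem_ofFn.mpr ⟨⟨i.val, hi⟩, rfl⟩)
        · have : i = Fin.last (2 * k) := by
            apply Fin.ext
            have := i.isLt
            simp only [Fin.val_last]
            omega
          rw [this, hwl]; exact le_refl 0
      · intro i
        rw [List.isChain_ofFn] at hch
        by_cases hi : i.val + 1 < 2 * k
        · exact hch i.val hi
        · have hi3 : i.val = 2 * k - 1 := by have := i.isLt; omega
          have h6 : i.succ = Fin.last (2 * k) := by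
            apply Fin.ext
            simp only [Fin.val_succ, Fin.val_last]
            omega
          rw [h6, hwl]
          rw [List.getLast?_eq_getElem?, List.length_ofFn, List.getElem?_eq_getElem (by simp; omega),
            List.getElem_ofFn, Option.some.injEq] at hv1
          have h7 : (⟨2 * k - 1, by omega⟩ : Fin (2 * k)) = i := Fin.ext hi3.symm
          have h8 : w i.castSucc = v := by
            rw [← hv1, ← h7]
          rw [h8]
          exact hv2
      · rw [hcard, ← vis_ofFn]; exact hv
  · intro l hl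
    rw [Finset.mem_filter, mem_polys] at hl
    have := vis_le l
    omega

end Pool.Agent.Ads772.J8a
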