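import Mathlib
import Pool.Agent.Ads772.Defs
import Pool.Agent.Ads772.J1
import Pool.Agent.Ads772.J5d
import Pool.Agent.Ads772.J6d
import Pool.Agent.Ads772.J6e
import Pool.Agent.Ads772.J7b
import Pool.Agent.Ads772.J8a
set_option autoImplicit false
namespace Pool.Agent.Ads772.J8b

open Pool.Agent.Ads772.J1 (exists_k2)
open Pool.Agent.Ads772.J5d (kappa_exists)
open Pool.Agent.Ads772.J6d (Pa_zero_le)
open Pool.Agent.Ads772.J6e (kappa0_exists)
open Pool.Agent.Ads772.J7b (kappa0_gt)
open Pool.Agent.Ads772.J8a (Pa_eq Wa_eq)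

open Filter Topology

/-! Given results (proved elsewhere, use as black boxes). -/

/-! Targets. -/

/-- the polygon free energy at `a = 0` is at most `k2` -/
theorem F_zero_le (k2 F : ℝ) (hk2 : Tendsto (fun n : ℕ => Real.log (cnt n) / n) atTop (𝓝 k2))
    (hF : Tendsto (fun k : ℕ => Real.log (Pa 0 (2 * k)) / ((2 * k : ℕ) : ℝ)) atTop (𝓝 F))
    (hlow : ∀ n : ℕ, Real.exp (k2 * n) ≤ cnt n) (h0 : 0 ≤ k2) :
    F ≤ k2 := by
  have hsub : Tendsto (fun k : ℕ => 2 * k + 1) atTop atTop :=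
    tendsto_atTop_mono (fun k => (by simp only [id]; omega : id k ≤ 2 * k + 1)) tendsto_id
  have h1 : Tendsto (fun k : ℕ => Real.log (cnt (2 * k + 1)) / ((2 * k + 1 : ℕ) : ℝ)) atTop (𝓝 k2) :=
    hk2.comp hsub
  have hF' : Tendsto (fun k : ℕ => Real.log (Pa 0 (2 * (k + 1))) / ((2 * (k + 1) : ℕ) : ℝ))
      atTop (𝓝 F) := hF.comp (tendsto_add_atTop_nat 1)
  refine le_of_tendsto_of_tendsto hF' h1 (Eventually.of_forall fun k => ?_)
  have hP : Pa 0 (2 * (k + 1)) ≤ cnt (2 * k + 1) := by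
    have := Pa_zero_le (2 * k + 1)
    have e : 2 * k + 1 + 1 = 2 * (k + 1) := by ring
    rw [e] at this
    exact this
  have hc : 0 ≤ Real.log (cnt (2 * k + 1)) := by
    apply Real.log_nonneg
    refine le_trans ?_ (hlow _)
    apply Real.one_le_exp
    positivity
  have hlog : Real.log (Pa 0 (2 * (k + 1))) ≤ Real.log (cnt (2 * k + 1)) := by
    by_cases hp : 0 < Pa 0 (2 * (k + 1))
    · exact Real.log_le_log hp hP
    · have hnn : 0 ≤ Pa 0 (2 * (k + 1)) := by
        unfold Pa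
        exact Finset.sum_nonneg (fun _ _ => (Real.exp_pos _).le)
      have : Pa 0 (2 * (k + 1)) = 0 := le_antisymm (not_lt.1 hp) hnn
      rw [this, Real.log_zero]
      exact hc
  have hpos1 : (0 : ℝ) < ((2 * k + 1 : ℕ) : ℝ) := by positivity
  have hpos2 : (0 : ℝ) < ((2 * (k + 1) : ℕ) : ℝ) := by positivity
  calc Real.log (Pa 0 (2 * (k + 1))) / ((2 * (k + 1) : ℕ) : ℝ)
      ≤ Real.log (cnt (2 * k + 1)) / ((2 * (k + 1) : ℕ) : ℝ) :=
        div_le_div_of_nonneg_right hlog hpos2.le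
    _ ≤ Real.log (cnt (2 * k + 1)) / ((2 * k + 1 : ℕ) : ℝ) := by
        apply div_le_div_of_nonneg_left hc hpos1
        exact_mod_cast (by omega : 2 * k + 1 ≤ 2 * (k + 1))

/-- the frozen statement S11726 -/
theorem statement_S11726 :
    ¬ (∀ κ κ0 : ℝ → ℝ,
      (∀ α : ℝ, Filter.Tendsto
        (fun n : ℕ => (1 / (n : ℝ)) * Real.log
          (∑ m ∈ Finset.range (n + 2),
            (({w : Fin (n + 1) → ℤ × ℤ |
                w 0 = 0 ∧ Function.Injective w ∧ (∀ i, 0 ≤ (w i).2) ∧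
                (∀ i : Fin n, |(w i.succ).1 - (w i.castSucc).1|
                    + |(w i.succ).2 - (w i.castSucc).2| = 1) ∧
                (Finset.univ.filter (fun i : Fin (n + 1) => (w i).2 = 0)).card = m}
              : Set (Fin (n + 1) → ℤ × ℤ)).ncard : ℝ) * Real.exp (α * (m : ℝ))))
        Filter.atTop (nhds (κ α))) →
      (∀ α : ℝ, Filter.Tendsto
        (fun k : ℕ => (1 / ((2 * k : ℕ) : ℝ)) * Real.log
          (∑ m ∈ Finset.range (2 * k + 2),
            (({w : Fin (2 * k + 1) → ℤ × ℤ |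
                w 0 = 0 ∧ w (Fin.last (2 * k)) = 0 ∧
                (∀ i j : Fin (2 * k + 1), i.val < 2 * k → j.val < 2 * k → w i = w j → i = j) ∧
                (∀ i, 0 ≤ (w i).2) ∧
                (∀ i : Fin (2 * k), |(w i.succ).1 - (w i.castSucc).1|
                    + |(w i.succ).2 - (w i.castSucc).2| = 1) ∧
                (Finset.univ.filter
                  (fun i : Fin (2 * k + 1) => i.val < 2 * k ∧ (w i).2 = 0)).card = m}
              : Set (Fin (2 * k + 1) → ℤ × ℤ)).ncard : ℝ) * Real.exp (α * (m : ℝ))))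
        Filter.atTop (nhds (κ0 α))) →
      ∃ α : ℝ, κ0 α = κ0 0 ∧ κ 0 < κ α) := by
  intro h
  obtain ⟨k2, hk0, hk2, hlow⟩ := exists_k2
  choose b hb hW using fun a => kappa_exists a k2 hk2
  choose F hF using kappa0_exists
  have key := h (fun a => max k2 (b a)) F ?_ ?_
  · obtain ⟨α, h1, h2⟩ := key
    have hlt : k2 < max k2 (b α) := lt_of_le_of_lt (le_max_left _ _) h2
    have hbα : k2 < b α := by
      rcases lt_max_iff.1 hlt with h3 | h3
      · exact absurd h3 (lt_irrefl _)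
      · exact h3
    have h4 := kappa0_gt α k2 (b α) (F α) hk0 hlow (hb α) hbα (hF α)
    have h5 := F_zero_le k2 (F 0) hk2 (hF 0) hlow hk0
    rw [h1] at h4
    linarith
  · intro α
    refine (hW α).congr (fun n => ?_)
    rw [Wa_eq α n, div_eq_mul_inv, one_div, mul_comm]
  · intro α
    refine (hF α).congr' ?_
    filter_upwards [eventually_ge_atTop 1] with k hk
    rw [Pa_eq α k hk, div_eq_mul_inv, one_div, mul_comm]

end Pool.Agent.Ads772.J8b
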